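import Pool.Agent.Lib.DI.G.Spec

/-!
# Theorem DI, part G, module BD: `B_N(a0)` as a sum over `D` and `T`
-/

set_option autoImplicit false

open scoped Pointwise

noncomputable section

namespace Pool.Agent.DI.G

open Pool.Agent.MuZ Pool.Agent.DI

private theorem Nm_add' (v u : OO) (n : ℕ) : ∃ t : ℤ, Nm (v + n * u) = Nm v + n * t := by
  refine ⟨2 * v.re * u.re + n * u.re ^ 2 + v.re * u.im + v.im * u.re + n * u.re * u.im +
    4 * v.im * u.im + 2 * n * u.im ^ 2, ?_⟩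
  have h0 : ((n : OO) * u).re = n * u.re + -2 * 0 * u.im := QuadraticAlgebra.re_mul _ _
  have h0' : ((n : OO) * u).im = n * u.im + 0 * u.re + 1 * 0 * u.im := QuadraticAlgebra.im_mul _ _
  have h1 : (v + (n : OO) * u).re = v.re + n * u.re := by
    change v.re + ((n : OO) * u).re = _
    rw [h0]
    ring
  have h2 : (v + (n : OO) * u).im = v.im + n * u.im := by
    change v.im + ((n : OO) * u).im = _
    rw [h0']
    ring
  unfold Nm
  rw [h1, h2]
  ring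

private theorem Nm_neg' (v : OO) : Nm (-v) = Nm v := by
  change (-v.re) ^ 2 + (-v.re) * (-v.im) + 2 * (-v.im) ^ 2 = _
  unfold Nm
  ring

private theorem cnd_neg (N : ℕ) (a : ℤ) (v : OO) : Cnd N a (-v) ↔ Cnd N a v := by
  unfold Cnd
  rw [Nm_neg']

private theorem cnd_add (f N : ℕ) (a : ℤ) (v u : OO) (h : Cnd N a v) :
    Cnd N a (v + (f * 2 ^ N : ℕ) * u) := by
  obtain ⟨t, ht⟩ := Nm_add' v u (f * 2 ^ N)
  have h1 : (2 : ℤ) ^ N ∣ ((f * 2 ^ N : ℕ) : ℤ) * t := ⟨f * t, by push_cast; ring⟩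
  unfold Cnd
  rw [ht]
  rcases h with h | h
  · left
    have : Nm v + ((f * 2 ^ N : ℕ) : ℤ) * t - a = (Nm v - a) + ((f * 2 ^ N : ℕ) : ℤ) * t := by ring
    rw [this]
    exact dvd_add h h1
  · right
    have : Nm v + ((f * 2 ^ N : ℕ) : ℤ) * t + a = (Nm v + a) + ((f * 2 ^ N : ℕ) : ℤ) * t := by ring
    rw [this]
    exact dvd_add h h1

private theorem cnd_add_iff (f N : ℕ) (a : ℤ) (v u : OO) :
    Cnd N a (v + (f * 2 ^ N : ℕ) * u) ↔ Cnd N a v := by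
  refine ⟨fun h => ?_, cnd_add f N a v u⟩
  have := cnd_add f N a _ (-u) h
  have e : v + (f * 2 ^ N : ℕ) * u + (f * 2 ^ N : ℕ) * -u = v := by ring
  rwa [e] at this

private theorem cnd_odd {N : ℕ} (hN : 2 ≤ N) {a : ℤ} (ha : Odd a) {v : OO} (h : Cnd N a v) :
    Odd (Nm v) := by
  have h2 : (2 : ℤ) ∣ 2 ^ N := dvd_pow_self 2 (by omega)
  obtain ⟨k, hk⟩ := ha
  rcases h with h | h
  · obtain ⟨x, hx⟩ := h2.trans h
    exact ⟨k + x, by linarith⟩
  · obtain ⟨x, hx⟩ := h2.trans h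
    exact ⟨x - k - 1, by linarith⟩

private theorem cop_two' {v : OO} (h : Odd (Nm v)) : Cop v 2 := by
  obtain ⟨k, hk⟩ := h
  refine ⟨1, -k, ?_⟩
  rw [hk]
  push_cast
  ring

private theorem gg_per (hB2 : S_B2) (μ : OO) (z : ℂ) (u : OO) : gg μ (z + toC u) = gg μ z := by
  unfold gg eO
  have h1 : toC μ * (z + toC u) = toC μ * z + toC (μ * u) := by
    rw [map_mul]
    ring
  rw [h1, (hB2.1 _ _).2.2, (hB2.1 _ _).2.2]

private theorem eO_neg (hA0 : S_A0) (hB2 : S_B2) (v : OO) (n : ℕ) (hn : 0 < n) :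
    eO (-(toC v / n)) = -eO (toC v / n) := by
  apply io_inj
  have h1 : Tor (toC v / n) := ⟨v, n, hn, rfl⟩
  have h2 : Tor (-(toC v / n)) := ⟨-v, n, hn, by rw [map_neg, neg_div]⟩
  rw [(hA0 _ h2).2.2, map_neg, (hA0 _ h1).2.2, (hB2.2 _).2.2]

private theorem gg_neg (hA0 : S_A0) (hB2 : S_B2) (μ v : OO) (n : ℕ) (hn : 0 < n) :
    gg μ (toC (-v) / n) = -gg μ (toC v / n) := by
  unfold gg
  have h1 : toC (-v) / n = -(toC v / n) := by rw [map_neg, neg_div]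
  have h2 : toC μ * (toC (-v) / n) = -(toC (μ * v) / n) := by
    rw [map_neg, map_mul]
    ring
  have h3 : toC μ * (toC v / n) = toC (μ * v) / n := by
    rw [map_mul]
    ring
  rw [h2, h3, h1, eO_neg hA0 hB2 _ _ hn, eO_neg hA0 hB2 _ _ hn]
  ring

/-- **BD.** -/
theorem tBD : S_BD := by
  intro hA0 hB2 hNm hCop hEps hEx hChi hRpS hRpD f N χ μ T D v0 a0 hf h7 hχ hN hT ha0 hv0 hnv0 hD1
    hD2 hD3
  classical
  obtain ⟨c1, c2, c3, c4, -⟩ := hCop
  obtain ⟨e1, e2, e3, -⟩ := hEps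
  obtain ⟨x1, x2, x3, x4, -⟩ := hChi f χ hf h7 hχ
  have hf0 : 0 < f := hf.pos
  have hm : 0 < f * 2 ^ N := by positivity
  obtain ⟨hRp, hinj⟩ := hRpD f N T D v0 a0 hf h7 hN hT ha0 hv0 hnv0 hD1 hD2 hD3
  obtain ⟨F, hF⟩ : ∃ F : OO → Om, F = fun v => if Cnd N a0 v then
    (eps v : Om) * χ v * gg μ (toC v / (f * 2 ^ N : ℕ)) else 0 := ⟨_, rfl⟩
  have F1 : ∀ v, Cnd N a0 v → F v = (eps v : Om) * χ v * gg μ (toC v / (f * 2 ^ N : ℕ)) :=
    fun v hv => by
      rw [hF]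
      exact if_pos hv
  have F2 : ∀ v, ¬ Cnd N a0 v → F v = 0 := fun v hv => by
    rw [hF]
    exact if_neg hv
  obtain ⟨k7, hk7⟩ := h7
  have Fper : ∀ v u : OO, F (v + (f * 2 ^ N : ℕ) * u) = F v := by
    intro v u
    by_cases hc : Cnd N a0 v
    · rw [F1 v hc, F1 _ ((cnd_add_iff f N a0 v u).2 hc)]
      have h1 : eps (v + (f * 2 ^ N : ℕ) * u) = eps v := by
        have : v + (f * 2 ^ N : ℕ) * u = v + 7 * ((k7 * 2 ^ N : ℕ) * u) := by
          rw [hk7]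
          push_cast
          ring
        rw [this, e2]
      have h2 : χ (v + (f * 2 ^ N : ℕ) * u) = χ v := by
        refine x3 _ _ ⟨(2 ^ N : ℕ) * u, ?_⟩
        push_cast
        ring
      have h3 : toC (v + (f * 2 ^ N : ℕ) * u) / (f * 2 ^ N : ℕ) = toC v / (f * 2 ^ N : ℕ) + toC u := by
        have h4 : ((f * 2 ^ N : ℕ) : ℂ) ≠ 0 := by exact_mod_cast hm.ne'
        rw [map_add, map_mul, map_natCast, add_div, mul_div_cancel_left₀ _ h4]
      rw [h1, h2, h3, gg_per hB2]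
    · rw [F2 v hc, F2 _ fun h => hc ((cnd_add_iff f N a0 v u).1 h)]
  have Fev : ∀ v : OO, F (-v) = F v := by
    intro v
    by_cases hc : Cnd N a0 v
    · rw [F1 v hc, F1 _ ((cnd_neg N a0 v).2 hc), e3, x2, gg_neg hA0 hB2 _ _ _ hm]
      push_cast
      ring
    · rw [F2 v hc, F2 _ fun h => hc ((cnd_neg N a0 v).1 h)]
  have Fz : ∀ v : OO, ¬ (Cop v (2 * f) ∧ Cnd N a0 v) → F v = 0 := by
    intro v hv
    by_cases hc : Cnd N a0 v
    · have h1 : ¬ Cop v f := fun h => hv ⟨(c4 v 2 f).2 ⟨cop_two' (cnd_odd hN ha0 hc), h⟩, hc⟩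
      rw [F1 v hc, hχ.zero v h1, mul_zero, zero_mul]
    · exact F2 v hc
  have hsum := hRpS (f * 2 ^ N) _ _ F hm hRp Fper Fev Fz
    (fun v hv => ⟨by
      have := hv.1
      unfold Cop at this ⊢
      rwa [Nm_neg'], (cnd_neg N a0 v).2 hv.2⟩)
    (fun v u hv => ⟨by
      obtain ⟨n, rfl⟩ : ∃ n, N = n + 1 := ⟨N - 1, by omega⟩
      have : v + (f * 2 ^ (n + 1) : ℕ) * u = v + (2 * f : ℕ) * ((2 ^ n : ℕ) * u) := by
        push_cast
        ring
      rw [this, c3]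
      exact hv.1, (cnd_add_iff f N a0 v u).2 hv.2⟩)
    (fun v hv hd => by
      obtain ⟨x, y, hxy⟩ := (c1 v f).1 ((c4 v 2 f).1 hv.1).2
      obtain ⟨c, hc⟩ := hd
      have h1 : (2 : OO) = ((f : ℤ) : OO) * (x * (2 ^ N : ℕ) * c + 2 * y) := by
        push_cast at hc ⊢
        linear_combination -2 * hxy + x * hc
      have h2 := congrArg Nm h1
      rw [hNm.1, hNm.2.2.2.1, hk7] at h2
      have h3 : Nm (2 : OO) = 4 := rfl
      rw [h3] at h2
      push_cast at h2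
      have h4 : (49 : ℤ) ∣ 4 := ⟨k7 ^ 2 * Nm (x * (2 ^ N : ℕ) * c + 2 * y), by
        push_cast
        linear_combination h2⟩
      norm_num at h4)
  have hB : BBN f N χ μ a0 = 1 / 2 * sumO (f * 2 ^ N) F := by
    unfold BBN
    rw [hF]
  have h12 : (1 / 2 : Om) * 2 = 1 := by norm_num
  rw [hB, hsum, Finset.sum_image hinj, Finset.sum_product, ← mul_assoc, h12, one_mul]
  refine Finset.sum_congr rfl fun v hv => Finset.sum_congr rfl fun h hh => ?_
  have hmem := hRp.mem (h * (v * v0))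
    (Finset.mem_image.2 ⟨(v, h), Finset.mem_product.2 ⟨hv, hh⟩, rfl⟩)
  rw [F1 _ hmem.2]
  have h1 : χ (h * (v * v0)) = χ v := by
    rw [x4 h _ (hT.mem h hh).1]
    refine x3 _ _ ?_
    have : v * v0 - v = (v0 - 1) * v := by ring
    rw [this]
    exact Dvd.dvd.mul_right hv0 _
  rw [h1]

end Pool.Agent.DI.G
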