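import Pool.Agent.Lib.DI.G.Spec

/-! DI, part G, module BN: `B_N(a)` is not `0` modulo `π` for some odd `a`. -/

set_option autoImplicit false

open scoped Pointwise

noncomputable section

namespace Pool.Agent.DI.G

open Pool.Agent.MuZ Pool.Agent.DI

private theorem BN_tadd {P : Ideal ZZ} [P.IsPrime] {t x y : Om} (hx : TP P t x) (hy : TP P t y) :
    TP P t (x + y) := by
  obtain ⟨a, ha, rfl⟩ := hx
  obtain ⟨b, hb, rfl⟩ := hy
  exact ⟨a + b, ha.add hb, by ring⟩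

private theorem BN_tmul {P : Ideal ZZ} [P.IsPrime] {t x y : Om} (hx : VP P x) (hy : TP P t y) :
    TP P t (x * y) := by
  obtain ⟨b, hb, rfl⟩ := hy
  exact ⟨x * b, hx.mul hb, by ring⟩

private theorem BN_tneg {P : Ideal ZZ} [P.IsPrime] {t x : Om} (hx : TP P t x) :
    TP P t (-x) := by
  obtain ⟨a, ha, rfl⟩ := hx
  exact ⟨-a, ha.neg, by ring⟩

/-- odd integers: powers of two -/
private theorem BN_pow (x : ℤ) (hx : Odd x) (N : ℕ) : (2 : ℤ) ^ N ∣ x ^ 2 ^ N - 1 := by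
  have h : ∀ k : ℕ, (2 : ℤ) ^ (k + 1) ∣ x ^ 2 ^ k - 1 := by
    intro k
    induction k with
    | zero =>
      obtain ⟨y, rfl⟩ := hx
      exact ⟨y, by ring⟩
    | succ k ih =>
      have e : x ^ 2 ^ (k + 1) - 1 = (x ^ 2 ^ k - 1) * (x ^ 2 ^ k + 1) := by
        rw [pow_succ 2 k, pow_mul]
        ring
      rw [e, pow_succ (2 : ℤ) (k + 1)]
      refine mul_dvd_mul ih ?_
      have h1 : Odd (x ^ 2 ^ k) := hx.pow
      obtain ⟨y, hy⟩ := h1
      exact ⟨y + 1, by rw [hy]; ring⟩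
  exact (pow_dvd_pow 2 (Nat.le_succ N)).trans (h N)

/-- `SSN` depends on `a` modulo `2 ^ N` only -/
private theorem BN_per (f N : ℕ) (χ : OO → Om) (a b : ℤ) (h : (2 : ℤ) ^ N ∣ a - b) :
    SSN f N χ a = SSN f N χ b := by
  have h1 : ∀ v : OO, Cnd N a v ↔ Cnd N b v := by
    intro v
    unfold Cnd
    have e1 : Nm v - a = (Nm v - b) - (a - b) := by ring
    have e2 : Nm v + a = (Nm v + b) + (a - b) := by ring
    rw [e1, e2, dvd_sub_left h, dvd_add_left h]
  unfold SSN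
  congr 2
  funext v
  by_cases h2 : Cnd N a v
  · rw [if_pos h2, if_pos ((h1 v).1 h2)]
  · rw [if_neg h2, if_neg (fun h3 => h2 ((h1 v).2 h3))]

theorem tBN : S_BN := by
  intro hNm hCop hEps hChi hSNo hBS f χ P μ hf h7 hχ hP hμ hχμ
  have hprime : P.IsPrime := hP.1
  obtain ⟨hchi1, -, -, -, -, hchiU, -⟩ := hChi f χ hf h7 hχ
  have hμf : Cop μ f := (((hCop.2.2.2.1 μ 2 f).1 hμ)).2
  have hμ2 : Cop μ 2 := (((hCop.2.2.2.1 μ 2 f).1 hμ)).1
  have hUχ : UP P (χ μ) := hchiU P μ ⟨hP.1, hP.2.1⟩ hμf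
  have hχμ0 : χ μ ≠ 0 := hUχ.ne_zero
  -- `wO`
  have hwM : MP P wO := hP.2.2
  have hwV : VP P wO := hwM.vp
  have hww : wO * (1 - wO) = 2 := by
    have h := wO_sq
    linear_combination -h
  have hVO : ∀ v : OO, VP P (toO v) := by
    intro v
    change VP P ((v.re : Om) + v.im * wO)
    exact (VP.int _).add ((VP.int _).mul hwV)
  have hT2 : ∀ x : Om, VP P x → TP P wO (2 * x) := by
    intro x hx
    refine ⟨(1 - wO) * x, (VP.one.sub hwV).mul hx, ?_⟩
    rw [← hww]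
    ring
  have hM2 : MP P 2 := by
    rw [← hww]
    exact MP.mul_right hwM (VP.one.sub hwV)
  -- odd integers are units
  have hodd : ∀ k : ℕ, Odd k → ¬ MP P (k : Om) := by
    rintro k ⟨j, rfl⟩ h
    push_cast at h
    have h1 : MP P (2 * (j : Om)) := MP.mul_right hM2 (VP.nat j)
    have h2 := h.sub h1
    rw [add_sub_cancel_left] at h2
    exact MP.one_not h2
  -- `χ μ` has odd order
  obtain ⟨k', hk', hk⟩ := hχ.odd
  have hkμ : χ μ ^ k' = 1 := hk μ hμf
  obtain ⟨N1, hN1⟩ := hSNo f χ P hf h7 hχ hP ⟨μ, hμf, hχμ⟩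
  refine ⟨max N1 3, ?_⟩
  set N := max N1 3 with hN
  by_contra hcon
  simp only [not_exists, not_and, not_not] at hcon
  have hB : ∀ a : ℤ, Odd a → TP P wO (BBN f N χ μ a) := fun a ha =>
    hcon a (le_max_right _ _) ha
  have hS := hN1 N (le_max_left _ _)
  -- norms
  have hμodd : Odd (Nm μ) := by
    have h1 : IsCoprime (Nm μ) ((2 : ℕ) : ℤ) := hμ2
    rw [← Int.not_even_iff_odd]
    rintro ⟨y, hy⟩
    have h2 : ((2 : ℕ) : ℤ) ∣ Nm μ := ⟨y, by rw [hy]; push_cast; ring⟩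
    have h3 := h1.isUnit_of_dvd' h2 dvd_rfl
    rw [Int.isUnit_iff] at h3
    norm_num at h3
  have hμ7 : Cop μ 7 := by
    obtain ⟨j, rfl⟩ := h7
    exact ((hCop.2.2.2.1 μ 7 j).1 hμf).1
  have hepsμ : eps μ = 1 ∨ eps μ = -1 := hEps.2.2.2.2.2.2.2.2.2.2 μ hμ7
  have heps1 : (eps μ : Om) * (eps μ : Om) = 1 := by
    rcases hepsμ with h | h <;> rw [h] <;> norm_num
  have heps0 : (eps μ : Om) ≠ 0 := by
    intro h
    rw [h, zero_mul] at heps1
    exact zero_ne_one heps1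
  -- congruences
  have hc1 : TP P wO (toO μ - 1) := by
    obtain ⟨x, hx⟩ := (hCop.2.2.2.2.1 μ).1 hμ2
    have h1 : toO μ - 1 = 2 * toO x := by
      have h2 := congrArg toO hx
      rw [map_sub, map_one, map_mul, map_ofNat] at h2
      exact h2
    rw [h1]
    exact hT2 _ (hVO x)
  have hc2 : TP P wO ((Nm μ : Om) * (eps μ : Om) - 1) := by
    have h1 : Odd (Nm μ * eps μ) := by
      refine hμodd.mul ?_
      rcases hepsμ with h | h <;> rw [h]
      · exact odd_one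
      · exact ⟨-1, by norm_num⟩
    obtain ⟨y, hy⟩ := h1
    have h2 : (Nm μ : Om) * (eps μ : Om) - 1 = 2 * (y : Om) := by
      have h3 := congrArg (Int.cast : ℤ → Om) hy
      push_cast at h3
      rw [h3]
      ring
    rw [h2]
    exact hT2 _ (VP.int y)
  have step : ∀ a : ℤ, Odd a → TP P wO (SSN f N χ (a * Nm μ) - χ μ * SSN f N χ a) := by
    intro a ha
    have h1 := hBS f χ μ hf h7 hχ hμ N a
    have h2 := hB a ha
    have hV1 := (hS a ha).1
    have hV2 := (hS (a * Nm μ) (ha.mul hμodd)).1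
    have e : SSN f N χ (a * Nm μ) - χ μ * SSN f N χ a =
        ((eps μ : Om) * χ μ) * BBN f N χ μ a + -(SSN f N χ (a * Nm μ) * (toO μ - 1)) +
          (χ μ * SSN f N χ a) * ((Nm μ : Om) * (eps μ : Om) - 1) := by
      rw [h1]
      have h3 : ((eps μ : Om) * χ μ) * ((eps μ : Om) * χ μ)⁻¹ = 1 :=
        mul_inv_cancel₀ (mul_ne_zero heps0 hχμ0)
      linear_combination (-(toO μ * SSN f N χ (a * Nm μ))) * h3
    rw [e]
    exact BN_tadd (BN_tadd (BN_tmul ((VP.int _).mul hUχ.1) h2)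
      (BN_tneg (BN_tmul hV2 hc1))) (BN_tmul (hUχ.1.mul hV1) hc2)
  have iter : ∀ k : ℕ, TP P wO (SSN f N χ (1 * Nm μ ^ k) - χ μ ^ k * SSN f N χ 1) := by
    intro k
    induction k with
    | zero =>
      rw [pow_zero, pow_zero, mul_one, one_mul, sub_self]
      exact ⟨0, VP.zero, by ring⟩
    | succ k ih =>
      have h1 := step (1 * Nm μ ^ k) (odd_one.mul hμodd.pow)
      have e : SSN f N χ (1 * Nm μ ^ (k + 1)) - χ μ ^ (k + 1) * SSN f N χ 1 =
          (SSN f N χ (1 * Nm μ ^ k * Nm μ) - χ μ * SSN f N χ (1 * Nm μ ^ k)) +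
            χ μ * (SSN f N χ (1 * Nm μ ^ k) - χ μ ^ k * SSN f N χ 1) := by
        rw [show (1 : ℤ) * Nm μ ^ (k + 1) = 1 * Nm μ ^ k * Nm μ by ring]
        ring
      rw [e]
      exact BN_tadd h1 (BN_tmul hUχ.1 ih)
  have hfin := iter (2 ^ N)
  have hper : SSN f N χ (1 * Nm μ ^ 2 ^ N) = SSN f N χ 1 := by
    refine BN_per f N χ _ _ ?_
    rw [one_mul]
    exact BN_pow (Nm μ) hμodd N
  rw [hper] at hfin
  set ω : Om := χ μ ^ 2 ^ N with hω
  have hω1 : ω ≠ 1 := by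
    intro h
    have h1 : orderOf (χ μ) ∣ 2 ^ N := orderOf_dvd_of_pow_eq_one h
    have h2 : orderOf (χ μ) ∣ k' := orderOf_dvd_of_pow_eq_one hkμ
    have h3 : Nat.Coprime (2 ^ N) k' := Nat.Coprime.pow_left N
      ((Nat.coprime_two_left).2 hk')
    have h4 : orderOf (χ μ) = 1 := Nat.eq_one_of_dvd_coprimes h3 h1 h2
    exact hχμ (orderOf_eq_one_iff.1 h4)
  have hωk : ω ^ k' = 1 := by
    rw [hω, ← pow_mul, mul_comm, pow_mul, hkμ, one_pow]
  have hωV : VP P ω := hUχ.1.pow _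
  have hU : UP P (1 - ω) := by
    refine ⟨VP.one.sub hωV, fun h => ?_⟩
    have h1 : ∑ i ∈ Finset.range k', ω ^ i = 0 := by
      have h2 := geom_sum_mul ω k'
      rw [hωk, sub_self] at h2
      rcases mul_eq_zero.1 h2 with h3 | h3
      · exact h3
      · exact absurd (sub_eq_zero.1 h3) hω1
    have h2 : MP P (∑ i ∈ Finset.range k', (ω ^ i - 1)) := by
      refine MP.sum _ _ fun i _ => ?_
      have h3 := mul_geom_sum ω i
      rw [← h3]
      refine MP.mul_right ?_ (VP.sum _ _ fun j _ => hωV.pow j)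
      have h4 := h.neg
      rwa [neg_sub] at h4
    rw [Finset.sum_sub_distrib, h1, Finset.sum_const, Finset.card_range, zero_sub, nsmul_eq_mul,
      mul_one] at h2
    have h3 := h2.neg
    rw [neg_neg] at h3
    exact hodd k' hk' h3
  have hfin2 : TP P wO (SSN f N χ 1) := by
    have e : SSN f N χ 1 = (1 - ω)⁻¹ * (SSN f N χ 1 - ω * SSN f N χ 1) := by
      rw [show SSN f N χ 1 - ω * SSN f N χ 1 = (1 - ω) * SSN f N χ 1 by ring,
        inv_mul_cancel_left₀ hU.ne_zero]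
    rw [e]
    exact BN_tmul hU.inv.1 hfin
  exact (hS 1 odd_one).2 hfin2

end Pool.Agent.DI.G
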