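import Pool.Agent.Lib.DI.G.Spec

set_option autoImplicit false

/-!
# Theorem DI, part G: basic facts on `χ` (`S_Chi`)
-/

namespace Pool.Agent.DI.G

open Pool.Agent.MuZ Pool.Agent.DI

private theorem chi_one {f : ℕ} {χ : OO → Om} (hχ : IsChi f χ) : χ 1 = 1 := by
  obtain ⟨m, hmo, hm⟩ := hχ.odd
  have hc : Cop (1 : OO) f := by
    have h1 : Nm (1 : OO) = 1 := by
      change (1 : ℤ) ^ 2 + 1 * 0 + 2 * 0 ^ 2 = 1
      norm_num
    rw [Cop, h1]
    exact isCoprime_one_left
  have h1 : χ 1 ≠ 0 := by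
    intro h0
    have h2 := hm 1 hc
    rw [h0, zero_pow hmo.pos.ne'] at h2
    exact zero_ne_one h2
  have h2 : χ 1 * χ 1 = χ 1 * 1 := by
    rw [← hχ.mul, mul_one, mul_one]
  exact mul_left_cancel₀ h1 h2

private theorem chi_pow {f : ℕ} {χ : OO → Om} (hχ : IsChi f χ) (v : OO) (n : ℕ) :
    χ (v ^ n) = χ v ^ n := by
  induction n with
  | zero => rw [pow_zero, pow_zero, chi_one hχ]
  | succ n ih => rw [pow_succ, pow_succ, hχ.mul, ih]

private theorem eq_one_of_pow {x : Om} {k m : ℕ} (hm : Odd m) (h1 : x ^ 2 ^ k = 1)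
    (h2 : x ^ m = 1) : x = 1 := by
  have h3 : x ^ Nat.gcd (2 ^ k) m = 1 := by
    have h4 : orderOf x ∣ 2 ^ k := orderOf_dvd_of_pow_eq_one h1
    have h5 : orderOf x ∣ m := orderOf_dvd_of_pow_eq_one h2
    exact orderOf_dvd_iff_pow_eq_one.1 (Nat.dvd_gcd h4 h5)
  have h6 : Nat.gcd (2 ^ k) m = 1 := (Nat.Coprime.pow_left k (Nat.coprime_two_left.2 hm))
  rw [h6, pow_one] at h3
  exact h3

theorem tChi : S_Chi := by
  intro hC hE f χ hf h7 hχ
  obtain ⟨m, hmo, hm⟩ := hχ.odd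
  have hmpos : 0 < m := hmo.pos
  have h1 : χ 1 = 1 := chi_one hχ
  have hcong : ∀ v u : OO, (f : OO) ∣ v - u → χ v = χ u := by
    intro v u hvu
    obtain ⟨k, hk⟩ := hvu
    have h2 : v = u + f * k := by
      rw [← hk]
      ring
    rw [h2, hχ.per]
  have hHf : ∀ h : OO, Hf f h → χ h = 1 := by
    intro h hh
    obtain ⟨hc, k, hk⟩ := hh
    have h2 : χ (h ^ 2 ^ k) = 1 := by
      rw [hcong _ _ hk, h1]
    rw [chi_pow hχ] at h2
    exact eq_one_of_pow hmo h2 (hm h hc)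
  have hc1 : Cop (-1 : OO) f := by
    have h2 : Nm (-1 : OO) = 1 := by
      change (-1 : ℤ) ^ 2 + (-1) * (-0) + 2 * (-0) ^ 2 = 1
      norm_num
    rw [Cop, h2]
    exact isCoprime_one_left
  have hneg1 : χ (-1) = 1 := by
    apply hHf
    refine ⟨hc1, 1, ?_⟩
    rw [pow_one, neg_one_sq, sub_self]
    exact dvd_zero _
  have hneg : ∀ v : OO, χ (-v) = χ v := by
    intro v
    rw [← neg_one_mul, hχ.mul, hneg1, one_mul]
  refine ⟨h1, hneg, hcong, ?_, ?_, ?_, ?_⟩
  · intro h v hh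
    rw [hχ.mul, hHf h hh, one_mul]
  · intro v
    by_cases hc : Cop v f
    · apply IsIntegral.of_pow hmpos
      rw [hm v hc]
      exact isIntegral_one
    · rw [hχ.zero v hc]
      exact isIntegral_zero
  · intro P v hP hc
    have : P.IsPrime := hP.1
    apply UP.of_pow hmpos
    rw [hm v hc]
    exact UP.one
  · obtain ⟨-, e2, e3, -⟩ := hE
    obtain ⟨k, hk⟩ := h7
    refine ⟨?_, ?_⟩
    · intro v u
      have h2 : eps (v + f * u) = eps v := by
        have h3 : v + (f : OO) * u = v + 7 * ((k : OO) * u) := by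
          rw [hk]
          push_cast
          ring
        rw [h3, e2]
      change (eps (v + f * u) : Om) * χ (v + f * u) = (eps v : Om) * χ v
      rw [h2, hχ.per]
    · intro v
      rw [e3, hneg]
      push_cast
      ring

end Pool.Agent.DI.G
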