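import Pool.Agent.Lib.DI.G.Spec

/-!
# Theorem DI, part G: the homomorphism `D` on the elliptic units (`S_DU`)
-/

set_option autoImplicit false

open scoped Pointwise

noncomputable section

namespace Pool.Agent.DI.G

open Pool.Agent.MuZ Pool.Agent.DI

private theorem DU_wO_ne : wO ≠ 0 := by
  intro h
  have h1 := wO_sq
  rw [h] at h1
  norm_num at h1

private theorem DU_prod {P : Ideal ZZ} (hP : P.IsPrime) {w : Om} (hw : VP P w) (T : Finset OO)
    (F g : OO → Om) (hg : ∀ h ∈ T, VP P (g h))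
    (hF : ∀ h ∈ T, TP P (w ^ 2) (F h - 1 - w * g h)) :
    ∃ R : Om, VP P R ∧ ∏ h ∈ T, F h = 1 + w * (∑ h ∈ T, g h) + w ^ 2 * R := by
  classical
  induction T using Finset.induction_on with
  | empty => exact ⟨0, VP.zero, by simp⟩
  | insert x T hx ih =>
    obtain ⟨R, hR, hRe⟩ := ih (fun h hh => hg h (Finset.mem_insert_of_mem hh))
      (fun h hh => hF h (Finset.mem_insert_of_mem hh))
    obtain ⟨r, hr, hre⟩ := hF x (Finset.mem_insert_self x T)
    have hgx := hg x (Finset.mem_insert_self x T)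
    have hG : VP P (∑ h ∈ T, g h) :=
      VP.sum T g fun h hh => hg h (Finset.mem_insert_of_mem hh)
    refine ⟨r + R + g x * (∑ h ∈ T, g h) + w * (g x * R + r * (∑ h ∈ T, g h)) + w ^ 2 * (r * R),
      ?_, ?_⟩
    · exact VP.add (VP.add (VP.add (VP.add hr hR) (VP.mul hgx hG))
        (VP.mul hw (VP.add (VP.mul hgx hR) (VP.mul hr hG))))
        (VP.mul (VP.pow hw 2) (VP.mul hr hR))
    · rw [Finset.prod_insert hx, Finset.sum_insert hx, hRe]
      have e : F x = 1 + w * g x + w ^ 2 * r := by linear_combination hre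
      rw [e]
      ring

theorem tDU : S_DU := by
  intro hD8 hUCop hUHN hTra hThT hUBa hUBb f μ S N T P hf h7 hμ hS hN hT hP s a hs v hv
  have hPp : P.IsPrime := hP.1
  have hw : VP P wO := MP.vp hP.2.2
  obtain ⟨-, hcm, -, hcNM, -⟩ := hUCop
  obtain ⟨⟨-, hneg, -⟩, -, -, -, -, -, hHNc, -⟩ := hUHN f N hf h7
  have hm : (0 : ℕ) < f * 2 ^ N := Nat.mul_pos hf.pos (by positivity)
  have hm0 : ((f * 2 ^ N : ℕ) : ℂ) ≠ 0 := by exact_mod_cast hm.ne'
  -- coprimality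
  have hc2 : ∀ x : OO, Cop x (f * 2 ^ N) → Cop x (2 * f) := by
    intro x hx
    obtain ⟨h1, h2⟩ := (hcNM x f (2 ^ N)).1 hx
    have e : 2 ^ N = 2 * 2 ^ (N - 1) := by
      rw [← pow_succ']
      congr 1
      omega
    rw [e] at h2
    exact (hcNM x 2 f).2 ⟨((hcNM x 2 _).1 h2).1, h1⟩
  have hac : Cop a (f * 2 ^ N) := by
    rcases hs.psi with h | h
    · exact h.1
    · have h1 := h.1
      unfold Cop at h1 ⊢
      have e : Nm (-a) = Nm a := by simp [Nm]
      rwa [e] at h1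
  have hav : Cop (a * v) (2 * f) := (hcm a v _).2 ⟨hc2 a hac, hv⟩
  -- the action of `s`
  have hsu : s (uN f N μ S T v) = uN f N μ S T (a * v) := by
    rcases hs.psi with h | h
    · exact (hUBb f μ S N T hf h7 hμ hS (by omega) hT v hv).2 s hs.gk a h
    · rw [(hUBb f μ S N T hf h7 hμ hS (by omega) hT v hv).2 s hs.gk (-a) h]
      have h1 := (hUBa f μ S N T hf h7 hμ hS (by omega) hT (a * v) hav).2.2.2.1 (-1) hneg
      rw [← h1]
      congr 1
      ring
  have hu0 : uN f N μ S T v ≠ 0 := (hUBa f μ S N T hf h7 hμ hS (by omega) hT v hv).1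
  -- the points
  have hth : ∀ h ∈ T, VP P (gg μ (toC (h * v) / (f * 2 ^ N : ℕ))) ∧
      Theta μ S (toC (h * v) / (f * 2 ^ N : ℕ)) ≠ 0 ∧
      TP P (wO ^ 2) (Theta μ S (toC (h * (a * v)) / (f * 2 ^ N : ℕ)) /
        Theta μ S (toC (h * v) / (f * 2 ^ N : ℕ)) - 1 -
        wO * gg μ (toC (h * v) / (f * 2 ^ N : ℕ))) := by
    intro h hh
    have hch : Cop (h * v) (2 * f) := (hcm h v _).2 ⟨hc2 h (hHNc h (hT.mem h hh)), hv⟩
    obtain ⟨h1, h2, h3⟩ := hThT f N μ S P hf h7 (by omega) hμ hS hP (h * v) hch _ rfl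
    refine ⟨h1, h2, ?_⟩
    obtain ⟨x, hx⟩ := hTra f N hf h7 hN s a hs (h * v) hch
    have e1 : h * (a * v) = a * (h * v) := by ring
    have hT1 : Tor (toC (h * v) / ((f * 2 ^ N : ℕ) : ℂ) + 1 / wC) := by
      refine ⟨a * (h * v) - (f * 2 ^ N : ℕ) * x, f * 2 ^ N, hm, ?_⟩
      have e3 : toC (a * (h * v) - ((f * 2 ^ N : ℕ) : OO) * x) =
          toC (a * (h * v)) - ((f * 2 ^ N : ℕ) : ℂ) * toC x := by
        rw [map_sub, map_mul toC ((f * 2 ^ N : ℕ) : OO) x, map_natCast]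
      rw [e3, sub_div, hx, mul_div_cancel_left₀ _ hm0]
      ring
    have e2 := (hD8 μ S S hS hS _ hT1).2.2.1 x
    rw [e1, hx, e2]
    exact h3
  have hp := DU_prod hPp hw T (fun h => Theta μ S (toC (h * (a * v)) / (f * 2 ^ N : ℕ)) /
    Theta μ S (toC (h * v) / (f * 2 ^ N : ℕ))) (fun h => gg μ (toC (h * v) / (f * 2 ^ N : ℕ)))
    (fun h hh => (hth h hh).1) (fun h hh => (hth h hh).2.2)
  obtain ⟨R, hR, hRe⟩ := hp
  rw [Finset.prod_div_distrib] at hRe
  have hq : s (uN f N μ S T v) / uN f N μ S T v =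
      1 + wO * (∑ h ∈ T, gg μ (toC (h * v) / (f * 2 ^ N : ℕ))) + wO ^ 2 * R := by
    rw [hsu]
    exact hRe
  have hD : Dw s (uN f N μ S T v) =
      (∑ h ∈ T, gg μ (toC (h * v) / (f * 2 ^ N : ℕ))) + wO * R := by
    unfold Dw
    rw [hq, div_eq_iff DU_wO_ne]
    ring
  refine ⟨?_, fun h hh => (hth h hh).1, R, hR, ?_⟩
  · rw [hD]
    exact VP.add (VP.sum T _ fun h hh => (hth h hh).1) (VP.mul hw hR)
  · rw [hD]
    ring

end Pool.Agent.DI.G
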