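import Pool.Agent.Lib.DI.G.Spec

/-!
# Theorem DI, part G, module Fou1: the Fourier transform, exact identity
-/

set_option autoImplicit false

open scoped Pointwise

noncomputable section

namespace Pool.Agent.DI.G

open Pool.Agent.MuZ Pool.Agent.DI

private theorem Fou1_mul (m : ℕ) (c : Om) (F : OO → Om) :
    c * sumO m F = sumO m (fun v => c * F v) := by
  unfold sumO
  simp only [Finset.mul_sum]

private theorem Fou1_add (m : ℕ) (F G : OO → Om) :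
    sumO m F + sumO m G = sumO m (fun v => F v + G v) := by
  unfold sumO
  simp only [Finset.sum_add_distrib]

private theorem Fou1_sum (m n : ℕ) (F : ℕ → OO → Om) :
    ∑ c ∈ Finset.range n, sumO m (F c) = sumO m (fun v => ∑ c ∈ Finset.range n, F c v) := by
  unfold sumO
  rw [Finset.sum_comm]
  refine Finset.sum_congr rfl fun a _ => ?_
  rw [Finset.sum_comm]

private theorem Fou1_congr (m : ℕ) (F G : OO → Om) (h : ∀ v, F v = G v) :
    sumO m F = sumO m G := by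
  rw [funext h]

private theorem Fou1_geo {ζ : Om} {n : ℕ} (hζ : IsPrimitiveRoot ζ n) (k : ℤ) :
    ∑ c ∈ Finset.range n, ζ ^ ((c : ℤ) * k) = if (n : ℤ) ∣ k then (n : Om) else 0 := by
  have h1 : ∀ c : ℕ, ζ ^ ((c : ℤ) * k) = (ζ ^ k) ^ c := by
    intro c
    rw [mul_comm, zpow_mul, zpow_natCast]
  simp only [h1]
  split_ifs with h
  · rw [(hζ.zpow_eq_one_iff_dvd k).2 h]
    simp
  · have h2 : ζ ^ k ≠ 1 := fun h3 => h ((hζ.zpow_eq_one_iff_dvd k).1 h3)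
    have h3 : (ζ ^ k) ^ n = 1 := by
      rw [← zpow_natCast, ← zpow_mul, mul_comm, zpow_mul, zpow_natCast, hζ.pow_eq_one, one_zpow]
    have h4 := mul_geom_sum (ζ ^ k) n
    rw [h3, sub_self] at h4
    exact (mul_eq_zero.1 h4).resolve_left (sub_ne_zero.2 h2)

theorem tFou1 : S_Fou1 := by
  classical
  intro hA2 hE11 hChi f χ hf h7 hχ N a hN ha
  obtain ⟨-, -, -, -, -, -, hρ⟩ := hChi f χ hf h7 hχ
  have hf0 : f ≠ 0 := by
    rintro rfl
    exact absurd hf (by decide)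
  have hfO : (f : Om) ≠ 0 := Nat.cast_ne_zero.2 hf0
  have h2N : 0 < 2 ^ N := by positivity
  have h2O : ((2 ^ N : ℕ) : Om) ≠ 0 := Nat.cast_ne_zero.2 h2N.ne'
  obtain ⟨-, hζ⟩ := hA2 (2 ^ N) h2N
  have hζ0 : zet (2 ^ N) ≠ 0 := hζ.ne_zero h2N.ne'
  have key : ∀ b : ℤ, etaX χ ((b : ℚ) / 2 ^ N) = 1 / (2 * f * (2 ^ N : ℕ)) *
      sumO (f * 2 ^ N) (fun v => (eps v : Om) * χ v * zet (2 ^ N) ^ (b * Nm v) *
        eO (toC v / (f * 2 ^ N : ℕ))) := by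
    intro b
    have h1 := (hE11 f hf h7 _ hρ b (2 ^ N) h2N).2
    have h2 : ((b : ℚ) / 2 ^ N) = (b : ℚ) / ((2 ^ N : ℕ) : ℚ) := by
      push_cast
      rfl
    rw [h2]
    exact h1
  have key2 : ∀ c : ℕ, zet (2 ^ N) ^ (-((c : ℤ) * a)) * etas χ ((c : ℚ) / 2 ^ N) =
      1 / (2 * f * (2 ^ N : ℕ)) * sumO (f * 2 ^ N) (fun v => (eps v : Om) * χ v *
        eO (toC v / (f * 2 ^ N : ℕ)) * (zet (2 ^ N) ^ ((c : ℤ) * (Nm v - a)) +
          zet (2 ^ N) ^ ((c : ℤ) * (-(Nm v + a))))) := by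
    intro c
    unfold etas
    have h1 := key (c : ℤ)
    have h2 := key (-(c : ℤ))
    have h3 : ((c : ℤ) : ℚ) / 2 ^ N = (c : ℚ) / 2 ^ N := by
      push_cast
      rfl
    have h4 : ((-(c : ℤ) : ℤ) : ℚ) / 2 ^ N = -((c : ℚ) / 2 ^ N) := by
      push_cast
      rw [neg_div]
    rw [h3] at h1
    rw [h4] at h2
    rw [h1, h2, ← mul_add, Fou1_add, mul_left_comm, Fou1_mul]
    congr 1
    refine Fou1_congr _ _ _ fun v => ?_
    have e1 : zet (2 ^ N) ^ ((c : ℤ) * (Nm v - a)) =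
        zet (2 ^ N) ^ (-((c : ℤ) * a)) * zet (2 ^ N) ^ ((c : ℤ) * Nm v) := by
      rw [← zpow_add₀ hζ0]
      congr 1
      ring
    have e2 : zet (2 ^ N) ^ ((c : ℤ) * (-(Nm v + a))) =
        zet (2 ^ N) ^ (-((c : ℤ) * a)) * zet (2 ^ N) ^ (-(c : ℤ) * Nm v) := by
      rw [← zpow_add₀ hζ0]
      congr 1
      ring
    rw [e1, e2]
    ring
  rw [Finset.sum_congr rfl fun c _ => key2 c, ← Finset.mul_sum, Fou1_sum]
  unfold SSN
  rw [← mul_assoc, Fou1_mul, Fou1_mul]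
  refine Fou1_congr _ _ _ fun v => ?_
  rw [← Finset.mul_sum, Finset.sum_add_distrib, Fou1_geo hζ, Fou1_geo hζ]
  simp only [dvd_neg]
  unfold Cnd
  push_cast
  have hex : ¬ ((2 : ℤ) ^ N ∣ Nm v - a ∧ (2 : ℤ) ^ N ∣ Nm v + a) := by
    rintro ⟨h1, h2⟩
    have h3 := dvd_sub h2 h1
    have h4 : Nm v + a - (Nm v - a) = 2 * a := by ring
    rw [h4] at h3
    have h5 : (2 : ℤ) ^ 2 ∣ 2 ^ N := pow_dvd_pow 2 hN
    obtain ⟨k, hk⟩ := h5.trans h3
    obtain ⟨j, hj⟩ := ha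
    omega
  have h2' : ((2 : Om) ^ N) ≠ 0 := pow_ne_zero _ two_ne_zero
  by_cases h1 : (2 : ℤ) ^ N ∣ Nm v - a
  · have h2 : ¬ (2 : ℤ) ^ N ∣ Nm v + a := fun h => hex ⟨h1, h⟩
    rw [if_pos h1, if_neg h2, if_pos (Or.inl h1)]
    field_simp
    ring
  · by_cases h2 : (2 : ℤ) ^ N ∣ Nm v + a
    · rw [if_neg h1, if_pos h2, if_pos (Or.inr h2)]
      field_simp
      ring
    · rw [if_neg h1, if_neg h2, if_neg (by rintro (h | h); exact h1 h; exact h2 h)]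
      ring

end Pool.Agent.DI.G
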