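import Pool.Agent.Lib.DI.G.Spec

/-!
# Theorem DI, part G, module Fou2: the Fourier transform modulo `π`
-/

set_option autoImplicit false

open scoped Pointwise

noncomputable section

namespace Pool.Agent.DI.G

open Pool.Agent.MuZ Pool.Agent.DI

private theorem Fou2_wb : wO * wbO = 2 := by
  unfold wbO
  linear_combination -wO_sq

private theorem Fou2_int : IsIntegral ℤ wO := by
  refine ⟨Polynomial.X ^ 2 - Polynomial.X + Polynomial.C 2, ?_, ?_⟩
  · monicity!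
  · rw [Polynomial.eval₂_add, Polynomial.eval₂_sub, Polynomial.eval₂_pow, Polynomial.eval₂_X,
      Polynomial.eval₂_C, wO_sq]
    simp

private theorem Fou2_zpow {P : Ideal ZZ} (hP : P.IsPrime) {x : Om} (hx : UP P x) (k : ℤ) :
    VP P (x ^ k) := by
  have := hP
  rcases Int.eq_nat_or_neg k with ⟨n, rfl | rfl⟩
  · rw [zpow_natCast]
    exact (hx.pow n).1
  · rw [zpow_neg, zpow_natCast]
    exact (hx.pow n).inv.1

theorem tFou2 : S_Fou2 := by
  intro hA2 hE12 hE13 _ hChi hFou1 f χ P hf h7 hχ hP hne N a hN ha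
  have hPp : P.IsPrime := hP.1
  obtain ⟨M, rfl⟩ : ∃ M, N = M + 1 := ⟨N - 1, by omega⟩
  have hM : M + 1 - 1 = M := rfl
  rw [hM]
  -- basic facts
  have hw : VP P wO := VP.integral Fou2_int
  have hwb : VP P wbO := VP.one.sub hw
  have h2 : MP P 2 := by
    rw [← Fou2_wb]
    exact MP.mul_right hP.2.2 hwb
  have hχV : ∀ v, VP P (χ v) := fun v => VP.integral ((hChi f χ hf h7 hχ).2.2.2.2.1 v)
  have hX : ∀ (r : ℚ) (k : ℤ) (j : ℕ), r = k / 2 ^ j → VP P (etaX χ r) := by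
    intro r k j hr
    refine (hE13 f χ hf h7 hχ hne r ?_).1 P ⟨hP.1, hP.2.1⟩ h2
    have h3 : (r.den : ℤ) ∣ ((2 ^ j : ℕ) : ℤ) := by
      rw [hr]
      have h4 := Rat.den_dvd k ((2 ^ j : ℕ) : ℤ)
      rw [Rat.divInt_eq_div] at h4
      push_cast at h4 ⊢
      exact h4
    have h4 : r.den ∣ 2 ^ j := by exact_mod_cast h3
    exact Nat.Coprime.coprime_dvd_left h4
      (Nat.Coprime.pow_left j (Nat.coprime_two_left.2 hf))
  have hS : ∀ (r : ℚ) (k : ℤ) (j : ℕ), r = k / 2 ^ j → VP P (etas χ r) := by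
    intro r k j hr
    refine (hX r k j hr).add (hX (-r) (-k) j ?_)
    rw [hr]
    push_cast
    ring
  obtain ⟨-, hz⟩ := hA2 (2 ^ (M + 1)) (by positivity)
  set ζ : Om := zet (2 ^ (M + 1)) with hζ
  have hζu : UP P ζ := by
    refine UP.of_pow (n := 2 ^ (M + 1)) (by positivity) ?_
    rw [hz.pow_eq_one]
    exact UP.one
  have hζq : ζ ^ (2 ^ M) = -1 := by
    have h3 : ζ ^ (2 ^ M) * ζ ^ (2 ^ M) = 1 := by
      rw [← pow_two, ← pow_mul, ← pow_succ, hz.pow_eq_one]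
    rcases mul_self_eq_one_iff.1 h3 with h4 | h4
    · exact absurd h4 (hz.pow_ne_one_of_pos_of_lt (by positivity)
        (Nat.pow_lt_pow_right (by norm_num) (by omega)))
    · exact h4
  have hζ0 : ζ ≠ 0 := hζu.ne_zero
  -- the functional equation
  have hfe : ∀ s : ℚ, etas χ s + etas χ (s + 1 / 2) + χ 2 * etas χ (2 * (2 * s)) =
      (wbO * χ pO + wO * χ pbO) * etas χ (2 * s) := by
    intro s
    obtain ⟨-, e2, e3⟩ := hE12 f χ hf h7 hχ
    have e4 := e3 (2 * s)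
    have e5 := e3 (-(2 * s))
    have e6 := e2 (-(s + 1 / 2))
    have r1 : 2 * s / 2 = s := by ring
    have r2 : (2 * s + 1) / 2 = s + 1 / 2 := by ring
    have r3 : -(2 * s) / 2 = -s := by ring
    have r4 : (-(2 * s) + 1) / 2 = -(s + 1 / 2) + 1 := by ring
    have r5 : 2 * -(2 * s) = -(2 * (2 * s)) := by ring
    rw [r1, r2] at e4
    rw [r3, r4, r5, e6] at e5
    unfold etas
    linear_combination e4 + e5
  have hχ2 : χ 2 = χ pO * χ pbO := by
    rw [← hχ.mul]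
    congr 1
  -- the difference is divisible by `π`
  have key : ∀ c : ℕ, ∃ y : Om, VP P y ∧
      etas χ ((c : ℚ) / 2 ^ (M + 1)) - etas χ ((c : ℚ) / 2 ^ (M + 1) + 1 / 2) =
        χ pO * haX χ ((c : ℚ) / 2 ^ M) + wO * y := by
    intro c
    have r0 : (c : ℚ) / 2 ^ M = 2 * ((c : ℚ) / 2 ^ (M + 1)) := by
      rw [pow_succ]
      field_simp
    set s : ℚ := (c : ℚ) / 2 ^ (M + 1) with hs
    have v1 : VP P (etas χ (s + 1 / 2)) := by
      refine hS _ (c + 2 ^ M) (M + 1) ?_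
      rw [hs, pow_succ]
      push_cast
      field_simp
    have v2 : VP P (etas χ (2 * s)) := by
      refine hS _ c M ?_
      rw [← r0]
      push_cast
      rfl
    have v3 : VP P (etas χ (2 * (2 * s))) := by
      refine hS _ (2 * c) M ?_
      rw [← r0]
      push_cast
      ring
    refine ⟨-(χ pO * etas χ (2 * s)) + χ pbO * etas χ (2 * s) - wbO * (χ 2 * etas χ (2 * (2 * s))) -
      wbO * etas χ (s + 1 / 2), ?_, ?_⟩
    · exact ((((hχV pO).mul v2).neg.add ((hχV pbO).mul v2)).sub (hwb.mul ((hχV 2).mul v3))).sub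
        (hwb.mul v1)
    · have h3 := hfe s
      have h4 : wbO = 1 - wO := rfl
      unfold haX
      rw [r0]
      rw [hχ2] at h3 ⊢
      linear_combination h3 + (etas χ (s + 1 / 2) + χ pO * χ pbO * etas χ (2 * (2 * s))) * Fou2_wb
        + χ pO * etas χ (2 * s) * h4
  choose y hyV hy using key
  -- the sum
  have hsum : SSN f (M + 1) χ a = f * ∑ c ∈ Finset.range (2 ^ M), ζ ^ (-((c : ℤ) * a)) *
      (etas χ ((c : ℚ) / 2 ^ (M + 1)) - etas χ ((c : ℚ) / 2 ^ (M + 1) + 1 / 2)) := by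
    rw [← hFou1 f χ hf h7 hχ (M + 1) a hN ha, ← hζ]
    congr 1
    have h3 : 2 ^ (M + 1) = 2 ^ M + 2 ^ M := by ring
    have h4 : Finset.range (2 ^ (M + 1)) = Finset.range (2 ^ M + 2 ^ M) := by rw [h3]
    rw [h4, Finset.sum_range_add, ← Finset.sum_add_distrib]
    refine Finset.sum_congr rfl fun c _ => ?_
    have h5 : ζ ^ (-(((2 ^ M + c : ℕ) : ℤ) * a)) = -ζ ^ (-((c : ℤ) * a)) := by
      have h6 : -(((2 ^ M + c : ℕ) : ℤ) * a) = ((2 ^ M : ℕ) : ℤ) * (-a) + (-((c : ℤ) * a)) := by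
        push_cast
        ring
      rw [h6, zpow_add₀ hζ0, zpow_mul, zpow_natCast, hζq, Odd.neg_one_zpow ha.neg, neg_one_mul]
    have h7 : (((2 ^ M + c : ℕ) : ℚ)) / 2 ^ (M + 1) = (c : ℚ) / 2 ^ (M + 1) + 1 / 2 := by
      rw [pow_succ]
      push_cast
      field_simp
      ring
    rw [h5, h7]
    ring
  have hdiff : SSN f (M + 1) χ a - f * χ pO *
      ∑ c ∈ Finset.range (2 ^ M), ζ ^ (-((c : ℤ) * a)) * haX χ ((c : ℚ) / 2 ^ M) =
      wO * (f * ∑ c ∈ Finset.range (2 ^ M), ζ ^ (-((c : ℤ) * a)) * y c) := by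
    rw [hsum]
    simp only [Finset.mul_sum]
    rw [← Finset.sum_sub_distrib]
    refine Finset.sum_congr rfl fun c _ => ?_
    rw [hy c]
    ring
  refine ⟨?_, ⟨_, ?_, hdiff⟩⟩
  · rw [hsum]
    refine (VP.nat f).mul (VP.sum _ _ fun c _ => (Fou2_zpow hP.1 hζu _).mul ?_)
    refine (hS _ c (M + 1) ?_).sub (hS _ (c + 2 ^ M) (M + 1) ?_)
    · push_cast
      rfl
    · rw [pow_succ]
      push_cast
      field_simp
  · exact (VP.nat f).mul (VP.sum _ _ fun c _ => (Fou2_zpow hP.1 hζu _).mul (hyV c))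

end Pool.Agent.DI.G
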