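import Pool.Agent.Lib.DI.G.Defs
import Pool.Agent.Lib.DI.F.VPB
import Pool.Agent.Lib.DI.V.All

/-!
# Theorem DI, part G, module G1: the nonvanishing input (author helper97)

The bridge from part V and part F to part G (`S_G1` of `G/Defs.lean`).
-/

set_option autoImplicit false

open scoped Pointwise Topology nonZeroDivisors

noncomputable section

namespace Pool.Agent.DI

open Pool.Agent.MuZ Pool.Agent.FW NumberField IsDedekindDomain

section chi

variable {f : ℕ} {χ : OO → Om}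

private theorem G1_nm_int (n : ℤ) : Nm (n : OO) = n ^ 2 := by
  have h1 : ((n : OO)).re = n := rfl
  have h2 : ((n : OO)).im = 0 := rfl
  unfold Nm
  rw [h1, h2]
  ring

theorem G1_cop_int (n : ℤ) (N : ℕ) : Cop (n : OO) N ↔ IsCoprime n (N : ℤ) := by
  unfold Cop
  rw [G1_nm_int]
  exact IsCoprime.pow_left_iff (by norm_num)

theorem IsChi.ne_zero (h : IsChi f χ) {v : OO} (hv : Cop v f) : χ v ≠ 0 := by
  obtain ⟨m, hm, h1⟩ := h.odd
  intro h0
  have h2 := h1 v hv
  rw [h0, zero_pow (Nat.ne_of_odd_add (by simpa using hm))] at h2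
  exact zero_ne_one h2

theorem IsChi.one (h : IsChi f χ) : χ 1 = 1 := by
  have h1 : Cop (1 : OO) f := by
    have h2 := (G1_cop_int 1 f).2 isCoprime_one_left
    rwa [Int.cast_one] at h2
  have h2 := h.mul 1 1
  rw [mul_one] at h2
  exact (mul_right_cancel₀ (h.ne_zero h1) (by rw [one_mul, ← h2])).symm

theorem IsChi.vp (h : IsChi f χ) {P : Ideal ZZ} (hP : P.IsPrime) (v : OO) : VP P (χ v) := by
  by_cases hv : Cop v f
  · obtain ⟨m, hm, h1⟩ := h.odd
    have hm0 : m ≠ 0 := Nat.ne_of_odd_add (by simpa using hm)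
    refine F.vp_integral hP (IsIntegral.of_pow (Nat.pos_of_ne_zero hm0) ?_)
    rw [h1 v hv]
    exact isIntegral_one
  · rw [h.zero v hv]
    exact F.vp_zero hP

theorem IsChi.up (h : IsChi f χ) {P : Ideal ZZ} (hP : P.IsPrime) {v : OO} (hv : Cop v f) :
    UP P (χ v) := by
  obtain ⟨m, hm, h1⟩ := h.odd
  have hm0 : m ≠ 0 := Nat.ne_of_odd_add (by simpa using hm)
  refine ⟨h.vp hP v, fun h2 => ?_⟩
  have h3 := (F.mp_pow_iff hP (h.vp hP v) hm0).2 h2
  rw [h1 v hv] at h3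
  exact F.not_mp_one hP h3

theorem IsChi.per' (h : IsChi f χ) {v u : OO} (hvu : (f : OO) ∣ v - u) : χ v = χ u := by
  obtain ⟨w, hw⟩ := hvu
  have h1 : v = u + f * w := by
    rw [← hw]
    ring
  rw [h1, h.per]

theorem IsChi.int_congr (h : IsChi f χ) {M : ℕ} (hM : f ∣ M) {a b : ℤ} (hab : (M : ℤ) ∣ a - b) :
    χ (a : OO) = χ (b : OO) := by
  refine h.per' ?_
  obtain ⟨k, rfl⟩ := hM
  obtain ⟨c, hc⟩ := hab
  refine ⟨((k : ℤ) * c : ℤ), ?_⟩
  rw [← Int.cast_sub, hc]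
  push_cast
  ring

end chi

/-- The character modulo `P` on `ZMod M`. -/
private def G1_char {f : ℕ} {χ : OO → Om} (h : IsChi f χ) (hf : Odd f) (h7 : 7 ∣ f) {P : Ideal ZZ}
    (hP : P.IsPrime) (h0 : P ≠ ⊥) [NeZero (7 * f ^ 2)] : MulChar (ZMod (7 * f ^ 2)) (F.RF hP h0) where
  toFun x := F.red hP h0 (χ ((x.val : ℤ) : OO))
  map_one' := by
    have h1 : χ (((1 : ZMod (7 * f ^ 2)).val : ℤ) : OO) = χ ((1 : ℤ) : OO) := by
      refine h.int_congr (M := 7 * f ^ 2) (Dvd.intro_left (7 * f) (by ring)) ?_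
      rw [← ZMod.intCast_zmod_eq_zero_iff_dvd]
      push_cast
      rw [ZMod.natCast_zmod_val, sub_self]
    rw [h1, Int.cast_one, h.one, F.red_one]
  map_mul' x y := by
    have h1 : χ (((x * y).val : ℤ) : OO) = χ (((x.val : ℤ) * (y.val : ℤ) : ℤ) : OO) := by
      refine h.int_congr (M := 7 * f ^ 2) (Dvd.intro_left (7 * f) (by ring)) ?_
      rw [← ZMod.intCast_zmod_eq_zero_iff_dvd]
      push_cast
      rw [ZMod.natCast_zmod_val, ZMod.natCast_zmod_val, ZMod.natCast_zmod_val, sub_self]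
    rw [h1, Int.cast_mul, h.mul, F.red_mul hP h0 (h.vp hP _) (h.vp hP _)]
  map_nonunit' x hx := by
    have h1 : ¬ Cop ((x.val : ℤ) : OO) f := by
      intro hc
      rw [G1_cop_int] at hc
      apply hx
      have h2 : IsCoprime ((x.val : ℤ)) ((7 * f ^ 2 : ℕ) : ℤ) := by
        push_cast
        refine IsCoprime.mul_right ?_ hc.pow_right
        obtain ⟨k, rfl⟩ := h7
        push_cast at hc
        exact hc.of_mul_right_left
      have h3 : (x.val).Coprime (7 * f ^ 2) := Nat.isCoprime_iff_coprime.1 h2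
      have h4 := (ZMod.isUnit_iff_coprime x.val (7 * f ^ 2)).2 h3
      rwa [ZMod.natCast_zmod_val] at h4
    rw [h.zero _ h1, F.red_zero]

private theorem G1_char_int {f : ℕ} {χ : OO → Om} (h : IsChi f χ) (hf : Odd f) (h7 : 7 ∣ f)
    {P : Ideal ZZ} (hP : P.IsPrime) (h0 : P ≠ ⊥) [NeZero (7 * f ^ 2)] (d : ℤ) :
    G1_char h hf h7 hP h0 (d : ZMod (7 * f ^ 2)) = F.red hP h0 (χ (d : OO)) := by
  change F.red hP h0 (χ ((((d : ZMod (7 * f ^ 2))).val : ℤ) : OO)) = _
  have h1 : χ ((((d : ZMod (7 * f ^ 2))).val : ℤ) : OO) = χ (d : OO) := by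
    refine h.int_congr (M := 7 * f ^ 2) (Dvd.intro_left (7 * f) (by ring)) ?_
    rw [← ZMod.intCast_zmod_eq_zero_iff_dvd]
    push_cast
    rw [ZMod.natCast_zmod_val, sub_self]
  rw [h1]

private theorem G1_den {f : ℕ} {r : ℚ} (h : DI.V.QM (7 * f ^ 2) r) : r.den.Coprime f := by
  obtain ⟨p, q, hq, rfl⟩ := h
  have h1 : (((p : ℚ) / q).den : ℤ) ∣ q := by
    have h2 := Rat.den_dvd p q
    rwa [Rat.divInt_eq_div] at h2
  have h3 : IsCoprime q (f : ℤ) := by
    push_cast at hq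
    exact (IsCoprime.pow_right_iff (by norm_num)).1 hq.of_mul_right_right
  exact Nat.isCoprime_iff_coprime.1 (h3.of_isCoprime_of_dvd_left h1)

theorem G.tG1 (hE12 : S_E12) (hE13 : S_E13) (hF : S_F) : G.S_G1 := by
  classical
  intro f χ P hf h7 hχ hAb hne
  obtain ⟨hP, h0, hw⟩ := hAb
  by_contra hcon
  push Not at hcon
  have hf0 : f ≠ 0 := by
    rintro rfl
    exact absurd hf (by decide)
  have hfpos : 0 < f := Nat.pos_of_ne_zero hf0
  have hNZ : NeZero (7 * f ^ 2) := ⟨by positivity⟩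
  have hM3 : 3 ≤ 7 * f ^ 2 := by
    have : 1 ≤ f ^ 2 := Nat.one_le_pow _ _ hfpos
    omega
  have hM2 : 2 ≤ 7 * f ^ 2 := by omega
  have hMo : Odd (7 * f ^ 2) := (by decide : Odd 7).mul hf.pow
  have h2P : MP P 2 := by
    have h1 : (2 : Om) = wO * (1 - wO) := by
      have h2 := wO_sq
      linear_combination h2
    have h3 : VP P (1 - wO) := F.vp_sub hP (F.vp_one hP) (F.mp_vp hw)
    rw [h1]
    exact F.mp_mul_vp hP hw h3
  obtain ⟨hT, hPer, -⟩ := hE12 f χ hf h7 hχ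
  have hInt := hE13 f χ hf h7 hχ hne
  have hvp : ∀ r : ℚ, DI.V.QM (7 * f ^ 2) r → VP P (etaX χ r) := fun r hr =>
    (hInt r (G1_den hr)).1 P ⟨hP, h0⟩ h2P
  have hvpS : ∀ r : ℚ, DI.V.QM (7 * f ^ 2) r → VP P (G.etas χ r) := fun r hr =>
    F.vp_add hP (hvp r hr) (hvp (-r) hr.neg)
  have hcopb : Cop pbO f := by
    have h1 : Nm pbO = 2 := by
      unfold Nm pbO
      norm_num
    unfold Cop
    rw [h1]
    exact_mod_cast Nat.isCoprime_iff_coprime.2 (Nat.coprime_two_left.2 hf)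
  let hh : ℚ → F.RF hP h0 := fun r => if DI.V.QM (7 * f ^ 2) r then F.red hP h0 (G.etas χ r) else 0
  have hhq : ∀ r : ℚ, DI.V.QM (7 * f ^ 2) r → hh r = F.red hP h0 (G.etas χ r) := fun r hr => if_pos hr
  let X : DI.V.Sy (7 * f ^ 2) (F.RF hP h0) :=
    { h := hh
      χ := G1_char hχ hf h7 hP h0
      kb := F.red hP h0 (χ pbO)
      odd := hMo
      three := hM3
      kb0 := fun h1 => (hχ.up hP hcopb).2 ((F.red_eq_zero_iff hP h0 (hχ.vp hP _)).1 h1)
      v1 := by
        intro a b c d hdet hc r hr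
        have hq1 := DI.V.QM.mobZ hM2 hdet hc hr
        have hq2 := DI.V.QM.mobZ hM2 hdet hc (DI.V.QM.zero (M := 7 * f ^ 2))
        rw [mul_zero, zero_add, mul_zero, zero_add] at hq2
        have hG : G0 (7 * f ^ 2) a b c d := ⟨hdet, by push_cast at hc; exact hc⟩
        have hG' : G0 (7 * f ^ 2) a (-b) (-c) d :=
          ⟨by linear_combination hdet, by push_cast at hc; exact hc.neg_right⟩
        have e1 := hT a b c d hG r hq1.2.1
        have e2 := hT a (-b) (-c) d hG' (-r) (by push_cast; rw [neg_mul_neg]; exact hq1.2.1)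
        have e3 : ((a : ℚ) * -r + ((-b : ℤ) : ℚ)) / (((-c : ℤ) : ℚ) * -r + d) =
            -((a * r + b) / (c * r + d)) := by
          push_cast
          rw [neg_mul_neg, ← neg_div]
          ring
        have e4 : ((-b : ℤ) : ℚ) / d = -(b / d) := by
          push_cast
          rw [neg_div]
        rw [e3, e4] at e2
        have e5 : G.etas χ ((a * r + b) / (c * r + d)) - χ d * G.etas χ r =
            G.etas χ (b / d) - χ d * G.etas χ 0 := by
          unfold G.etas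
          rw [e1, e2, neg_zero]
          ring
        rw [hhq _ hq1.2.2, hhq _ hr, hhq _ hq2.2.2, hhq _ DI.V.QM.zero, G1_char_int,
          ← F.red_mul hP h0 (hχ.vp hP _) (hvpS _ hr),
          ← F.red_mul hP h0 (hχ.vp hP _) (hvpS _ DI.V.QM.zero),
          ← F.red_sub hP h0 (hvpS _ hq1.2.2) (F.vp_mul hP (hχ.vp hP _) (hvpS _ hr)),
          ← F.red_sub hP h0 (hvpS _ hq2.2.2) (F.vp_mul hP (hχ.vp hP _) (hvpS _ DI.V.QM.zero)), e5]
      v3 := by
        intro r hr
        have hr1 : DI.V.QM (7 * f ^ 2) (r + 1) := hr.add hM2 DI.V.QM.one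
        rw [hhq _ hr, hhq _ hr1]
        have e1 : G.etas χ (r + 1) = G.etas χ r := by
          unfold G.etas
          have e2 := hPer (-(r + 1))
          have e3 : -(r + 1) + 1 = -r := by ring
          rw [e3] at e2
          rw [hPer, e2]
        rw [e1]
      van := by
        intro y hy
        have hy1 : DI.V.QM (7 * f ^ 2) y := DI.V.QM.of_A2 hMo hy
        have hy2 : DI.V.QM (7 * f ^ 2) (2 * y) := DI.V.QM.of_A2 hMo hy.two_mul
        obtain ⟨c, m, rfl⟩ := hy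
        have h1 := hcon c m
        rw [hhq _ hy1, hhq _ hy2, ← F.red_mul hP h0 (hχ.vp hP _) (hvpS _ hy2),
          ← F.red_add hP h0 (hvpS _ hy1) (F.vp_mul hP (hχ.vp hP _) (hvpS _ hy2))]
        exact (F.red_eq_zero_iff hP h0 (F.mp_vp h1)).2 h1 }
  obtain ⟨a, b, c, d, hG, hd, hno⟩ := hF f χ P hf h7 hχ ⟨hP, h0, hw⟩
  have hc' : ((7 * f ^ 2 : ℕ) : ℤ) ∣ c := by
    push_cast
    exact hG.2
  have hd' : ((7 * f ^ 2 : ℕ) : ℤ) ∣ d - 1 := by
    push_cast
    exact hd
  have hmain := DI.V.main (7 * f ^ 2) (F.RF hP h0) X a b c d hG.1 hc' hd'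
  have hq2 := DI.V.QM.mobZ hM2 hG.1 hc' (DI.V.QM.zero (M := 7 * f ^ 2))
  rw [mul_zero, zero_add, mul_zero, zero_add] at hq2
  have h3 : hh (b / d) = hh 0 := hmain
  rw [hhq _ hq2.2.2, hhq _ DI.V.QM.zero,
    F.red_eq_iff hP h0 (hvpS _ hq2.2.2) (hvpS _ DI.V.QM.zero)] at h3
  apply hno
  have h4 : etaX χ (b / d) + etaX χ (-(b / d)) - 2 * etaX χ 0 = G.etas χ (b / d) - G.etas χ 0 := by
    unfold G.etas
    rw [neg_zero]
    ring
  rw [h4]
  exact h3

end Pool.Agent.DI
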