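import Pool.Agent.Lib.DI.G.Spec

/-!
# Theorem DI, part G, module G3A: the assembly of `S_G3` (helper11)
-/

set_option autoImplicit false

open scoped Pointwise

noncomputable section

namespace Pool.Agent.DI.G

open Pool.Agent.MuZ Pool.Agent.DI

theorem tG3A : S_G3A := by
  intro hA hB hC f μ S N T hf h7 hμ hS hN hT v hv
  obtain ⟨a1, a2, a3, a4, a5⟩ := hA f μ S N T hf h7 hμ hS (by omega) hT v hv
  obtain ⟨b1, b2⟩ := hB f μ S N T hf h7 hμ hS (by omega) hT v hv
  exact ⟨b1, a1, a2, a3, a4, b2, a5, hC f μ S N T hf h7 hμ hS hN hT v hv⟩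

end Pool.Agent.DI.G
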