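import Pool.Agent.Lib.DI.G.Spec

/-!
# Theorem DI, part G: assembly of G7
-/

set_option autoImplicit false

open scoped Pointwise

noncomputable section

namespace Pool.Agent.DI.G

open Pool.Agent.MuZ Pool.Agent.DI

private theorem G7A_two : wO * (1 - wO) = (2 : Om) := by
  have h := wO_sq
  linear_combination -h

private theorem G7A_tp2 {P : Ideal ZZ} (hP : P.IsPrime) (hw : MP P wO) {x : Om} (hx : VP P x) :
    TP P wO (2 * x) :=
  ⟨(1 - wO) * x, (VP.one.sub hw.vp).mul hx, by rw [← G7A_two]; ring⟩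

private theorem G7A_add {P : Ideal ZZ} [P.IsPrime] {t x y : Om} (hx : TP P t x) (hy : TP P t y) :
    TP P t (x + y) := by
  obtain ⟨a, ha, rfl⟩ := hx
  obtain ⟨b, hb, rfl⟩ := hy
  exact ⟨a + b, ha.add hb, by ring⟩

private theorem G7A_mul {P : Ideal ZZ} [P.IsPrime] {t x y : Om} (hx : VP P x) (hy : TP P t y) :
    TP P t (x * y) := by
  obtain ⟨b, hb, rfl⟩ := hy
  exact ⟨x * b, hx.mul hb, by ring⟩

private theorem G7A_sum {P : Ideal ZZ} [P.IsPrime] {t : Om} {ι : Type} (s : Finset ι) (F : ι → Om)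
    (h : ∀ i ∈ s, TP P t (F i)) : TP P t (∑ i ∈ s, F i) := by
  classical
  induction s using Finset.induction_on with
  | empty => exact ⟨0, VP.zero, by simp⟩
  | insert i s hi ih =>
      rw [Finset.sum_insert hi]
      exact G7A_add (h i (Finset.mem_insert_self i s))
        (ih fun j hj => h j (Finset.mem_insert_of_mem hj))

theorem tG7A : S_G7A := by
  intro hNm hCop hEps hEx hHN hChi hSN hV0 hBN hBD hDU f χ P hf h7 hχ hP hex
  obtain ⟨v1, hv1, hχ1⟩ := hex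
  obtain ⟨cop1, cop2, cop3, cop4, cop5, cop6, cop7, cop8⟩ := hCop
  have hPp : P.IsPrime := hP.1
  -- the element mu
  set μ : OO := v1 + f * (1 - v1) with hμ
  have hμf : Cop μ f := (cop3 v1 (1 - v1) f).2 hv1
  have hμ2 : Cop μ 2 := by
    rw [cop5]
    obtain ⟨k, hk⟩ := hf
    refine ⟨(1 - v1) * k, ?_⟩
    rw [hμ, hk]
    push_cast
    ring
  have hμ2f : Cop μ (2 * f) := (cop4 μ 2 f).2 ⟨hμ2, hμf⟩
  have hχμ : χ μ ≠ 1 := by
    rw [hμ, hχ.per]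
    exact hχ1
  have hμ0 : μ ≠ 0 := by
    intro h0
    rw [h0] at hμ2
    exact ((cop6 0).1 hμ2).1 (dvd_zero _)
  obtain ⟨N, a0, hN, ha0, hB⟩ := hBN f χ P μ hf h7 hχ hP hμ2f hχμ
  obtain ⟨S, hS⟩ := hEx.2.1 μ hμ0
  have hf0 : 0 < f := by
    obtain ⟨k, hk⟩ := hf
    omega
  obtain ⟨T, hT⟩ := hEx.2.2.1 f N hf0
  obtain ⟨v0, hv0f, hv0N, hv0c⟩ := hV0 f N a0 hf ha0 (by omega)
  obtain ⟨s, a, hsa⟩ := hSN f N hf h7 (by omega)
  have hDUv := hDU f μ S N T P hf h7 hμ2f hS (by omega) hT hP s a hsa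
  refine ⟨μ, S, N, T, v0, s, a, hμ2f, hS, hN, hT, hv0c, hsa, fun v hv => (hDUv v hv).1, ?_⟩
  intro D hD1 hD2 hD3 hcon
  apply hB
  rw [hBD f N χ μ T D v0 a0 hf h7 hχ (by omega) hT ha0 hv0f hv0N hD1 hD2 hD3]
  have hchi := hChi f χ hf h7 hχ
  have hNpr : Npr P := ⟨hP.1, hP.2.1⟩
  have hcop : ∀ v ∈ D, Cop (v * v0) (2 * f) := fun v hv => (cop2 v v0 (2 * f)).2 ⟨(hD1 v hv).1, hv0c⟩
  have hχv : ∀ v ∈ D, VP P (χ v) := fun v hv =>
    (hchi.2.2.2.2.2.1 P v hNpr ((cop4 v 2 f).1 (hD1 v hv).1).2).1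
  have key : ∀ v ∈ D, TP P wO (∑ h ∈ T, (eps (h * (v * v0)) : Om) * χ v *
      gg μ (toC (h * (v * v0)) / (f * 2 ^ N : ℕ)) - χ v * Dw s (uN f N μ S T (v * v0))) := by
    intro v hv
    obtain ⟨h1, h2, h3⟩ := hDUv (v * v0) (hcop v hv)
    have e1 : ∑ h ∈ T, (eps (h * (v * v0)) : Om) * χ v *
        gg μ (toC (h * (v * v0)) / (f * 2 ^ N : ℕ)) - χ v * Dw s (uN f N μ S T (v * v0)) =
        ∑ h ∈ T, ((eps (h * (v * v0)) : Om) - 1) * χ v *
          gg μ (toC (h * (v * v0)) / (f * 2 ^ N : ℕ)) +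
        -χ v * (Dw s (uN f N μ S T (v * v0)) -
          ∑ h ∈ T, gg μ (toC (h * (v * v0)) / (f * 2 ^ N : ℕ))) := by
      have e2 : ∑ h ∈ T, ((eps (h * (v * v0)) : Om) - 1) * χ v *
          gg μ (toC (h * (v * v0)) / (f * 2 ^ N : ℕ)) =
          ∑ h ∈ T, (eps (h * (v * v0)) : Om) * χ v *
            gg μ (toC (h * (v * v0)) / (f * 2 ^ N : ℕ)) -
          χ v * ∑ h ∈ T, gg μ (toC (h * (v * v0)) / (f * 2 ^ N : ℕ)) := by
        rw [Finset.mul_sum, ← Finset.sum_sub_distrib]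
        exact Finset.sum_congr rfl fun h _ => by ring
      rw [e2]
      ring
    rw [e1]
    refine G7A_add (G7A_sum T _ fun h hh => ?_) (G7A_mul (hχv v hv).neg h3)
    have hc7 : Cop (h * (v * v0)) 7 := by
      obtain ⟨k, hk⟩ := h7
      have hHf := (hHN f N hf ⟨k, hk⟩).2.2.2.2.2.1 h (hT.mem h hh).1
      have hf' : Cop (h * (v * v0)) f := (cop2 _ _ _).2 ⟨hHf, ((cop4 _ 2 f).1 (hcop v hv)).2⟩
      rw [hk] at hf'
      exact ((cop4 _ 7 k).1 hf').1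
    rcases hEps.2.2.2.2.2.2.2.2.2.2 _ hc7 with h4 | h4
    · rw [h4]
      exact ⟨0, VP.zero, by push_cast; ring⟩
    · rw [h4]
      have h5 : (((-1 : ℤ) : Om) - 1) * χ v * gg μ (toC (h * (v * v0)) / (f * 2 ^ N : ℕ)) =
          2 * (-(χ v * gg μ (toC (h * (v * v0)) / (f * 2 ^ N : ℕ)))) := by
        push_cast
        ring
      rw [h5]
      exact G7A_tp2 hPp hP.2.2 ((hχv v hv).mul (h2 h hh)).neg
  have e3 : ∑ v ∈ D, ∑ h ∈ T, (eps (h * (v * v0)) : Om) * χ v *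
      gg μ (toC (h * (v * v0)) / (f * 2 ^ N : ℕ)) =
      ∑ v ∈ D, (∑ h ∈ T, (eps (h * (v * v0)) : Om) * χ v *
        gg μ (toC (h * (v * v0)) / (f * 2 ^ N : ℕ)) - χ v * Dw s (uN f N μ S T (v * v0))) +
      ∑ v ∈ D, χ v * Dw s (uN f N μ S T (v * v0)) := by
    rw [Finset.sum_sub_distrib]
    ring
  rw [e3]
  exact G7A_add (G7A_sum D _ key) hcon

end Pool.Agent.DI.G
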