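import Pool.Agent.Lib.DI.G.Spec

set_option autoImplicit false

/-!
# Theorem DI, part G, module GSm: `gg` as a sum of slopes
-/

open scoped Pointwise

noncomputable section

namespace Pool.Agent.DI.G

open Pool.Agent.MuZ Pool.Agent.DI

private theorem lat_two {μ : OO} (hc : IsCoprime μ 2) (hU : S_UEx) {u : ℂ}
    (h1 : Lat (toC μ * u)) (h2 : Lat (u + u)) : Lat u := by
  obtain ⟨a, b, hab⟩ := hc
  have hadd := hU.2.2.2.2.2.2.2.2.1
  have hmul := hU.2.2.2.2.2.2.2.2.2.1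
  have h3 := (hadd _ _ (hmul a _ h1) (hmul b _ h2)).1
  have h4 : toC a * (toC μ * u) + toC b * (u + u) = u := by
    have h5 := congrArg toC hab
    rw [map_add, map_mul, map_mul, map_one, map_ofNat] at h5
    linear_combination u * h5
  rwa [h4] at h3

private theorem pair (h2 : S_B2) (h4 : S_B4) {z u : ℂ} (hz : ¬ Lat z) (hu : ¬ Lat u)
    (hu' : ¬ Lat (-u)) (hx : XC z ≠ XC u) :
    EC (z + u) + EC (z + -u) - 2 * EC z = (2 * YC z + XC z) / (XC z - XC u) := by
  obtain ⟨e1, e2, e3⟩ := h2.2 u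
  have hx' : XC z ≠ XC (-u) := by rwa [e1]
  have f1 := (h4 z u hz hu hx _ rfl).2.2
  have f2 := (h4 z (-u) hz hu' hx' _ rfl).2.2
  rw [f1, f2, e1, e2, e3]
  have h5 : XC z - XC u ≠ 0 := sub_ne_zero.2 hx
  field_simp
  ring

open Classical in
/-- The system. -/
private def RR (S : Finset ℂ) : Finset ℂ := insert 0 (S ∪ S.image fun u => -u)

private theorem lat_neg (hU : S_UEx) {u : ℂ} : Lat (-u) ↔ Lat u := by
  have hadd := hU.2.2.2.2.2.2.2.2.1
  constructor
  · intro h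
    have := (hadd _ _ h h).2.2
    rwa [neg_neg] at this
  · intro h
    exact (hadd _ _ h h).2.2

private theorem mem_RR {S : Finset ℂ} {u : ℂ} : u ∈ RR S ↔ u = 0 ∨ u ∈ S ∨ ∃ v ∈ S, -v = u := by
  classical
  rw [RR, Finset.mem_insert, Finset.mem_union, Finset.mem_image]

private theorem not_pm (hU : S_UEx) {μ : OO} {S : Finset ℂ} (hc : IsCoprime μ 2) (hS : IsHalf μ S)
    {u u' : ℂ} (hu : u ∈ S) (hu' : u' ∈ S) : ¬ Lat (u + u') := by
  intro h
  have h1 := hS.uni u hu u' hu' (Or.inr h)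
  rw [← h1] at h
  exact (hS.mem u hu).2 (lat_two hc hU (hS.mem u hu).1 h)

private theorem sys_RR (hU : S_UEx) {μ : OO} {S : Finset ℂ} (hc : IsCoprime μ 2)
    (hS : IsHalf μ S) : IsSys μ (RR S) := by
  have h0 := hU.2.2.2.2.2.2.2.2.2.2.1
  refine ⟨?_, ?_, ?_⟩
  · intro u hu
    rcases mem_RR.1 hu with rfl | h | ⟨v, hv, rfl⟩
    · rw [mul_zero]
      exact h0
    · exact (hS.mem u h).1
    · rw [mul_neg, lat_neg hU]
      exact (hS.mem v hv).1
  · intro z hz
    by_cases h : Lat z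
    · exact ⟨0, mem_RR.2 (Or.inl rfl), by rwa [sub_zero]⟩
    · obtain ⟨u, hu, h1 | h1⟩ := hS.ex z hz h
      · exact ⟨u, mem_RR.2 (Or.inr (Or.inl hu)), h1⟩
      · exact ⟨-u, mem_RR.2 (Or.inr (Or.inr ⟨u, hu, rfl⟩)), by rwa [sub_neg_eq_add]⟩
  · intro u hu u' hu' h
    rcases mem_RR.1 hu with rfl | h1 | ⟨v, hv, rfl⟩ <;>
      rcases mem_RR.1 hu' with rfl | h1' | ⟨v', hv', rfl⟩
    · rfl
    · rw [zero_sub, lat_neg hU] at h
      exact absurd h (hS.mem u' h1').2
    · rw [zero_sub, neg_neg] at h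
      exact absurd h (hS.mem v' hv').2
    · rw [sub_zero] at h
      exact absurd h (hS.mem u h1).2
    · exact hS.uni u h1 u' h1' (Or.inl h)
    · rw [sub_neg_eq_add] at h
      exact absurd h (not_pm hU hc hS h1 hv')
    · rw [sub_zero, lat_neg hU] at h
      exact absurd h (hS.mem v hv).2
    · have e : -v - u' = -(v + u') := by ring
      rw [e, lat_neg hU] at h
      exact absurd h (not_pm hU hc hS hv h1')
    · have e : -v - -v' = -(v - v') := by ring
      rw [e, lat_neg hU] at h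
      rw [hS.uni v hv v' hv' (Or.inl h)]

private theorem zero_notMem (hU : S_UEx) {μ : OO} {S : Finset ℂ} (hS : IsHalf μ S) :
    (0 : ℂ) ∉ S := fun h => (hS.mem 0 h).2 hU.2.2.2.2.2.2.2.2.2.2.1

private theorem sum_RR {A : Type} [AddCommMonoid A] (hU : S_UEx) {μ : OO} {S : Finset ℂ}
    (hc : IsCoprime μ 2) (hS : IsHalf μ S) (F : ℂ → A) :
    ∑ u ∈ RR S, F u = F 0 + (∑ u ∈ S, F u + ∑ u ∈ S, F (-u)) := by
  classical
  have hd : Disjoint S (S.image fun u => -u) := by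
    rw [Finset.disjoint_left]
    intro u hu hu'
    obtain ⟨v, hv, rfl⟩ := Finset.mem_image.1 hu'
    have h := not_pm hU hc hS hu hv
    rw [neg_add_cancel] at h
    exact h hU.2.2.2.2.2.2.2.2.2.2.1
  have h0 : (0 : ℂ) ∉ S ∪ S.image fun u => -u := by
    rw [Finset.mem_union, not_or]
    refine ⟨zero_notMem hU hS, fun h => ?_⟩
    obtain ⟨v, hv, hv0⟩ := Finset.mem_image.1 h
    have h1 : v = 0 := neg_eq_zero.1 hv0
    rw [h1] at hv
    exact zero_notMem hU hS hv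
  rw [RR, Finset.sum_insert h0, Finset.sum_union hd,
    Finset.sum_image (fun a _ b _ hab => neg_injective hab)]

theorem tGSm : S_GSm := by
  intro hA0 hB2 hB4 hB10 _ hU μ S hc hS z hz hzL hμz hne
  have hμ : μ ≠ 0 := by
    rintro rfl
    rw [map_zero, zero_mul] at hμz
    exact hμz hU.2.2.2.2.2.2.2.2.2.2.1
  have hTu : ∀ u ∈ S, Tor u := fun u hu =>
    hU.2.2.2.2.2.2.2.1 μ u hμ (hS.mem u hu).1
  have hTm : Tor (toC μ * z) := hU.2.2.2.2.2.1 μ z hz
  have hX : ∀ u ∈ S, XC z ≠ XC u := by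
    intro u hu h
    refine hne u hu (io_inj ?_)
    rw [(hA0 z hz).1, (hA0 u (hTu u hu)).1, h]
  have hsum := hB10 μ (RR S) hμ (sys_RR hU hc hS) z hμz
  rw [sum_RR hU hc hS (fun u => EC (z + u)), add_zero] at hsum
  have hcard := hU.2.2.2.2.2.2.2.2.2.2.2.2 μ (RR S) hμ (sys_RR hU hc hS)
  have hcard2 : (RR S).card = 1 + (S.card + S.card) := by
    have h := sum_RR hU hc hS (fun _ : ℂ => (1 : ℕ))
    rwa [Finset.sum_const, Finset.sum_const, smul_eq_mul, smul_eq_mul, mul_one, mul_one] at h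
  have hNm : (Nm μ : ℂ) = 1 + 2 * (S.card : ℂ) := by
    rw [← hcard, hcard2]
    push_cast
    ring
  apply io_inj
  have e1 : io (gg μ z) = toC μ * EC (toC μ * z) - (Nm μ : ℂ) * EC z := by
    unfold gg
    rw [map_sub, map_mul, map_mul, io_toO, map_intCast, (hA0 z hz).2.2, (hA0 _ hTm).2.2]
  have e2 : io (∑ u ∈ S, (2 * yO z + xO z) / (xO z - xO u)) =
      ∑ u ∈ S, (2 * YC z + XC z) / (XC z - XC u) := by
    rw [map_sum]
    refine Finset.sum_congr rfl fun u hu => ?_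
    rw [map_div₀, map_add, map_mul, map_sub, map_ofNat, (hA0 z hz).1, (hA0 z hz).2.1,
      (hA0 u (hTu u hu)).1]
  have e3 : ∑ u ∈ S, (2 * YC z + XC z) / (XC z - XC u) =
      ∑ u ∈ S, (EC (z + u) + EC (z + -u) - 2 * EC z) := by
    refine Finset.sum_congr rfl fun u hu => ?_
    exact (pair hB2 hB4 hzL (hS.mem u hu).2 (fun h => (hS.mem u hu).2 ((lat_neg hU).1 h))
      (hX u hu)).symm
  rw [e1, e2, e3, Finset.sum_sub_distrib, Finset.sum_add_distrib, Finset.sum_const, nsmul_eq_mul,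
    ← hsum, hNm]
  ring

end Pool.Agent.DI.G
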