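import Pool.Agent.Lib.DI.G.Spec

/-!
# Theorem DI, part G, module `Rdz`: reduction at `P` of torsion points
-/

set_option autoImplicit false

open scoped Pointwise

noncomputable section

namespace Pool.Agent.DI.G

open Pool.Agent.MuZ Pool.Agent.DI

private theorem rdz_pO : toO pO = wO := by
  change ((0 : ℤ) : Om) + ((1 : ℤ) : Om) * wO = wO
  rw [Int.cast_zero, Int.cast_one, zero_add, one_mul]

private theorem rdz_pbO : toO pbO = 1 - wO := by
  change ((1 : ℤ) : Om) + ((-1 : ℤ) : Om) * wO = 1 - wO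
  rw [Int.cast_one, Int.cast_neg, Int.cast_one]
  ring

private theorem rdz_mul : pO * pbO = 2 := by
  apply QuadraticAlgebra.ext
  · change (pO * pbO).re = 2
    rw [QuadraticAlgebra.re_mul]
    change (0 : ℤ) * 1 + -2 * 1 * -1 = 2
    norm_num
  · change (pO * pbO).im = 0
    rw [QuadraticAlgebra.im_mul]
    change (0 : ℤ) * -1 + 1 * 1 + 1 * 1 * -1 = 0
    norm_num

private theorem rdz_vp {P : Ideal ZZ} [hP : P.IsPrime] (hw : MP P wO) (c : OO) :
    VP P (toO c) := by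
  change VP P ((c.re : Om) + c.im * wO)
  exact (VP.int _).add ((VP.int _).mul hw.vp)

private theorem rdz_two {P : Ideal ZZ} [hP : P.IsPrime] (hw : MP P wO) : MP P 2 := by
  have h : (2 : Om) = wO * (1 - wO) := by
    have := wO_sq
    linear_combination this
  rw [h]
  exact hw.mul_right (VP.one.sub hw.vp)

private theorem rdz_odd {P : Ideal ZZ} [hP : P.IsPrime] (hw : MP P wO) {f : ℕ} (hf : Odd f) :
    ¬ MP P (f : Om) := by
  obtain ⟨k, hk⟩ := hf
  intro h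
  apply MP.one_not (P := P)
  have e : (1 : Om) = (f : Om) - 2 * (k : Om) := by
    rw [hk]
    push_cast
    ring
  rw [e]
  exact h.sub ((rdz_two hw).mul_right (VP.nat k))

private theorem rdz_pb {P : Ideal ZZ} [hP : P.IsPrime] (hw : MP P wO) : ¬ MP P (1 - wO) := by
  intro h
  apply MP.one_not (P := P)
  have e : (1 : Om) = (1 - wO) + wO := by ring
  rw [e]
  exact h.add hw

private theorem rdz_mu {P : Ideal ZZ} [hP : P.IsPrime] (hw : MP P wO) {μ : OO}
    (hμ : (2 : OO) ∣ μ - 1) : ¬ MP P (toO μ) := by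
  obtain ⟨c, hc⟩ := hμ
  intro h
  apply MP.one_not (P := P)
  have e1 : toO μ - 1 = 2 * toO c := by
    have := congrArg toO hc
    rw [map_sub, map_one, map_mul, map_ofNat] at this
    exact this
  have e : (1 : Om) = toO μ - 2 * toO c := by
    rw [← e1]
    ring
  rw [e]
  exact h.sub ((rdz_two hw).mul_right (rdz_vp hw c))

theorem tRdz : S_Rdz := by
  intro hD1 hNm hCop hEx f N μ P hf h7 hN hμ hP v hv z hz
  obtain ⟨hPp, hPb, hw⟩ := hP
  have hNpr : Npr P := ⟨hPp, hPb⟩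
  obtain ⟨nm1, nm2, nm3, nm4, nm5, nm6, nm7, nm8, nm9, nm10, nm11, nm12⟩ := hNm
  obtain ⟨cp1, cp2, cp3, cp4, cp5, cp6, cp7, cp8⟩ := hCop
  obtain ⟨ex1, ex2, ex3, ex4, ex5, ex6, ex7, ex8, ex9, ex10, ex11, ex12, ex13⟩ := hEx
  have hwO : MP P (toO pO) := by
    rw [rdz_pO]
    exact hw
  obtain ⟨d1, d2, d3, d4, d5, d6, -⟩ := hD1 pO pbO (Or.inl ⟨rfl, rfl⟩) P hNpr hwO
  have hfpos : 0 < f := hf.pos
  have hpos : 0 < f * 2 ^ N := Nat.mul_pos hfpos (pow_pos two_pos N)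
  have hTz : Tor z := ⟨v, f * 2 ^ N, hpos, hz⟩
  obtain ⟨hμ2, hμf⟩ := (cp4 μ 2 f).1 hμ
  obtain ⟨hv2, hvf⟩ := (cp4 v 2 f).1 hv
  have hm0 : ((f * 2 ^ N : ℕ) : ℂ) ≠ 0 := Nat.cast_ne_zero.2 hpos.ne'
  -- (2)
  have hδ : ∀ δ : OO, Cop δ f → ¬ Lat (toC δ * z) := by
    intro δ hδ hL
    have e1 : toC δ * z = toC (δ * v) / (f * 2 ^ N : ℕ) := by
      rw [hz, map_mul, mul_div_assoc]
    rw [e1] at hL
    have h1 : ((f * 2 ^ N : ℕ) : OO) ∣ δ * v := (ex12 (δ * v) (f * 2 ^ N) hpos).1 hL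
    have h2 : (f : OO) ∣ δ * v := by
      refine Dvd.dvd.trans ?_ h1
      exact ⟨((2 ^ N : ℕ) : OO), by rw [Nat.cast_mul]⟩
    have h3 : IsCoprime (δ * v) (f : OO) := (cp1 _ _).1 ((cp2 δ v f).2 ⟨hδ, hvf⟩)
    have h4 : IsUnit (f : OO) := h3.symm.isUnit_of_dvd h2
    obtain ⟨k, hk⟩ := h7
    rcases (nm12 _).1 h4 with h5 | h5
    · have h6 : (f : ℤ) = 1 := congrArg QuadraticAlgebra.re h5
      omega
    · have h6 : (f : ℤ) = -1 := congrArg QuadraticAlgebra.re h5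
      omega
  -- units
  have hMf : ¬ MP P (f : Om) := rdz_odd hw hf
  have hMμ : ¬ MP P (toO μ) := rdz_mu hw ((cp5 μ).1 hμ2)
  have hMpb : ¬ MP P (toO (pbO ^ N)) := by
    rw [map_pow, rdz_pbO]
    intro h
    exact rdz_pb hw (MP.of_pow h)
  have hMα : ¬ MP P (toO ((f : OO) * pbO ^ N)) := by
    rw [map_mul, map_natCast]
    intro h
    rcases MP.mul_cases (VP.nat f) (rdz_vp hw _) h with h | h
    · exact hMf h
    · exact hMpb h
  have hMα' : ¬ MP P (toO (μ * ((f : OO) * pbO ^ N))) := by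
    rw [map_mul]
    intro h
    rcases MP.mul_cases (rdz_vp hw _) (rdz_vp hw _) h with h | h
    · exact hMμ h
    · exact hMα h
  have hαβ : ((f : OO) * pbO ^ N) * pO ^ N = ((f * 2 ^ N : ℕ) : OO) := by
    have e1 : pbO ^ N * pO ^ N = (2 : OO) ^ N := by
      rw [← mul_pow, mul_comm pbO pO, rdz_mul]
    rw [mul_assoc, e1]
    push_cast
    ring
  have hpf : Cop (pO ^ N) f := by
    have h1 : Cop pO f := by
      unfold Cop
      have e1 : Nm pO = 2 := by
        change (0 : ℤ) ^ 2 + 0 * 1 + 2 * 1 ^ 2 = 2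
        norm_num
      rw [e1]
      have h2 : Nat.Coprime 2 f := (Nat.coprime_two_left).2 hf
      exact_mod_cast Nat.isCoprime_iff_coprime.2 h2
    rw [cp1] at h1 ⊢
    exact h1.pow_left
  have hzm : toC ((f * 2 ^ N : ℕ) : OO) * z = toC v := by
    rw [map_natCast, hz]
    field_simp
  -- `z` is not in the kernel
  have hIz : ¬ I2 P z := by
    intro h
    have h1 := d3 z h ((f : OO) * pbO ^ N) (pO ^ N) hMα (by
      rw [hαβ, hzm]
      exact ⟨v, rfl⟩)
    exact hδ _ hpf h1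
  have hVz : VP P (xO z) := by
    by_contra h
    exact hIz ⟨hTz, Or.inr h⟩
  refine ⟨hTz, hδ, hVz, d6 z hTz hIz, fun u hu hu' => ?_⟩
  have hμ0 : μ ≠ 0 := by
    rintro rfl
    have h1 : IsCoprime (Nm 0) ((2 : ℕ) : ℤ) := hμ2
    have e1 : Nm (0 : OO) = 0 := by
      change (0 : ℤ) ^ 2 + 0 * 0 + 2 * 0 ^ 2 = 0
      norm_num
    rw [e1, isCoprime_zero_left, Int.isUnit_iff] at h1
    omega
  have hTu : Tor u := ex8 μ u hμ0 hu
  have hIu : ¬ I2 P u := by
    intro h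
    have h1 := d3 u h μ 1 hMμ (by
      rw [mul_one]
      exact hu)
    rw [map_one, one_mul] at h1
    exact hu' h1
  have hVu : VP P (xO u) := by
    by_contra h
    exact hIu ⟨hTu, Or.inr h⟩
  have hμp : Cop (μ * pO ^ N) f := (cp2 μ (pO ^ N) f).2 ⟨hμf, hpf⟩
  have key : ∀ w : ℂ, Lat (toC μ * w) → ¬ I2 P (z + w) := by
    intro w hw' h
    have h1 := d3 (z + w) h (μ * ((f : OO) * pbO ^ N)) (pO ^ N) hMα' (by
      rw [mul_assoc, hαβ, map_mul]
      have e1 : toC μ * toC ((f * 2 ^ N : ℕ) : OO) * (z + w) =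
          toC (μ * v) + toC ((f * 2 ^ N : ℕ) : OO) * (toC μ * w) := by
        rw [map_mul toC μ v, ← hzm]
        ring
      rw [e1]
      exact (ex9 _ _ ⟨_, rfl⟩ (ex10 _ _ hw')).1)
    have h2 : Lat (toC μ * (toC (pO ^ N) * (z + w))) := ex10 μ _ h1
    have h3 : Lat (toC (pO ^ N) * (toC μ * w)) := ex10 _ _ hw'
    have h4 := (ex9 _ _ h2 h3).2.1
    have e2 : toC μ * (toC (pO ^ N) * (z + w)) - toC (pO ^ N) * (toC μ * w) =
        toC (μ * pO ^ N) * z := by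
      rw [map_mul toC μ]
      ring
    rw [e2] at h4
    exact hδ _ hμp h4
  have hneg : Lat (toC μ * (-u)) := by
    have := (ex9 _ _ hu hu).2.2
    rwa [mul_neg]
  refine ⟨hTu, hVu, hVz.sub hVu, fun hM => ?_⟩
  rcases d5 z u hTz hTu hIz hIu hM with h | h
  · exact key u hu h
  · rw [sub_eq_add_neg] at h
    exact key (-u) hneg h

end Pool.Agent.DI.G
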