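import Pool.Agent.Lib.DI.G.Spec

set_option autoImplicit false

/-!
# THEOREM DI, part G: systems of representatives
-/

open scoped Pointwise

noncomputable section

namespace Pool.Agent.DI.G

open Pool.Agent.MuZ Pool.Agent.DI

/-- Equal up to the sign modulo `m`. -/
private def RpR (m x y : OO) : Prop := m ∣ x - y ∨ m ∣ x + y

private theorem RpR.symm {m x y : OO} (h : RpR m x y) : RpR m y x := by
  rcases h with h | h
  · left
    have h1 := (dvd_neg (a := m)).mpr h
    rwa [neg_sub] at h1
  · right
    rwa [add_comm] at h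

private theorem RpR.trans {m x y z : OO} (h : RpR m x y) (h' : RpR m y z) : RpR m x z := by
  rcases h with h | h <;> rcases h' with h' | h'
  · left
    have h1 := dvd_add h h'
    rwa [sub_add_sub_cancel] at h1
  · right
    have h1 := dvd_add h h'
    have h2 : x - y + (y + z) = x + z := by ring
    rwa [h2] at h1
  · right
    have h1 := dvd_sub h h'
    have h2 : x + y - (y - z) = x + z := by ring
    rwa [h2] at h1
  · left
    have h1 := dvd_sub h h'
    have h2 : x + y - (y + z) = x - z := by ring
    rwa [h2] at h1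

private theorem RpR.val {m x y : OO} {A : Type} (G : OO → A) (h : RpR m x y)
    (h1 : ∀ v u : OO, G (v + m * u) = G v) (h2 : ∀ v : OO, G (-v) = G v) : G x = G y := by
  rcases h with ⟨u, hu⟩ | ⟨u, hu⟩
  · have h3 : x = y + m * u := by
      rw [← hu]
      ring
    rw [h3, h1]
  · have h3 : x = -y + m * u := by
      rw [← hu]
      ring
    rw [h3, h1, h2]

private theorem Rp_one (m : ℕ) (H : OO → Prop) (T T' : Finset OO) (A : Type) [CommMonoid A]
    (G : OO → A) (hT : IsRp m H T) (hT' : IsRp m H T') (h1 : ∀ v u : OO, G (v + m * u) = G v)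
    (h2 : ∀ v : OO, G (-v) = G v) : ∏ h ∈ T, G h = ∏ h ∈ T', G h := by
  have hex : ∀ h ∈ T, ∃ h' ∈ T', RpR (m : OO) h h' := fun h hh => hT'.ex h (hT.mem h hh)
  choose e he hr using hex
  refine Finset.prod_bij e he ?_ ?_ ?_
  · intro x hx y hy hxy
    have r1 := hr x hx
    rw [hxy] at r1
    exact hT.uni x hx y hy (r1.trans (hr y hy).symm)
  · intro b hb
    obtain ⟨x, hx, hbx⟩ := hT.ex b (hT'.mem b hb)
    have hbx' : RpR (m : OO) b x := hbx
    refine ⟨x, hx, ?_⟩
    exact (hT'.uni b hb (e x hx) (he x hx) (hbx'.trans (hr x hx))).symm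
  · intro x hx
    exact (hr x hx).val G h1 h2

/-- **Rp.** Products over two systems of representatives; multiplication by an invertible
element. -/
theorem tRp : S_Rp := by
  classical
  refine ⟨Rp_one, ?_⟩
  intro m H T A _ G a b hT hab hHa hHb h1 h2
  have key : ∀ x y : OO, RpR (m : OO) (a * x) (a * y) → RpR (m : OO) x y := by
    intro x y h
    rcases h with h | h
    · left
      have h3 : x - y = b * (a * x - a * y) - (a * b - 1) * (x - y) := by ring
      rw [h3]
      exact dvd_sub (Dvd.dvd.mul_left h _) (Dvd.dvd.mul_right hab _)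
    · right
      have h3 : x + y = b * (a * x + a * y) - (a * b - 1) * (x + y) := by ring
      rw [h3]
      exact dvd_sub (Dvd.dvd.mul_left h _) (Dvd.dvd.mul_right hab _)
  have hinj : Set.InjOn (fun x : OO => a * x) (T : Set OO) := by
    intro x hx y hy hxy
    have hxy' : a * x = a * y := hxy
    refine hT.uni x hx y hy (key x y (Or.inl ?_))
    rw [hxy', sub_self]
    exact dvd_zero _
  have hT2 : IsRp m H (T.image fun x => a * x) := by
    refine ⟨?_, ?_, ?_⟩
    · intro h hh
      obtain ⟨x, hx, rfl⟩ := Finset.mem_image.mp hh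
      exact hHa x (hT.mem x hx)
    · intro v hv
      obtain ⟨x, hx, hr⟩ := hT.ex (b * v) (hHb v hv)
      refine ⟨a * x, Finset.mem_image_of_mem _ hx, ?_⟩
      rcases hr with hr | hr
      · left
        have h3 : v - a * x = a * (b * v - x) - (a * b - 1) * v := by ring
        rw [h3]
        exact dvd_sub (Dvd.dvd.mul_left hr _) (Dvd.dvd.mul_right hab _)
      · right
        have h3 : v + a * x = a * (b * v + x) - (a * b - 1) * v := by ring
        rw [h3]
        exact dvd_sub (Dvd.dvd.mul_left hr _) (Dvd.dvd.mul_right hab _)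
    · intro h hh h' hh' hr
      obtain ⟨x, hx, rfl⟩ := Finset.mem_image.mp hh
      obtain ⟨y, hy, rfl⟩ := Finset.mem_image.mp hh'
      have h3 := hT.uni x hx y hy (key x y hr)
      rw [h3]
  rw [← Rp_one m H _ T A G hT2 hT h1 h2, Finset.prod_image hinj]

end Pool.Agent.DI.G
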