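import Pool.Agent.Lib.DI.G.Spec

/-!
# RpD: representatives `h v v0`
-/

set_option autoImplicit false

open scoped Pointwise

noncomputable section

namespace Pool.Agent.DI.G

open Pool.Agent.MuZ Pool.Agent.DI

private theorem RpD_nm {k : ℕ} {a b : OO} (h : (k : OO) ∣ a - b) : (k : ℤ) ∣ Nm a - Nm b := by
  obtain ⟨c, hc⟩ := h
  have hre : ((k : OO)).re = k := by simp
  have him : ((k : OO)).im = 0 := by simp
  have h1 : a.re - b.re = k * c.re := by
    have := congrArg QuadraticAlgebra.re hc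
    rw [QuadraticAlgebra.re_sub, QuadraticAlgebra.re_mul, hre, him] at this
    linarith
  have h2 : a.im - b.im = k * c.im := by
    have := congrArg QuadraticAlgebra.im hc
    rw [QuadraticAlgebra.im_sub, QuadraticAlgebra.im_mul, hre, him] at this
    linarith
  have e : Nm a - Nm b = (a.re - b.re) * (a.re + b.re + a.im) +
      (a.im - b.im) * (b.re + 2 * (a.im + b.im)) := by
    unfold Nm
    ring
  rw [e, h1, h2]
  exact ⟨c.re * (a.re + b.re + a.im) + c.im * (b.re + 2 * (a.im + b.im)), by ring⟩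

private theorem RpD_odd {n : ℤ} (h : Odd n) : IsCoprime n 2 := by
  obtain ⟨k, rfl⟩ := h
  exact ⟨1, -k, by ring⟩

/-- Representatives `h v v0`. -/
theorem tRpD : S_RpD := by
  intro hUNm hUCop hUHN f N T D v0 a0 hf h7 hN hT ha0 hv0 hnv0 hD hDex hDuni
  have hNmul := hUNm.1
  obtain ⟨hC1, hC2, hC3, hC4, -⟩ := hUCop
  obtain ⟨⟨hm1, -, h11, -⟩, hHmul, -, hHadd, -, hHcop, hHNcop, -, -, hHinv, -⟩ := hUHN f N hf h7
  have hm : ((f * 2 ^ N : ℕ) : OO) = (f : OO) * ((2 ^ N : ℕ) : OO) := by push_cast; ring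
  have hfm : (f : OO) ∣ ((f * 2 ^ N : ℕ) : OO) := by rw [hm]; exact Dvd.intro _ rfl
  have h2m : ((2 ^ N : ℕ) : OO) ∣ ((f * 2 ^ N : ℕ) : OO) := by rw [hm]; exact Dvd.intro_left _ rfl
  have hcast : (((2 ^ N : ℕ) : ℤ)) = (2 : ℤ) ^ N := by push_cast; ring
  -- v0
  have hv0odd : Odd (Nm v0) := by
    obtain ⟨k, hk⟩ := hnv0
    have h1 : Nm v0 = a0 + 2 ^ N * k := by linarith
    rw [h1]
    refine ha0.add_even ?_
    exact Even.mul_right (Even.pow_of_ne_zero (by decide) (by omega)) k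
  have hcop1 : Cop 1 f := hHcop 1 h11
  have hv0f : Cop v0 f := by
    obtain ⟨k, hk⟩ := hv0
    have h1 : v0 = 1 + f * k := by rw [← hk]; ring
    rw [h1]
    exact (hC3 1 k f).2 hcop1
  have hv02 : Cop v0 2 := RpD_odd hv0odd
  have hcm : ∀ v : OO, Cop v (2 * f) ↔ Cop v (f * 2 ^ N) := by
    intro v
    rw [hC4, hC4]
    have h1 : Cop v (2 ^ N) ↔ Cop v 2 := by
      unfold Cop
      push_cast
      exact IsCoprime.pow_right_iff (by omega)
    rw [h1]
    exact and_comm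
  have hv0m : Cop v0 (f * 2 ^ N) := (hcm v0).1 ((hC4 v0 2 f).2 ⟨hv02, hv0f⟩)
  have hDnm : ∀ v ∈ D, (2 : ℤ) ^ N ∣ Nm v - 1 := by
    intro v hv
    have h1 := RpD_nm (hD v hv).2
    have h2 : Nm (1 : OO) = 1 := by
      have := hUNm.2.2.2.1 1
      simpa using this
    rw [h2, hcast] at h1
    exact h1
  -- the norm of `v v0`
  have hvv : ∀ v ∈ D, (2 : ℤ) ^ N ∣ Nm (v * v0) - a0 := by
    intro v hv
    obtain ⟨x, hx⟩ := hDnm v hv
    obtain ⟨y, hy⟩ := hnv0
    refine ⟨x * Nm v0 + y, ?_⟩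
    rw [hNmul]
    linear_combination (Nm v0) * hx + hy
  have hvvc : ∀ v ∈ D, Cop (v * v0) (f * 2 ^ N) := fun v hv =>
    (hC2 v v0 _).2 ⟨(hcm v).1 (hD v hv).1, hv0m⟩
  have hca0 : IsCoprime ((2 : ℤ) ^ N) a0 := ((RpD_odd ha0).symm).pow_left
  -- the uniqueness
  have key : ∀ v ∈ D, ∀ h ∈ T, ∀ v1 ∈ D, ∀ h1 ∈ T, ∀ s : OO, (s = 1 ∨ s = -1) →
      ((f * 2 ^ N : ℕ) : OO) ∣ h * (v * v0) - s * (h1 * (v1 * v0)) → v = v1 ∧ h = h1 := by
    intro v hv h hh v1 hv1 h1 hh1 s hs hdvd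
    have hsf : Hf f s := by
      rcases hs with rfl | rfl
      · exact h11
      · exact hm1
    have hhf : Hf f h := (hT.mem h hh).1
    have hh1f : Hf f h1 := (hT.mem h1 hh1).1
    obtain ⟨g, c, hgc⟩ := (hC1 h f).1 (hHcop h hhf)
    have hg : Hf f g := hHinv h g hhf ⟨-c, by linear_combination hgc⟩
    have hvv1 : v = v1 := by
      symm
      refine hDuni v1 hv1 v hv ⟨s * (g * h1), hHmul _ _ hsf (hHmul _ _ hg hh1f), ?_⟩
      obtain ⟨k, hk⟩ := hv0
      obtain ⟨q, hq⟩ := hfm.trans hdvd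
      have hv0e : v0 = 1 + f * k := by rw [← hk]; ring
      rw [hv0e] at hq
      refine ⟨c * v + g * (q - h * v * k + s * h1 * v1 * k), ?_⟩
      linear_combination (-v) * hgc + g * hq
    subst hvv1
    refine ⟨rfl, ?_⟩
    obtain ⟨b, d, hbd⟩ := (hC1 (v * v0) (f * 2 ^ N)).1 (hvvc v hv)
    have hdvd2 : ((f * 2 ^ N : ℕ) : OO) ∣ h - s * h1 := by
      obtain ⟨q, hq⟩ := hdvd
      refine ⟨b * q + d * (h - s * h1), ?_⟩
      linear_combination (-(h - s * h1)) * hbd + b * hq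
    refine hT.uni h hh h1 hh1 ?_
    rcases hs with rfl | rfl
    · left
      rwa [one_mul] at hdvd2
    · right
      have e : h - -1 * h1 = h + h1 := by ring
      rwa [e] at hdvd2
  refine ⟨⟨?_, ?_, ?_⟩, ?_⟩
  · -- mem
    intro x hx
    rw [Finset.mem_image] at hx
    obtain ⟨⟨v, h⟩, hp, rfl⟩ := hx
    rw [Finset.mem_product] at hp
    obtain ⟨hv, hh⟩ := hp
    simp only at hv hh ⊢
    refine ⟨?_, ?_⟩
    · rw [hcm, hC2]
      exact ⟨hHNcop h (hT.mem h hh), hvvc v hv⟩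
    · obtain ⟨x, hx⟩ := hvv v hv
      unfold Cnd
      rw [hNmul]
      rcases (hT.mem h hh).2 with ⟨y, hy⟩ | ⟨y, hy⟩
      · left
        refine ⟨y * Nm (v * v0) + x, ?_⟩
        linear_combination (Nm (v * v0)) * hy + hx
      · right
        refine ⟨y * Nm (v * v0) - x, ?_⟩
        linear_combination (Nm (v * v0)) * hy - hx
  · -- ex
    rintro x ⟨hxc, hxn⟩
    have hxm := (hcm x).1 hxc
    obtain ⟨v, hv, h', hh', hdv⟩ := hDex x ((hC4 x 2 f).1 hxc).2
    obtain ⟨b, d, hbd⟩ := (hC1 (v * v0) (f * 2 ^ N)).1 (hvvc v hv)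
    have hkf : Hf f (x * b) := by
      obtain ⟨k, hk⟩ := hv0
      obtain ⟨q, hq⟩ := hdv
      have hv0e : v0 = 1 + f * k := by rw [← hk]; ring
      obtain ⟨r, hr⟩ := hfm
      have h1 : x * b = h' + f * (q * b - h' * (b * v * k + d * r)) := by
        rw [hv0e] at hbd
        rw [hr] at hbd
        linear_combination b * hq + h' * hbd
      rw [h1]
      exact hHadd _ _ hh'
    have hkn : (2 : ℤ) ^ N ∣ Nm (x * b) - 1 ∨ (2 : ℤ) ^ N ∣ Nm (x * b) + 1 := by
      have h1 : ((f * 2 ^ N : ℕ) : OO) ∣ x * b * (v * v0) - x :=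
        ⟨-(x * d), by linear_combination x * hbd⟩
      have h2 := RpD_nm (h2m.trans h1)
      rw [hcast, hNmul] at h2
      obtain ⟨y, hy⟩ := hvv v hv
      obtain ⟨z, hz⟩ := h2
      rcases hxn with ⟨w, hw⟩ | ⟨w, hw⟩
      · left
        apply hca0.dvd_of_dvd_mul_right
        refine ⟨z + w - Nm (x * b) * y, ?_⟩
        linear_combination hz + hw - Nm (x * b) * hy
      · right
        apply hca0.dvd_of_dvd_mul_right
        refine ⟨z + w - Nm (x * b) * y, ?_⟩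
        linear_combination hz + hw - Nm (x * b) * hy
    obtain ⟨h, hh, hor⟩ := hT.ex (x * b) ⟨hkf, hkn⟩
    refine ⟨h * (v * v0), ?_, ?_⟩
    · rw [Finset.mem_image]
      exact ⟨(v, h), Finset.mem_product.2 ⟨hv, hh⟩, rfl⟩
    · rcases hor with ⟨y, hy⟩ | ⟨y, hy⟩
      · left
        refine ⟨y * (v * v0) + x * d, ?_⟩
        linear_combination (v * v0) * hy - x * hbd
      · right
        refine ⟨y * (v * v0) + x * d, ?_⟩
        linear_combination (v * v0) * hy - x * hbd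
  · -- uni
    intro x hx y hy hor
    rw [Finset.mem_image] at hx hy
    obtain ⟨⟨v, h⟩, hp, rfl⟩ := hx
    obtain ⟨⟨v1, h1⟩, hp1, rfl⟩ := hy
    rw [Finset.mem_product] at hp hp1
    simp only at hp hp1 hor ⊢
    have h2 : v = v1 ∧ h = h1 := by
      rcases hor with hor | hor
      · refine key v hp.1 h hp.2 v1 hp1.1 h1 hp1.2 1 (Or.inl rfl) ?_
        rw [one_mul]
        exact hor
      · refine key v hp.1 h hp.2 v1 hp1.1 h1 hp1.2 (-1) (Or.inr rfl) ?_
        have e : h * (v * v0) - -1 * (h1 * (v1 * v0)) = h * (v * v0) + h1 * (v1 * v0) := by ring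
        rw [e]
        exact hor
    rw [h2.1, h2.2]
  · -- injectivity
    rintro ⟨v, h⟩ hp ⟨v1, h1⟩ hp1 heq
    rw [Finset.mem_coe, Finset.mem_product] at hp hp1
    simp only at hp hp1 heq
    have h2 : v = v1 ∧ h = h1 := by
      refine key v hp.1 h hp.2 v1 hp1.1 h1 hp1.2 1 (Or.inl rfl) ?_
      rw [one_mul, heq, sub_self]
      exact dvd_zero _
    rw [h2.1, h2.2]

end Pool.Agent.DI.G
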