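import Pool.Agent.Lib.DI.G.Spec

set_option autoImplicit false

/-!
# Theorem DI, part G: the sum over all residues is twice the sum over representatives (`S_RpS`)
-/

open scoped Pointwise

namespace Pool.Agent.DI.G

open Pool.Agent.MuZ Pool.Agent.DI

theorem tRpS : S_RpS := by
  classical
  intro hU m H T F hm hT hper heven hz hneg hHper h2
  obtain ⟨u1, -, -, R, hRex, hRuni, -⟩ := hU Om m F hm hper
  rw [← u1 R hRex hRuni]
  choose ρ hρR hρ using hRex
  have hFρ : ∀ v : OO, F (ρ v) = F v := by
    intro v
    obtain ⟨u, hu⟩ := hρ v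
    have e : v = ρ v + m * u := by rw [← hu]; ring
    calc F (ρ v) = F (ρ v + m * u) := (hper _ _).symm
      _ = F v := by rw [← e]
  have hHρ : ∀ v : OO, H v → H (ρ v) := by
    intro v hv
    obtain ⟨u, hu⟩ := hρ v
    have e : ρ v = v + m * (-u) := by
      rw [mul_neg, ← hu]
      ring
    rw [e]
    exact hHper v _ hv
  have huniq : ∀ v : OO, ∀ r ∈ R, (m : OO) ∣ v - r → ρ v = r := by
    intro v r hr h
    refine hRuni _ (hρR v) r hr ?_
    have e : ρ v - r = (v - r) - (v - ρ v) := by ring
    rw [e]
    exact dvd_sub h (hρ v)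
  have hρeq : ∀ v w : OO, ρ v = ρ w → (m : OO) ∣ v - w := by
    intro v w h
    have e : v - w = (v - ρ v) - (w - ρ w) := by rw [h]; ring
    rw [e]
    exact dvd_sub (hρ v) (hρ w)
  let φ : OO × Bool → OO := fun p => ρ (bif p.2 then p.1 else -p.1)
  have himg : R.filter H = (T ×ˢ (Finset.univ : Finset Bool)).image φ := by
    ext r
    simp only [Finset.mem_filter, Finset.mem_image, Finset.mem_product, Finset.mem_univ, and_true]
    constructor
    · rintro ⟨hr, hHr⟩
      obtain ⟨t, ht, h | h⟩ := hT.ex r hHr
      · refine ⟨(t, true), ht, huniq _ r hr ?_⟩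
        have e : (bif true then t else -t) - r = -(r - t) := by
          rw [cond_true]
          ring
        rw [e]
        exact (dvd_neg).2 h
      · refine ⟨(t, false), ht, huniq _ r hr ?_⟩
        have e : (bif false then t else -t) - r = -(r + t) := by
          rw [cond_false]
          ring
        rw [e]
        exact (dvd_neg).2 h
    · rintro ⟨⟨t, b⟩, ht, rfl⟩
      refine ⟨hρR _, hHρ _ ?_⟩
      cases b
      · exact hneg _ (hT.mem t ht)
      · exact hT.mem t ht
  have hinj : Set.InjOn φ ((T ×ˢ (Finset.univ : Finset Bool) : Finset (OO × Bool)) :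
      Set (OO × Bool)) := by
    rintro ⟨t, b⟩ htb ⟨t', b'⟩ htb' h
    have ht : t ∈ T := (Finset.mem_product.1 (Finset.mem_coe.1 htb)).1
    have ht' : t' ∈ T := (Finset.mem_product.1 (Finset.mem_coe.1 htb')).1
    have h1 := hρeq _ _ h
    cases b <;> cases b'
    · have h2' : (m : OO) ∣ t - t' := by
        have e : t - t' = -((bif false then t else -t) - (bif false then t' else -t')) := by
          rw [cond_false, cond_false]
          ring
        rw [e]
        exact (dvd_neg).2 h1
      rw [hT.uni t ht t' ht' (Or.inl h2')]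
    · exfalso
      have h2' : (m : OO) ∣ t + t' := by
        have e : t + t' = -((bif false then t else -t) - (bif true then t' else -t')) := by
          rw [cond_false, cond_true]
          ring
        rw [e]
        exact (dvd_neg).2 h1
      have h3 := hT.uni t ht t' ht' (Or.inr h2')
      rw [← h3] at h2'
      exact h2 t (hT.mem t ht) h2'
    · exfalso
      have h2' : (m : OO) ∣ t + t' := by
        have e : t + t' = (bif true then t else -t) - (bif false then t' else -t') := by
          rw [cond_false, cond_true]
          ring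
        rw [e]
        exact h1
      have h3 := hT.uni t ht t' ht' (Or.inr h2')
      rw [← h3] at h2'
      exact h2 t (hT.mem t ht) h2'
    · rw [hT.uni t ht t' ht' (Or.inl h1)]
  have hsum : ∑ r ∈ R, F r = ∑ r ∈ R.filter H, F r := by
    rw [Finset.sum_filter]
    refine Finset.sum_congr rfl fun r _ => ?_
    by_cases hr : H r
    · rw [if_pos hr]
    · rw [if_neg hr, hz r hr]
  rw [hsum, himg, Finset.sum_image hinj, Finset.sum_product, Finset.mul_sum]
  refine Finset.sum_congr rfl fun t _ => ?_
  rw [Fintype.sum_bool]
  show F (ρ t) + F (ρ (-t)) = 2 * F t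
  rw [hFρ, hFρ, heven]
  ring

end Pool.Agent.DI.G
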