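import Pool.Agent.Lib.DI.G.Spec

/-!
# Theorem DI, part G, module SN (helper86): the element `s`
-/

set_option autoImplicit false

open scoped Pointwise

noncomputable section

namespace Pool.Agent.DI.G

open Pool.Agent.MuZ Pool.Agent.DI

private theorem SN_two : pO * pbO = 2 := rfl

private theorem SN_add : pO + pbO = 1 := rfl

theorem tSN : S_SN := by
  intro hE7 hUCop f N hf h7 hN
  obtain ⟨M, rfl⟩ : ∃ M, N = M + 1 := ⟨N - 1, by omega⟩
  obtain ⟨k, hk⟩ := hf
  have hfk : (f : OO) = 2 * (k : OO) + 1 := by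
    rw [hk]
    push_cast
    ring
  have h2M : (2 : OO) ^ M = pO ^ M * pbO ^ M := by
    rw [← mul_pow, SN_two]
  have hpb : pbO - 1 = -pO := by
    linear_combination SN_add
  have hcop : Cop (1 + 2 ^ M * f * pbO) (f * 2 ^ (M + 1)) := by
    rw [hUCop.2.2.2.1]
    constructor
    · have h1 : (1 : OO) + 2 ^ M * f * pbO = 1 + f * (2 ^ M * pbO) := by ring
      rw [h1, hUCop.2.2.1, hUCop.1]
      exact isCoprime_one_left
    · have h1 : Cop (1 + 2 ^ M * f * pbO) 2 := by
        rw [hUCop.2.2.2.2.1]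
        refine ⟨2 ^ (M - 1) * f * pbO, ?_⟩
        have h2 : (2 : OO) ^ M = 2 * 2 ^ (M - 1) := by
          rw [← pow_succ']
          congr 1
          omega
        rw [h2]
        ring
      unfold Cop at h1 ⊢
      rw [Nat.cast_pow]
      exact IsCoprime.pow_right h1
  obtain ⟨s, hs, hpsi⟩ := hE7 (f * 2 ^ (M + 1)) _ (Nat.mul_pos (by omega) (by positivity)) hcop
  refine ⟨s, _, hs, hpsi, ⟨2 ^ M * pbO, by ring⟩, ⟨pO ^ M * f, ?_⟩,
    ⟨pbO ^ M * (pbO ^ 2 * k - 1), ?_⟩⟩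
  · rw [h2M]
    ring
  · rw [Nat.add_sub_cancel]
    have h3 : (f : OO) * pbO - 1 = pO * (pbO ^ 2 * k - 1) := by
      rw [hfk]
      linear_combination hpb - k * pbO * SN_two
    have h4 : (1 : OO) + 2 ^ M * f * pbO - 1 - 2 ^ M = 2 ^ M * (f * pbO - 1) := by ring
    rw [h4, h3, h2M]
    ring

end Pool.Agent.DI.G
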