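import Pool.Agent.Lib.DI.G.Spec

/-! DI, part G, module SNo: `S_N(a)` is not `0` modulo `π` (helper67). -/

set_option autoImplicit false

open scoped Pointwise

noncomputable section

namespace Pool.Agent.DI.G

open Pool.Agent.MuZ Pool.Agent.DI

private theorem SNo_tp_sub {P : Ideal ZZ} (hP : P.IsPrime) {t x y : Om} (hx : TP P t x)
    (hy : TP P t y) : TP P t (x - y) := by
  obtain ⟨a, ha, rfl⟩ := hx
  obtain ⟨b, hb, rfl⟩ := hy
  exact ⟨a - b, ha.sub hb, by ring⟩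

private theorem SNo_tp_mul {P : Ideal ZZ} (hP : P.IsPrime) {t x c : Om} (hc : VP P c)
    (hx : TP P t x) : TP P t (c * x) := by
  obtain ⟨a, ha, rfl⟩ := hx
  exact ⟨c * a, hc.mul ha, by ring⟩

private theorem SNo_two {P : Ideal ZZ} (hP : AbPi P) : MP P 2 := by
  have hP1 : P.IsPrime := hP.1
  have h1 : (2 : Om) = wO * (1 - wO) := by linear_combination wO_sq
  rw [h1]
  exact MP.mul_right hP.2.2 (VP.one.sub hP.2.2.vp)

private theorem SNo_odd {P : Ideal ZZ} (hP : AbPi P) {f : ℕ} (hf : Odd f) : UP P (f : Om) := by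
  have hP1 : P.IsPrime := hP.1
  refine ⟨VP.nat f, fun h => ?_⟩
  obtain ⟨k, rfl⟩ := hf
  have h1 : MP P (k * 2 : Om) := MP.mul_left (VP.nat k) (SNo_two hP)
  have h2 := h.sub h1
  have h3 : ((2 * k + 1 : ℕ) : Om) - (k * 2 : Om) = 1 := by
    push_cast
    ring
  rw [h3] at h2
  exact MP.one_not h2

private theorem SNo_per {χ : OO → Om} (h : ∀ r : ℚ, etaX χ (r + 1) = etaX χ r) (k : ℤ) :
    ∀ r : ℚ, etaX χ (r + k) = etaX χ r := by
  have hn : ∀ (n : ℕ) (r : ℚ), etaX χ (r + n) = etaX χ r := by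
    intro n
    induction n with
    | zero => intro r; rw [Nat.cast_zero, add_zero]
    | succ n ih => intro r; rw [Nat.cast_succ, ← add_assoc, h, ih]
  intro r
  obtain ⟨n, rfl | rfl⟩ := k.eq_nat_or_neg
  · rw [Int.cast_natCast, hn]
  · have h1 := hn n (r + ((-(n : ℤ) : ℤ) : ℚ))
    rw [← h1]
    congr 1
    push_cast
    ring

private theorem SNo_ha {χ : OO → Om} (h : ∀ r : ℚ, etaX χ (r + 1) = etaX χ r) (k : ℤ) (r : ℚ) :
    haX χ (r + k) = haX χ r := by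
  have hs : ∀ (k : ℤ) (r : ℚ), etas χ (r + k) = etas χ r := by
    intro k r
    have h1 : -(r + (k : ℚ)) = -r + ((-k : ℤ) : ℚ) := by push_cast; ring
    unfold etas
    rw [SNo_per h k r, h1, SNo_per h (-k) (-r)]
  have h2 : 2 * (r + (k : ℚ)) = 2 * r + ((2 * k : ℤ) : ℚ) := by push_cast; ring
  unfold haX
  rw [hs k r, h2, hs]

private theorem SNo_den {f : ℕ} (hf : Odd f) (z : ℤ) (n : ℕ) :
    ((z : ℚ) / 2 ^ n).den.Coprime f := by
  have h1 : ((Rat.divInt z (2 ^ n)).den : ℤ) ∣ 2 ^ n := Rat.den_dvd z (2 ^ n)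
  have h3 : ((2 ^ n : ℤ) : ℚ) = 2 ^ n := by push_cast; rfl
  rw [Rat.divInt_eq_div, h3] at h1
  have h2 : ((z : ℚ) / 2 ^ n).den ∣ 2 ^ n := by exact_mod_cast h1
  exact Nat.Coprime.coprime_dvd_left h2 (Nat.Coprime.pow_left n (Nat.coprime_two_left.2 hf))

/-- The representative modulo `1`. -/
private theorem SNo_rep (c0 : ℤ) (m0 n : ℕ) (h : m0 ≤ n) :
    ∃ (c : ℕ) (k : ℤ), c < 2 ^ n ∧ (c : ℚ) / 2 ^ n + k = c0 / 2 ^ m0 := by
  have hpos : (0 : ℤ) < 2 ^ n := by positivity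
  set z : ℤ := c0 * 2 ^ (n - m0) with hz
  have h1 : 0 ≤ z % 2 ^ n := Int.emod_nonneg _ hpos.ne'
  have h2 : z % 2 ^ n < 2 ^ n := Int.emod_lt_of_pos _ hpos
  refine ⟨(z % 2 ^ n).toNat, z / 2 ^ n, ?_, ?_⟩
  · zify
    rw [Int.toNat_of_nonneg h1]
    exact h2
  · have h3 : (((z % 2 ^ n).toNat : ℕ) : ℚ) = ((z % 2 ^ n : ℤ) : ℚ) := by
      have h4 : (((z % 2 ^ n).toNat : ℕ) : ℤ) = z % 2 ^ n := Int.toNat_of_nonneg h1
      exact_mod_cast congrArg (fun t : ℤ => (t : ℚ)) h4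
    have h5 : ((z % 2 ^ n : ℤ) : ℚ) + 2 ^ n * ((z / 2 ^ n : ℤ) : ℚ) = c0 * 2 ^ (n - m0) := by
      have h6 := Int.emod_add_mul_ediv z (2 ^ n)
      have h7 := congrArg (fun t : ℤ => (t : ℚ)) h6
      push_cast at h7
      rw [hz] at h7 ⊢
      push_cast at h7 ⊢
      exact h7
    have h8 : (2 : ℚ) ^ n = 2 ^ m0 * 2 ^ (n - m0) := by
      rw [← pow_add, Nat.add_sub_cancel' h]
    have h9 : (2 : ℚ) ^ n ≠ 0 := by positivity
    have h10 : (2 : ℚ) ^ m0 ≠ 0 := by positivity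
    rw [h3, eq_div_iff h10]
    have h11 : (((z % 2 ^ n : ℤ) : ℚ) / 2 ^ n + ((z / 2 ^ n : ℤ) : ℚ)) * 2 ^ m0 * 2 ^ (n - m0) =
        c0 * 2 ^ (n - m0) := by
      rw [mul_assoc, ← h8, ← h5]
      field_simp
    exact mul_right_cancel₀ (by positivity) h11

theorem tSNo : S_SNo := by
  intro hG1 hA2 hE12 hE13 _ _ hChi hFou hUni hChiF f χ P hf h7 hχ hP hne
  have hP1 : P.IsPrime := hP.1
  have hNP : Npr P := ⟨hP.1, hP.2.1⟩
  have h2P := SNo_two hP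
  obtain ⟨c0, m0, hc0⟩ := hG1 f χ P hf h7 hχ hP hne
  refine ⟨m0 + 2, fun N hN a ha => ?_⟩
  obtain ⟨hV, hT⟩ := hFou f χ P hf h7 hχ hP hne N a (by omega) ha
  refine ⟨hV, fun hcon => hc0 ?_⟩
  obtain ⟨M, hMu, -, -, hMχ, hMx⟩ := hChiF f χ P hf h7 hχ hP
  obtain ⟨-, -, -, -, hint, hun, -⟩ := hChi f χ hf h7 hχ
  have hper := (hE12 f χ hf h7 hχ).2.1
  -- the values
  have hval : ∀ (z : ℤ) (n : ℕ), etaX χ ((z : ℚ) / 2 ^ n) ∈ M ∧
      VP P (etaX χ ((z : ℚ) / 2 ^ n)) := by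
    intro z n
    obtain ⟨h1, h2⟩ := hE13 f χ hf h7 hχ hne ((z : ℚ) / 2 ^ n) (SNo_den hf z n)
    exact ⟨hMx _ h2, h1 P hNP h2P⟩
  have hvals : ∀ (z : ℤ) (n : ℕ), etas χ ((z : ℚ) / 2 ^ n) ∈ M ∧
      VP P (etas χ ((z : ℚ) / 2 ^ n)) := by
    intro z n
    have h1 : -((z : ℚ) / 2 ^ n) = ((-z : ℤ) : ℚ) / 2 ^ n := by push_cast; ring
    unfold etas
    rw [h1]
    exact ⟨add_mem (hval z n).1 (hval (-z) n).1, (hval z n).2.add (hval (-z) n).2⟩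
  have hvalh : ∀ (z : ℤ) (n : ℕ), haX χ ((z : ℚ) / 2 ^ n) ∈ M ∧
      VP P (haX χ ((z : ℚ) / 2 ^ n)) := by
    intro z n
    have h1 : 2 * ((z : ℚ) / 2 ^ n) = ((2 * z : ℤ) : ℚ) / 2 ^ n := by push_cast; ring
    unfold haX
    rw [h1]
    exact ⟨add_mem (hvals z n).1 (mul_mem (hMχ pbO) (hvals (2 * z) n).1),
      (hvals z n).2.add ((VP.integral (hint pbO)).mul (hvals (2 * z) n).2)⟩
  -- the root of unity
  have hz := (hA2 (2 ^ N) (by positivity)).2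
  have hgcd : IsCoprime (-a) ((2 ^ N : ℕ) : ℤ) := by
    push_cast
    refine IsCoprime.pow_right ?_
    rw [IsCoprime.neg_left_iff]
    exact (Int.isCoprime_iff_gcd_eq_one.2 (Int.gcd_comm a 2 ▸
      (Int.isCoprime_iff_gcd_eq_one.1 (by
        obtain ⟨k, rfl⟩ := ha
        exact ⟨-k, 1, by ring⟩))))
  have hprim : IsPrimitiveRoot (zet (2 ^ N) ^ (-a)) (2 ^ N) :=
    hz.zpow_of_gcd_eq_one (-a) (Int.isCoprime_iff_gcd_eq_one.1 hgcd)
  have hsum : TP P wO (∑ c ∈ Finset.range (2 ^ (N - 1)),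
      (zet (2 ^ N) ^ (-a)) ^ c * haX χ ((c : ℚ) / 2 ^ (N - 1))) := by
    have h1 := SNo_tp_sub hP1 hcon hT
    rw [sub_sub_cancel] at h1
    have hcop : Cop pO f := by
      have h2 : Nm pO = 2 := by
        change (0 : ℤ) ^ 2 + 0 * 1 + 2 * 1 ^ 2 = 2
        norm_num
      unfold Cop
      rw [h2]
      obtain ⟨k, rfl⟩ := hf
      exact ⟨-k, 1, by push_cast; ring⟩
    have h3 : UP P ((f : Om) * χ pO) := (SNo_odd hP hf).mul (hun P pO hNP hcop)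
    have h4 := SNo_tp_mul hP1 h3.inv.1 h1
    rw [inv_mul_cancel_left₀ h3.ne_zero] at h4
    convert h4 using 1
    refine Finset.sum_congr rfl fun c _ => ?_
    congr 1
    rw [← zpow_natCast, ← zpow_mul]
    congr 1
    ring
  obtain ⟨c, k, hc, hck⟩ := SNo_rep c0 m0 (N - 1) (by omega)
  have hAM : ∀ c : ℕ, haX χ ((c : ℚ) / 2 ^ (N - 1)) ∈ M := by
    intro c
    have h1 := (hvalh (c : ℤ) (N - 1)).1
    rwa [Int.cast_natCast] at h1
  have hAV : ∀ c : ℕ, VP P (haX χ ((c : ℚ) / 2 ^ (N - 1))) := by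
    intro c
    have h1 := (hvalh (c : ℤ) (N - 1)).2
    rwa [Int.cast_natCast] at h1
  have hfin := hUni P hP M N (zet (2 ^ N) ^ (-a)) (by omega) hprim hMu
    (fun c => haX χ ((c : ℚ) / 2 ^ (N - 1))) hAM hAV hsum c hc
  obtain ⟨y, hy, hxy⟩ := hfin
  rw [← hck, SNo_ha hper]
  have h5 : haX χ ((c : ℚ) / 2 ^ (N - 1)) = wO * y := hxy
  rw [h5]
  exact MP.mul_right hP.2.2 hy

end Pool.Agent.DI.G
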