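import Pool.Agent.Lib.DI.G.Spec

/-!
# Theorem DI, part G: translation by `1/π` (module Tra)
-/

set_option autoImplicit false

open scoped Pointwise

noncomputable section

namespace Pool.Agent.DI.G

open Pool.Agent.MuZ Pool.Agent.DI

private theorem Tra_pp : pO * pbO = (2 : OO) := by
  refine QuadraticAlgebra.ext ?_ ?_
  · rw [QuadraticAlgebra.re_mul]
    rfl
  · rw [QuadraticAlgebra.im_mul]
    rfl

private theorem Tra_add : pO + pbO = (1 : OO) := by
  refine QuadraticAlgebra.ext ?_ ?_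
  · rfl
  · rfl

private theorem Tra_canc {x y : OO} (h : pO * x = pO * y) : x = y := by
  have h1 := congrArg QuadraticAlgebra.re h
  have h2 := congrArg QuadraticAlgebra.im h
  rw [QuadraticAlgebra.re_mul, QuadraticAlgebra.re_mul] at h1
  rw [QuadraticAlgebra.im_mul, QuadraticAlgebra.im_mul] at h2
  have e1 : pO.re = 0 := rfl
  have e2 : pO.im = 1 := rfl
  rw [e1, e2] at h1 h2
  refine QuadraticAlgebra.ext ?_ ?_ <;> omega

private theorem Tra_cancp {x y : OO} (k : ℕ) (h : pO ^ k * x = pO ^ k * y) : x = y := by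
  induction k with
  | zero => simpa using h
  | succ k ih =>
    apply ih
    apply Tra_canc
    rw [← mul_assoc, ← mul_assoc, ← pow_succ']
    exact h

private theorem Tra_cp : IsCoprime pO pbO := ⟨1, 1, by rw [one_mul, one_mul, Tra_add]⟩

private theorem Tra_cf {f : ℕ} (hf : Odd f) : IsCoprime (f : OO) pO ∧ IsCoprime (f : OO) pbO := by
  obtain ⟨k, hk⟩ := hf
  constructor
  · refine ⟨1, -(k : OO) * pbO, ?_⟩
    rw [hk]
    push_cast
    linear_combination (-(k : OO)) * Tra_pp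
  · refine ⟨1, -(k : OO) * pO, ?_⟩
    rw [hk]
    push_cast
    linear_combination (-(k : OO)) * Tra_pp

private theorem Tra_toC_pO : toC pO = wC := by
  rw [toC_apply]
  have e1 : pO.re = 0 := rfl
  have e2 : pO.im = 1 := rfl
  rw [e1, e2]
  push_cast
  ring

private theorem Tra_toC_pbO : toC pbO = 1 - wC := by
  rw [toC_apply]
  have e1 : pbO.re = 1 := rfl
  have e2 : pbO.im = -1 := rfl
  rw [e1, e2]
  push_cast
  ring

private theorem Tra_w : wC * (1 - wC) = 2 := by
  linear_combination -wC_sq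

private theorem Tra_fin {F w q A B X : ℂ} {n : ℕ} (hF : F ≠ 0) (hw : w ≠ 0) (hq : q ≠ 0)
    (hwq : w * q = 2) (hAB : A - B = F * q ^ (n + 1) * w ^ n * (1 + w * X)) :
    A / (F * 2 ^ (n + 1)) = B / (F * 2 ^ (n + 1)) + 1 / w + X := by
  have h1 : A = B + F * q ^ (n + 1) * w ^ n * (1 + w * X) := by rw [← hAB]; ring
  rw [h1, ← hwq, mul_pow]
  field_simp
  ring

theorem tTra : S_Tra := by
  intro hU f N hf h7 hN s a hs v hv
  have hv2 : Cop v 2 := ((hU.2.2.2.1 v 2 f).1 hv).1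
  have hpv : ¬ pO ∣ v := ((hU.2.2.2.2.2.1 v).1 hv2).1
  obtain ⟨n, rfl⟩ : ∃ n, N = n + 1 := ⟨N - 1, by omega⟩
  have hdp := hs.dp
  rw [Nat.add_sub_cancel] at hdp
  have h2n : (2 : OO) ^ n = pO ^ n * pbO ^ n := by rw [← Tra_pp, mul_pow]
  rw [h2n] at hdp
  -- divisibility of `a - 1`
  have hd1 : pO ^ n ∣ a - 1 := by
    have h1 : pO ^ n ∣ a - 1 - pO ^ n * pbO ^ n := (pow_dvd_pow pO (Nat.le_succ n)).trans hdp
    have h2 := dvd_add h1 (dvd_mul_right (pO ^ n) (pbO ^ n))
    rwa [sub_add_cancel] at h2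
  have hd2 : (f : OO) * pbO ^ (n + 1) ∣ a - 1 :=
    (IsCoprime.pow_right (Tra_cf hf).2).mul_dvd hs.df hs.db
  have hco : IsCoprime ((f : OO) * pbO ^ (n + 1)) (pO ^ n) :=
    IsCoprime.mul_left (IsCoprime.pow_right (Tra_cf hf).1)
      (IsCoprime.pow_left (IsCoprime.pow_right Tra_cp.symm))
  obtain ⟨c, hc⟩ := hco.mul_dvd hd2 hd1
  -- the residue of `c`
  have hc1 : pO ∣ (f : OO) * pbO * c - 1 := by
    obtain ⟨t, ht⟩ := hdp
    have h1 : pO ^ n * (pbO ^ n * ((f : OO) * pbO * c - 1)) = pO ^ n * (pO * t) := by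
      have h2 : a - 1 - pO ^ n * pbO ^ n = pO ^ (n + 1) * t := ht
      rw [hc] at h2
      linear_combination h2
    have h3 := Tra_cancp n h1
    have h4 : pO ∣ pbO ^ n * ((f : OO) * pbO * c - 1) := ⟨t, h3⟩
    exact (IsCoprime.pow_right Tra_cp).dvd_of_dvd_mul_left h4
  have hcv : ¬ pO ∣ c * v := by
    intro h
    apply hpv
    have h1 : pO ∣ (f : OO) * pbO * (c * v) := h.mul_left _
    have h2 : pO ∣ ((f : OO) * pbO * c - 1) * v := hc1.mul_right v
    have h3 := dvd_sub h1 h2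
    have h4 : (f : OO) * pbO * (c * v) - ((f : OO) * pbO * c - 1) * v = v := by ring
    rwa [h4] at h3
  have hre := hU.2.2.2.2.2.2.2
  have hcv1 : pO ∣ c * v - 1 := by
    rw [(hre (c * v)).1] at hcv
    rw [(hre (c * v - 1)).1]
    have h1 : (c * v - 1).re = (c * v).re - 1 := by
      rw [QuadraticAlgebra.re_sub, QuadraticAlgebra.re_one]
    rw [h1]
    omega
  obtain ⟨x, hx⟩ := hcv1
  refine ⟨x, ?_⟩
  have hav : a * v - v = (f : OO) * pbO ^ (n + 1) * pO ^ n * (1 + pO * x) := by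
    have h1 : c * v = 1 + pO * x := by rw [← hx]; ring
    have h2 : a * v - v = (a - 1) * v := by ring
    rw [h2, hc, mul_assoc, h1]
  have hR : toC ((f : OO) * pbO ^ (n + 1) * pO ^ n * (1 + pO * x)) =
      (f : ℂ) * (1 - wC) ^ (n + 1) * wC ^ n * (1 + wC * toC x) := by
    simp only [map_mul, map_pow, map_natCast, map_add, map_one, Tra_toC_pO, Tra_toC_pbO]
  have hC : toC (a * v) - toC v =
      (f : ℂ) * (1 - wC) ^ (n + 1) * wC ^ n * (1 + wC * toC x) := by
    rw [← hR, ← hav, map_sub]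
  have hf0 : (f : ℂ) ≠ 0 := by
    have : f ≠ 0 := by
      rintro rfl
      exact (by decide : ¬ Odd 0) hf
    exact_mod_cast this
  have hw0 : wC ≠ 0 := fun h => by
    have := Tra_w
    rw [h, zero_mul] at this
    norm_num at this
  have hq0 : (1 - wC) ≠ 0 := fun h => by
    have := Tra_w
    rw [h, mul_zero] at this
    norm_num at this
  have h3 := Tra_fin (n := n) hf0 hw0 hq0 Tra_w hC
  push_cast
  exact h3

end Pool.Agent.DI.G
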