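import Pool.Agent.Lib.DI.G.Spec

/-!
# Theorem DI, part G, module Two (helper86): norm relation of the elliptic units
-/

set_option autoImplicit false

open scoped Pointwise

noncomputable section

namespace Pool.Agent.DI.G

open Pool.Agent.MuZ Pool.Agent.DI

private theorem Two_dvd (x : OO) : (2 : OO) ∣ x ↔ (2 : ℤ) ∣ x.re ∧ (2 : ℤ) ∣ x.im := by
  constructor
  · rintro ⟨t, rfl⟩
    have h1 : (2 : OO) * t = t + t := two_mul t
    rw [h1, QuadraticAlgebra.re_add, QuadraticAlgebra.im_add]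
    exact ⟨⟨t.re, by ring⟩, ⟨t.im, by ring⟩⟩
  · rintro ⟨⟨a, ha⟩, ⟨b, hb⟩⟩
    refine ⟨⟨a, b⟩, ?_⟩
    rw [two_mul]
    apply QuadraticAlgebra.ext
    · rw [QuadraticAlgebra.re_add, ha]
      ring
    · rw [QuadraticAlgebra.im_add, hb]
      ring

/-- The four residues modulo `2`. -/
private def EE4 : Finset OO := {0, 1, pO, 1 + pO}

private theorem Two_memE (e : OO) : e ∈ EE4 ↔ e = 0 ∨ e = 1 ∨ e = pO ∨ e = 1 + pO := by
  unfold EE4
  simp only [Finset.mem_insert, Finset.mem_singleton]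

private theorem Two_coord (e : OO) (he : e ∈ EE4) :
    (e.re = 0 ∨ e.re = 1) ∧ (e.im = 0 ∨ e.im = 1) := by
  rcases (Two_memE e).1 he with rfl | rfl | rfl | rfl
  · exact ⟨Or.inl rfl, Or.inl rfl⟩
  · exact ⟨Or.inr rfl, Or.inl rfl⟩
  · exact ⟨Or.inl rfl, Or.inr rfl⟩
  · exact ⟨Or.inr rfl, Or.inr rfl⟩

private theorem Two_uni (e e' : OO) (he : e ∈ EE4) (he' : e' ∈ EE4) (h : (2 : OO) ∣ e - e') :
    e = e' := by
  rw [Two_dvd, QuadraticAlgebra.re_sub, QuadraticAlgebra.im_sub] at h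
  obtain ⟨h1, h2⟩ := Two_coord e he
  obtain ⟨h3, h4⟩ := Two_coord e' he'
  apply QuadraticAlgebra.ext <;> omega

private theorem Two_ex (w : OO) : ∃ e ∈ EE4, (2 : OO) ∣ w - e := by
  have hr : w.re % 2 = 0 ∨ w.re % 2 = 1 := by omega
  have hi : w.im % 2 = 0 ∨ w.im % 2 = 1 := by omega
  rcases hr with hr | hr <;> rcases hi with hi | hi
  · refine ⟨0, (Two_memE _).2 (Or.inl rfl), ?_⟩
    rw [Two_dvd]
    change (2 : ℤ) ∣ w.re - 0 ∧ (2 : ℤ) ∣ w.im - 0
    omega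
  · refine ⟨pO, (Two_memE _).2 (Or.inr (Or.inr (Or.inl rfl))), ?_⟩
    rw [Two_dvd]
    change (2 : ℤ) ∣ w.re - 0 ∧ (2 : ℤ) ∣ w.im - 1
    omega
  · refine ⟨1, (Two_memE _).2 (Or.inr (Or.inl rfl)), ?_⟩
    rw [Two_dvd]
    change (2 : ℤ) ∣ w.re - 1 ∧ (2 : ℤ) ∣ w.im - 0
    omega
  · refine ⟨1 + pO, (Two_memE _).2 (Or.inr (Or.inr (Or.inr rfl))), ?_⟩
    rw [Two_dvd]
    change (2 : ℤ) ∣ w.re - (1 + 0) ∧ (2 : ℤ) ∣ w.im - (0 + 1)
    omega

private theorem Two_inj (hUNm : S_UNm) : Function.Injective toC := hUNm.2.2.2.2.2.2.2.2.1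

/-- The points `e v / 2` are a system of representatives of `(1/2) O / O`. -/
private theorem Two_sys (hUNm : S_UNm) (v : OO) (hv : (2 : OO) ∣ v - 1) :
    Set.InjOn (fun e : OO => toC (e * v) / 2) (EE4 : Set OO) ∧
      ∀ R : Finset ℂ, (∀ w : ℂ, w ∈ R ↔ ∃ e ∈ EE4, toC (e * v) / 2 = w) → IsSys 2 R := by
  obtain ⟨t, ht⟩ := hv
  have hdiff : ∀ e e' x : OO, toC (e * v) / 2 - toC (e' * v) / 2 = toC x → (2 : OO) ∣ e - e' := by
    intro e e' x h
    have h1 : toC (e * v - e' * v) = toC (2 * x) := by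
      rw [map_sub, map_mul toC 2 x, map_ofNat, ← h]
      ring
    have h2 := Two_inj hUNm h1
    refine ⟨x - (e - e') * t, ?_⟩
    linear_combination h2 - (e - e') * ht
  refine ⟨?_, fun R hR => ⟨?_, ?_, ?_⟩⟩
  · intro e he e' he' h
    apply Two_uni e e' he he'
    apply hdiff e e' 0
    rw [map_zero]
    exact sub_eq_zero.2 h
  · intro w hw
    obtain ⟨e, -, rfl⟩ := (hR w).1 hw
    refine ⟨e * v, ?_⟩
    rw [map_ofNat]
    ring
  · rintro z ⟨w, hw⟩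
    obtain ⟨e, he, u, hu⟩ := Two_ex w
    refine ⟨toC (e * v) / 2, (hR _).2 ⟨e, he, rfl⟩, u - e * t, ?_⟩
    rw [map_ofNat] at hw
    have h1 : w - e * v = 2 * (u - e * t) := by
      linear_combination hu - e * ht
    have h2 : toC w - toC (e * v) = 2 * toC (u - e * t) := by
      rw [← map_sub, h1, map_mul, map_ofNat]
    linear_combination hw / 2 + h2 / 2
  · rintro u hu u' hu' ⟨x, hx⟩
    obtain ⟨e, he, rfl⟩ := (hR u).1 hu
    obtain ⟨e', he', rfl⟩ := (hR u').1 hu'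
    rw [Two_uni e e' he he' (hdiff e e' x hx)]

theorem tTwo : S_Two := by
  classical
  intro hD7 hD8 hE15 hUNm hUCop hUEx hUHN hRp hUBb hTwR f μ S N T hf h7 hμ hS hN hT v hv T' hT' s
    hs a ha hHN hnHN
  have hfpos : 0 < f := hf.pos
  have hinj := Two_inj hUNm
  have hcopN := hUCop.2.2.2.1
  have hv2 : (2 : OO) ∣ v - 1 := (hUCop.2.2.2.2.1 v).1 ((hcopN v 2 f).1 hv).1
  have hμ2 : IsCoprime μ 2 := (hUCop.2.2.2.2.2.2.1 μ).2 ((hcopN μ 2 f).1 hμ).1
  have h20 : (2 : OO) ≠ 0 := by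
    intro h
    have h1 := congrArg QuadraticAlgebra.re h
    exact absurd h1 (by decide)
  obtain ⟨c, hc0, -, hc⟩ := hD7 μ S hμ2 hS 2 h20 hμ2.symm
  have hcK : c ∈ KQ := (hE15 μ S hμ2 hS).2 2 c h20 hμ2.symm hc
  -- the function G
  have hm' : 0 < f * 2 ^ (N + 1) := Nat.mul_pos hfpos (by positivity)
  have hm'C : ((f * 2 ^ (N + 1) : ℕ) : ℂ) ≠ 0 := Nat.cast_ne_zero.2 hm'.ne'
  let G : OO → Om := fun t => Theta μ S (toC (t * v) / (f * 2 ^ (N + 1) : ℕ))
  have hTor : ∀ t : OO, Tor (toC (t * v) / (f * 2 ^ (N + 1) : ℕ)) := fun t =>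
    ⟨t * v, f * 2 ^ (N + 1), hm', rfl⟩
  have hGper : ∀ t u : OO, G (t + (f * 2 ^ (N + 1) : ℕ) * u) = G t := by
    intro t u
    have h1 : toC ((t + (f * 2 ^ (N + 1) : ℕ) * u) * v) / (f * 2 ^ (N + 1) : ℕ) =
        toC (t * v) / (f * 2 ^ (N + 1) : ℕ) + toC (u * v) := by
      have h2 : (t + (f * 2 ^ (N + 1) : ℕ) * u) * v = t * v + (f * 2 ^ (N + 1) : ℕ) * (u * v) := by
        ring
      rw [h2, map_add, map_mul toC ((f * 2 ^ (N + 1) : ℕ) : OO), map_natCast, add_div,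
        mul_div_cancel_left₀ _ hm'C]
    change Theta μ S _ = Theta μ S _
    rw [h1]
    exact (hD8 μ S S hS hS _ (hTor t)).2.2.1 (u * v)
  have hGeven : ∀ t : OO, G (-t) = G t := by
    intro t
    have h1 : toC (-t * v) / (f * 2 ^ (N + 1) : ℕ) = -(toC (t * v) / (f * 2 ^ (N + 1) : ℕ)) := by
      rw [neg_mul, map_neg, neg_div]
    change Theta μ S _ = Theta μ S _
    rw [h1]
    exact (hD8 μ S S hS hS _ (hTor t)).2.1
  obtain ⟨A1, A2, A3, A4, A5⟩ := hTwR f N T T' a hf h7 hN hT hT' hHN hnHN EE4 rfl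
  -- the left side
  have hu1 : uN f (N + 1) μ S T' v = ∏ h ∈ T', G h := rfl
  have hu2 : s (uN f (N + 1) μ S T' v) = ∏ h ∈ T', G (a * h) := by
    rw [(hUBb f μ S (N + 1) T' hf h7 hμ hS (by omega) hT' v hv).2 s hs a ha]
    unfold uN
    refine Finset.prod_congr rfl fun h _ => ?_
    have h1 : h * (a * v) = a * h * v := by ring
    rw [h1]
  have hleft : uN f (N + 1) μ S T' v * s (uN f (N + 1) μ S T' v) =
      ∏ h ∈ T, ∏ e ∈ EE4, G (h + (f * 2 ^ N : ℕ) * e) := by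
    rw [hu2, hu1, ← Finset.prod_image (f := G) (g := fun h => a * h) A3,
      ← Finset.prod_union A2,
      hRp.1 (f * 2 ^ (N + 1)) (HN f N) _ _ Om G A1 A4 hGper hGeven, Finset.prod_image A5,
      Finset.prod_product]
  -- the inner products
  have hin : ∀ h ∈ T, ∏ e ∈ EE4, G (h + (f * 2 ^ N : ℕ) * e) =
      c * Theta μ S (toC (h * v) / (f * 2 ^ N : ℕ)) := by
    intro h hh
    obtain ⟨hI, hsys⟩ := Two_sys hUNm v hv2
    have hR := hsys (EE4.image fun e => toC (e * v) / 2) (fun w => Finset.mem_image)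
    have hnl : ¬ Lat (toC (2 * μ) * (toC (h * v) / (f * 2 ^ (N + 1) : ℕ))) := by
      intro hL
      rw [← mul_div_assoc, ← map_mul,
        (hUEx.2.2.2.2.2.2.2.2.2.2.2.1 (2 * μ * (h * v)) (f * 2 ^ (N + 1)) hm')] at hL
      have h1 : (f : OO) ∣ 2 * μ * (h * v) := by
        refine dvd_trans ?_ hL
        rw [Nat.cast_mul]
        exact Dvd.intro _ rfl
      have h2 : IsCoprime (2 : OO) (f : OO) := by
        obtain ⟨k, hk⟩ := hf
        refine ⟨-(k : OO), 1, ?_⟩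
        rw [hk]
        push_cast
        ring
      have h3 : IsCoprime μ (f : OO) := (hUCop.1 μ f).1 ((hcopN μ 2 f).1 hμ).2
      have h4 : IsCoprime h (f : OO) := (hUCop.1 h f).1 (hT.mem h hh).1.1
      have h5 : IsCoprime v (f : OO) := (hUCop.1 v f).1 ((hcopN v 2 f).1 hv).2
      have h6 := ((h2.mul_left h3).mul_left (h4.mul_left h5)).isUnit_of_dvd' h1 (dvd_refl _)
      rw [hUNm.2.2.2.2.2.2.2.2.2.2.2] at h6
      have h8 : (f : ℤ) = 1 ∨ (f : ℤ) = -1 := by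
        rcases h6 with h6 | h6
        · left
          exact congrArg QuadraticAlgebra.re h6
        · right
          exact congrArg QuadraticAlgebra.re h6
      omega
    have h1 := hc _ hR _ (hTor h) hnl
    rw [Finset.prod_image hI] at h1
    have h2 : toC 2 * (toC (h * v) / (f * 2 ^ (N + 1) : ℕ)) = toC (h * v) / (f * 2 ^ N : ℕ) := by
      rw [map_ofNat]
      have h3 : ((f * 2 ^ (N + 1) : ℕ) : ℂ) = 2 * ((f * 2 ^ N : ℕ) : ℂ) := by
        push_cast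
        ring
      rw [h3, ← mul_div_assoc, mul_div_mul_left _ _ two_ne_zero]
    rw [h2] at h1
    rw [← h1]
    refine Finset.prod_congr rfl fun e _ => ?_
    change Theta μ S _ = Theta μ S _
    apply congrArg
    have h3 : ((f * 2 ^ (N + 1) : ℕ) : ℂ) = ((f * 2 ^ N : ℕ) : ℂ) * 2 := by
      push_cast
      ring
    have h4 : ((f * 2 ^ N : ℕ) : ℂ) ≠ 0 :=
      Nat.cast_ne_zero.2 (Nat.mul_pos hfpos (by positivity)).ne'
    have h5 : (h + (f * 2 ^ N : ℕ) * e) * v = h * v + (f * 2 ^ N : ℕ) * (e * v) := by ring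
    rw [h5, map_add, add_div]
    congr 1
    rw [map_mul toC ((f * 2 ^ N : ℕ) : OO), map_natCast, h3, mul_div_mul_left _ _ h4]
  have h4 : 4 ∣ T.card := (hUHN f N hf h7).2.2.2.2.2.2.2.2.2.2.2.2 hN T hT
  obtain ⟨k, hk⟩ := h4
  refine ⟨c ^ (2 * k), ?_, pow_ne_zero _ hc0, ?_⟩
  · apply pow_mem
    intro τ hτ _ _ _
    exact (IntermediateField.mem_fixingSubgroup_iff KQ τ).1 hτ c hcK
  · rw [hleft, Finset.prod_congr rfl hin, Finset.prod_mul_distrib, Finset.prod_const, hk,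
      ← pow_mul, mul_comm]
    have h5 : 4 * k = 2 * k * 2 := by ring
    rw [h5]
    rfl

end Pool.Agent.DI.G
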