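import Pool.Agent.Lib.DI.G.Spec

/-!
# Theorem DI, part G, module UBa: elliptic units: units everywhere, periodicity, invariance
-/

set_option autoImplicit false

open scoped Pointwise

noncomputable section

namespace Pool.Agent.DI.G

open Pool.Agent.MuZ Pool.Agent.DI

private theorem uba_pO : toO pO = wO := by
  change ((0 : ℤ) : Om) + ((1 : ℤ) : Om) * wO = wO
  rw [Int.cast_zero, Int.cast_one, zero_add, one_mul]

private theorem uba_pbO : toO pbO = 1 - wO := by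
  change ((1 : ℤ) : Om) + ((-1 : ℤ) : Om) * wO = 1 - wO
  rw [Int.cast_one, Int.cast_neg, Int.cast_one]
  ring

private theorem uba_mul : pO * pbO = 2 := by
  apply QuadraticAlgebra.ext
  · change (pO * pbO).re = 2
    rw [QuadraticAlgebra.re_mul]
    change (0 : ℤ) * 1 + -2 * 1 * -1 = 2
    norm_num
  · change (pO * pbO).im = 0
    rw [QuadraticAlgebra.im_mul]
    change (0 : ℤ) * -1 + 1 * 1 + 1 * 1 * -1 = 0
    norm_num

/-- Dividing by `m`: numerators congruent modulo `m`. -/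
private theorem uba_add {m : ℕ} (hm : 0 < m) {x y : OO} (h : (m : OO) ∣ x - y) :
    ∃ k : OO, toC x / (m : ℂ) = toC y / (m : ℂ) + toC k := by
  obtain ⟨k, hk⟩ := h
  have hm' : (m : ℂ) ≠ 0 := by exact_mod_cast hm.ne'
  refine ⟨k, ?_⟩
  have e : x = y + (m : OO) * k := by rw [← hk]; ring
  rw [e, map_add, map_mul, map_natCast, add_div, mul_div_cancel_left₀ _ hm']

/-- The point `z + u` is not `Q`-primary, if `a` is not in `Q`. -/
private theorem uba_np {f N : ℕ} (hf : 0 < f) (hN : 1 ≤ N) (hinj : Function.Injective toC)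
    {a b : OO} (hab : a * b = 2) {μ x : OO} (hx : ¬ a ∣ μ * x) {Q : Ideal ZZ}
    [hQ : Q.IsPrime] (ha : ¬ MP Q (toO a)) {u : ℂ} (hu : Lat (toC μ * u)) :
    ¬ Qp Q (toC x / (f * 2 ^ N : ℕ) + u) := by
  intro h
  obtain ⟨c, hc⟩ := hu
  have hm : 0 < f * 2 ^ N := Nat.mul_pos hf (pow_pos two_pos N)
  have hm' : ((f * 2 ^ N : ℕ) : ℂ) ≠ 0 := Nat.cast_ne_zero.2 hm.ne'
  have hM : a ^ N * (μ * ((f : OO) * b ^ N)) = μ * ((f * 2 ^ N : ℕ) : OO) := by
    have e1 : a ^ N * b ^ N = (2 : OO) ^ N := by rw [← mul_pow, hab]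
    have e2 : ((f * 2 ^ N : ℕ) : OO) = (f : OO) * (a ^ N * b ^ N) := by
      rw [e1]
      push_cast
      ring
    rw [e2]
    ring
  have hz : toC (a ^ N * (μ * ((f : OO) * b ^ N))) * (toC x / (f * 2 ^ N : ℕ) + u) =
      toC (μ * x + ((f * 2 ^ N : ℕ) : OO) * c) := by
    rw [hM, map_mul, map_add, map_mul, map_mul, map_natCast, ← hc]
    field_simp
  have h1 := h (a ^ N) (μ * ((f : OO) * b ^ N)) (fun hh => ha (by
    rw [map_pow] at hh
    exact MP.of_pow hh)) ⟨_, hz⟩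
  obtain ⟨w, hw⟩ := h1
  have h2 : a ^ N * w = μ * x + ((f * 2 ^ N : ℕ) : OO) * c := by
    apply hinj
    rw [← hz, map_mul, ← hw, map_mul toC (a ^ N), mul_assoc]
  apply hx
  have h3 : a ∣ a ^ N * w := (dvd_pow_self a (by omega)).mul_right w
  have h4 : a ∣ ((f * 2 ^ N : ℕ) : OO) * c := by
    refine Dvd.dvd.mul_right ?_ c
    have e3 : ((f * 2 ^ N : ℕ) : OO) = (f : OO) * 2 ^ N := by push_cast; ring
    rw [e3, ← hab, mul_pow]
    exact (((dvd_pow_self a (by omega)).mul_right _).mul_left _)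
  rw [h2] at h3
  exact (dvd_add_left h4).1 h3

theorem tUBa : S_UBa := by
  intro hD5 hD8 hUN hUC hUEx hUHN hRp f μ S N T hf h7 hμ hS hN hT v hv
  obtain ⟨nm1, nm2, nm3, nm4, nm5, nm6, nm7, nm8, nm9, nm10, nm11, nm12⟩ := hUN
  obtain ⟨cp1, cp2, cp3, cp4, cp5, cp6, cp7, cp8⟩ := hUC
  obtain ⟨ex1, ex2, ex3, ex4, ex5, ex6, ex7, ex8, ex9, ex10, ex11, ex12, ex13⟩ := hUEx
  obtain ⟨hn1, hn2, hn3, hn4, hn5, hn6, hn7, hn8, hn9, hn10, hn11, hn12, hn13⟩ := hUHN f N hf h7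
  have hfpos : 0 < f := hf.pos
  have hm : 0 < f * 2 ^ N := Nat.mul_pos hfpos (pow_pos two_pos N)
  have hm' : ((f * 2 ^ N : ℕ) : ℂ) ≠ 0 := Nat.cast_ne_zero.2 hm.ne'
  obtain ⟨hμ2, hμf⟩ := (cp4 μ 2 f).1 hμ
  obtain ⟨hv2, hvf⟩ := (cp4 v 2 f).1 hv
  have hμc : IsCoprime μ 2 := (cp7 μ).2 hμ2
  have tor : ∀ x : OO, Tor (toC x / (f * 2 ^ N : ℕ)) := fun x => ⟨x, _, hm, rfl⟩
  -- periodic and even
  have per : ∀ x y : OO, ((f * 2 ^ N : ℕ) : OO) ∣ x - y →
      Theta μ S (toC x / (f * 2 ^ N : ℕ)) = Theta μ S (toC y / (f * 2 ^ N : ℕ)) := by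
    intro x y h
    obtain ⟨k, hk⟩ := uba_add hm h
    rw [hk]
    exact (hD8 μ S S hS hS _ (tor y)).2.2.1 k
  have evn : ∀ x : OO, Theta μ S (toC (-x) / (f * 2 ^ N : ℕ)) =
      Theta μ S (toC x / (f * 2 ^ N : ℕ)) := by
    intro x
    rw [map_neg, neg_div]
    exact (hD8 μ S S hS hS _ (tor x)).2.1
  have gper : ∀ t u : OO, Theta μ S (toC ((t + ((f * 2 ^ N : ℕ) : OO) * u) * v) / (f * 2 ^ N : ℕ)) =
      Theta μ S (toC (t * v) / (f * 2 ^ N : ℕ)) := by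
    intro t u
    exact per _ _ ⟨u * v, by ring⟩
  have gev : ∀ t : OO, Theta μ S (toC (-t * v) / (f * 2 ^ N : ℕ)) =
      Theta μ S (toC (t * v) / (f * 2 ^ N : ℕ)) := by
    intro t
    rw [neg_mul]
    exact evn _
  -- the points are prime to `2`
  have c2 : ∀ h ∈ T, Cop (μ * (h * v)) 2 := by
    intro h hh
    have h1 : Cop h (f * 2 ^ N) := hn7 h (hT.mem h hh)
    have h2 : Cop h 2 := by
      have e : f * 2 ^ N = f * 2 ^ (N - 1) * 2 := by
        obtain ⟨k, rfl⟩ : ∃ k, N = k + 1 := ⟨N - 1, by omega⟩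
        simp [pow_succ, mul_assoc]
      rw [e] at h1
      exact ((cp4 h _ 2).1 h1).2
    exact (cp2 _ _ _).2 ⟨hμ2, (cp2 _ _ _).2 ⟨h2, hv2⟩⟩
  have unit : ∀ h ∈ T, ∀ Q : Ideal ZZ, Npr Q → UP Q (Theta μ S (toC (h * v) / (f * 2 ^ N : ℕ))) := by
    intro h hh Q hQ
    have := hQ.1
    refine hD5 μ S hμc hS Q hQ _ (tor _) fun u hu => ?_
    obtain ⟨n1, n2⟩ := (cp6 _).1 (c2 h hh)
    by_cases hw : MP Q wO
    · refine uba_np (a := pbO) (b := pO) hfpos hN nm9 (by rw [mul_comm]; exact uba_mul) n2 ?_ hu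
      rw [uba_pbO]
      intro h1
      apply MP.one_not (P := Q)
      have e : (1 : Om) = (1 - wO) + wO := by ring
      rw [e]
      exact h1.add hw
    · refine uba_np (a := pO) (b := pbO) hfpos hN nm9 uba_mul n1 ?_ hu
      rw [uba_pO]
      exact hw
  refine ⟨?_, ?_, ?_, ?_, ?_⟩
  · unfold uN
    refine Finset.prod_ne_zero_iff.2 fun h hh => ?_
    refine (hD8 μ S S hS hS _ (tor _)).2.2.2 fun hL => ?_
    have e1 : toC μ * (toC (h * v) / (f * 2 ^ N : ℕ)) = toC (μ * (h * v)) / (f * 2 ^ N : ℕ) := by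
      rw [map_mul toC μ, mul_div_assoc]
    rw [e1] at hL
    have h1 := (ex12 _ _ hm).1 hL
    apply ((cp6 _).1 (c2 h hh)).1
    refine Dvd.dvd.trans ?_ h1
    have e3 : ((f * 2 ^ N : ℕ) : OO) = (f : OO) * 2 ^ N := by push_cast; ring
    rw [e3, ← uba_mul, mul_pow]
    exact (((dvd_pow_self pO (by omega)).mul_right _).mul_left _)
  · intro Q hQ
    have := hQ.1
    unfold uN
    exact UP.prod _ _ fun h hh => unit h hh Q hQ
  · intro v' hv'
    unfold uN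
    refine Finset.prod_congr rfl fun h _ => per _ _ ?_
    obtain ⟨k, hk⟩ := hv'
    exact ⟨h * k, by rw [← mul_sub, hk]; ring⟩
  · intro h hh
    have h1 : IsCoprime h ((f * 2 ^ N : ℕ) : OO) := (cp1 _ _).1 (hn7 h hh)
    obtain ⟨a, b, hab⟩ := h1
    have h2 : ((f * 2 ^ N : ℕ) : OO) ∣ h * a - 1 := ⟨-b, by linear_combination hab⟩
    have h3 : HN f N a := hn11 h a hh h2
    have h4 := hRp.2 (f * 2 ^ N) (HN f N) T Om
      (fun t => Theta μ S (toC (t * v) / (f * 2 ^ N : ℕ))) h a (isRep_iff.1 hT) h2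
      (fun x hx => hn3 h x hh hx) (fun x hx => hn3 a x h3 hx) gper gev
    unfold uN
    rw [← h4]
    refine Finset.prod_congr rfl fun t _ => ?_
    have e : t * (h * v) = h * t * v := by ring
    rw [e]
  · intro T' hT'
    exact hRp.1 (f * 2 ^ N) (HN f N) T' T Om
      (fun t => Theta μ S (toC (t * v) / (f * 2 ^ N : ℕ))) (isRep_iff.1 hT') (isRep_iff.1 hT)
      gper gev

end Pool.Agent.DI.G
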