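import Pool.Agent.Lib.DI.G.Spec

/-!
# Theorem DI, part G, module UBb: elliptic units, Galois action and field
-/

set_option autoImplicit false

open scoped Pointwise

noncomputable section

namespace Pool.Agent.DI.G

open Pool.Agent.MuZ Pool.Agent.DI

private theorem nm_pos {μ : OO} {f : ℕ} (hf : Odd f) (hN : S_UNm) (hμ : Cop μ (2 * f)) :
    0 < (Nm μ).toNat := by
  obtain ⟨-, hN0, -⟩ := hN
  have h0 : Nm μ ≠ 0 := by
    intro h
    unfold Cop at hμ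
    rw [h, isCoprime_zero_left, Int.isUnit_iff] at hμ
    have : 0 < f := hf.pos
    rcases hμ with h1 | h1 <;> push_cast at h1 <;> omega
  have := hN0 μ
  omega

private theorem tor_div' (v : OO) {m : ℕ} (hm : 0 < m) : Tor (toC v / (m : ℕ)) := ⟨v, m, hm, rfl⟩

private theorem psi_down {τ : Gal(Om/ℚ)} {m k : ℕ} {a : OO} (hU : S_UCop) (hm : 0 < m)
    (hk : 0 < k) (h : Psi τ (m * k) a) : Psi τ m a := by
  obtain ⟨-, -, -, hU4, -⟩ := hU
  refine ⟨((hU4 a m k).1 h.1).1, fun v => ?_⟩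
  have hm' : (m : ℂ) ≠ 0 := by exact_mod_cast hm.ne'
  have hk' : (k : ℂ) ≠ 0 := by exact_mod_cast hk.ne'
  have e : ∀ u : OO, toC ((k : OO) * u) / ((m * k : ℕ) : ℂ) = toC u / (m : ℂ) := by
    intro u
    rw [map_mul, map_natCast]
    push_cast
    field_simp
  have h2 := h.2 ((k : OO) * v)
  have e2 : a * ((k : OO) * v) = (k : OO) * (a * v) := by ring
  rw [e2, e, e] at h2
  exact h2

theorem tUBb : S_UBb := by
  intro hE1 hE15 hD8 hUN hUC hA f μ S N T hf h7 hμ hS hN hT v hv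
  have hm : 0 < f * 2 ^ N := Nat.mul_pos hf.pos (by positivity)
  have hn : 0 < (Nm μ).toNat := nm_pos hf hUN hμ
  have hμ2 : IsCoprime μ 2 := by
    obtain ⟨-, -, -, hU4, -, -, hU7, -⟩ := hUC
    exact (hU7 μ).2 ((hU4 μ 2 f).1 hμ).1
  have key : ∀ τ ∈ GK, ∀ a : OO, Psi τ (f * 2 ^ N) a →
      τ (uN f N μ S T v) = uN f N μ S T (a * v) := by
    intro τ hτ a ha
    obtain ⟨a', ha'⟩ := hE1.1 τ hτ (f * 2 ^ N * (Nm μ).toNat) (Nat.mul_pos hm hn)
    have ha2 : Psi τ (f * 2 ^ N) a' := psi_down hUC hm hn ha'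
    obtain ⟨k, hk⟩ := hE1.2 τ (f * 2 ^ N) a a' hm ha ha2
    unfold uN
    rw [map_prod]
    refine Finset.prod_congr rfl fun t ht => ?_
    rw [(hE15 μ S hμ2 hS).1 τ hτ (f * 2 ^ N) a' (t * v) hm ha']
    have e : a' * (t * v) = t * (a * v) + ((f * 2 ^ N : ℕ) : OO) * (-(k * (t * v))) := by
      have h1 : a' = a - ((f * 2 ^ N : ℕ) : OO) * k := by rw [← hk]; ring
      rw [h1]
      ring
    have hm' : ((f * 2 ^ N : ℕ) : ℂ) ≠ 0 := by exact_mod_cast hm.ne'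
    have e2 : toC (a' * (t * v)) / ((f * 2 ^ N : ℕ) : ℂ) =
        toC (t * (a * v)) / ((f * 2 ^ N : ℕ) : ℂ) + toC (-(k * (t * v))) := by
      rw [e, map_add, map_mul toC ((f * 2 ^ N : ℕ) : OO), map_natCast, add_div,
        mul_div_cancel_left₀ _ hm']
    rw [e2]
    exact (hD8 μ S S hS hS _ (tor_div' _ hm)).2.2.1 _
  refine ⟨?_, key⟩
  intro τ hτ a ha hH
  rw [key τ hτ a ha]
  exact (hA f μ S N T hf h7 hμ hS hN hT v hv).2.2.2.1 a hH

end Pool.Agent.DI.G
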