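import Pool.Agent.Lib.DI.G.Spec
import Pool.Agent.Lib.DI.FH.Unr

set_option autoImplicit false

open scoped Pointwise

namespace Pool.Agent.DI.G

open Pool.Agent.MuZ Pool.Agent.DI

theorem tUnrG : C_UnrG := fun M hfd hM P hN h2 hI => FH.unrG M hfd hM P hN h2 hI

end Pool.Agent.DI.G
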