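import Pool.Agent.Lib.DI.G.Spec

/-! # Theorem DI, part G, module V0: the element `v0` (helper92) -/

set_option autoImplicit false

noncomputable section

namespace Pool.Agent.DI.G

open Pool.Agent.MuZ Pool.Agent.DI

private theorem V0_cj (v : OO) : cjO v = star v := by
  refine QuadraticAlgebra.ext ?_ ?_
  · rw [QuadraticAlgebra.re_star]
    change v.re + v.im = v.re + 1 * v.im
    ring
  · rw [QuadraticAlgebra.im_star]
    rfl

private theorem V0_star_pO : star pO = pbO := by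
  rw [← V0_cj]
  rfl

private theorem V0_star_pbO : star pbO = pO := by
  rw [← V0_cj]
  rfl

private theorem V0_add : pO + pbO = 1 := by
  refine QuadraticAlgebra.ext ?_ ?_ <;> rfl

private theorem V0_mul : pO * pbO = 2 := by
  refine QuadraticAlgebra.ext ?_ ?_
  · rw [QuadraticAlgebra.re_mul]
    decide
  · rw [QuadraticAlgebra.im_mul]
    decide

private theorem V0_cop : IsCoprime pO pbO := ⟨1, 1, by rw [one_mul, one_mul, V0_add]⟩

private theorem V0_dvd {N : ℕ} {n : ℤ} (h : (2 : OO) ^ N ∣ (n : OO)) : (2 : ℤ) ^ N ∣ n := by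
  obtain ⟨q, hq⟩ := h
  refine ⟨q.re, ?_⟩
  have h1 := congrArg QuadraticAlgebra.re hq
  have h2 : (2 : OO) ^ N = (((2 : ℤ) ^ N : ℤ) : OO) := by
    push_cast
    rfl
  rw [h2, QuadraticAlgebra.re_mul, QuadraticAlgebra.re_intCast, QuadraticAlgebra.re_intCast,
    QuadraticAlgebra.im_intCast, mul_zero, zero_mul, add_zero] at h1
  exact h1

theorem tV0 : S_V0 := by
  intro hNm hCop f N a0 hf ha0 hN
  obtain ⟨k, hk⟩ := hf
  have hfO : (f : OO) = 1 + pO * (pbO * k) := by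
    rw [hk]
    push_cast
    linear_combination (-(k : OO)) * V0_mul
  have c1 : IsCoprime (f : OO) pO := ⟨1, -(pbO * k), by rw [hfO]; ring⟩
  have c2 : IsCoprime ((f : OO) * pbO ^ N) (pO ^ N) :=
    IsCoprime.mul_left c1.pow_right V0_cop.symm.pow
  obtain ⟨x, y, hxy⟩ := c2
  obtain ⟨t, ht⟩ : ∃ t : OO, t = x * ((a0 : OO) - 1) := ⟨_, rfl⟩
  obtain ⟨v0, hv0⟩ : ∃ v0 : OO, v0 = 1 + f * (pbO ^ N * t) := ⟨_, rfl⟩
  obtain ⟨y', hy'⟩ : ∃ y' : OO, y' = y * ((a0 : OO) - 1) := ⟨_, rfl⟩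
  have e1 : v0 = a0 - pO ^ N * y' := by
    rw [hv0, ht, hy']
    linear_combination ((a0 : OO) - 1) * hxy
  have e2 : star v0 = 1 + pO ^ N * (f * star t) := by
    rw [hv0]
    simp only [star_add, star_mul', star_one, star_natCast, star_pow, V0_star_pbO]
    ring
  have e3 : star v0 = a0 - pbO ^ N * star y' := by
    rw [e1]
    simp only [star_sub, star_mul', star_intCast, star_pow, V0_star_pO]
  have hn : ((Nm v0 : ℤ) : OO) = v0 * star v0 := by
    rw [← V0_cj]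
    exact hNm.2.2.2.2.1 v0
  have d1 : pO ^ N ∣ (((Nm v0 - a0 : ℤ)) : OO) := by
    push_cast
    rw [hn, e2]
    refine ⟨v0 * (f * star t) - y', ?_⟩
    linear_combination e1
  have d2 : pbO ^ N ∣ (((Nm v0 - a0 : ℤ)) : OO) := by
    push_cast
    rw [hn, e3]
    refine ⟨(f * t) * a0 - v0 * star y', ?_⟩
    linear_combination (a0 : OO) * hv0
  have d3 : (2 : OO) ^ N ∣ (((Nm v0 - a0 : ℤ)) : OO) := by
    rw [← V0_mul, mul_pow]
    exact V0_cop.pow.mul_dvd d1 d2
  have d4 := V0_dvd d3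
  refine ⟨v0, ⟨pbO ^ N * t, by rw [hv0]; ring⟩, d4, ?_⟩
  rw [hCop.2.2.2.1]
  constructor
  · obtain ⟨q, hq⟩ := d4
    obtain ⟨a, ha⟩ := ha0
    obtain ⟨n, rfl⟩ : ∃ n, N = n + 1 := ⟨N - 1, by omega⟩
    refine ⟨1, -(2 ^ n * q + a), ?_⟩
    push_cast
    rw [pow_succ] at hq
    linear_combination hq + ha
  · have h1 : v0 = 1 + (f : OO) * (pbO ^ N * t) := hv0
    rw [h1, hCop.2.2.1]
    refine ⟨1, 0, ?_⟩
    have h2 : Nm 1 = 1 := by
      have := hNm.2.2.2.1 1
      simpa using this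
    rw [h2]
    ring

end Pool.Agent.DI.G
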