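import Pool.Agent.Lib.DI.Util.UNm
import Pool.Agent.Lib.DI.Util.UCop
import Pool.Agent.Lib.DI.Util.UEps
import Pool.Agent.Lib.DI.Util.UEx
import Pool.Agent.Lib.DI.Util.USum
import Pool.Agent.Lib.DI.Util.UHN
import Pool.Agent.Lib.DI.G.G1
import Pool.Agent.Lib.DI.G.Rp
import Pool.Agent.Lib.DI.G.RpS
import Pool.Agent.Lib.DI.G.SN
import Pool.Agent.Lib.DI.G.Tra
import Pool.Agent.Lib.DI.G.Rdz
import Pool.Agent.Lib.DI.G.GSm
import Pool.Agent.Lib.DI.G.ThT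
import Pool.Agent.Lib.DI.G.UBa
import Pool.Agent.Lib.DI.G.UBb
import Pool.Agent.Lib.DI.G.TwR
import Pool.Agent.Lib.DI.G.Two
import Pool.Agent.Lib.DI.G.G3A
import Pool.Agent.Lib.DI.G.DU
import Pool.Agent.Lib.DI.G.Chi
import Pool.Agent.Lib.DI.G.Fou1
import Pool.Agent.Lib.DI.G.Fou2
import Pool.Agent.Lib.DI.G.Uni
import Pool.Agent.Lib.DI.G.UnrG
import Pool.Agent.Lib.DI.G.ChiF
import Pool.Agent.Lib.DI.G.SNo
import Pool.Agent.Lib.DI.G.BS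
import Pool.Agent.Lib.DI.G.BN
import Pool.Agent.Lib.DI.G.RpD
import Pool.Agent.Lib.DI.G.BD
import Pool.Agent.Lib.DI.G.V0
import Pool.Agent.Lib.DI.G.G7A

/-! Theorem DI, part G, G3 - G7: assembly. -/

set_option autoImplicit false

namespace Pool.Agent.DI.G

open Pool.Agent.DI

section

variable (hD5 : S_D5) (hD7 : S_D7) (hD8 : S_D8) (hE1 : S_E1) (hE15 : S_E15)

include hD5 hD8 in
theorem aUBa : C_UBa := tUBa hD5 hD8 tUNm tUCop tUEx tUHN tRp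

include hD5 hD8 hE1 hE15 in
theorem aUBb : C_UBb := tUBb hE1 hE15 hD8 tUNm tUCop (aUBa hD5 hD8)

include hD5 hD7 hD8 hE1 hE15 in
theorem aTwo : C_Two :=
  tTwo hD7 hD8 hE15 tUNm tUCop tUEx tUHN tRp (aUBb hD5 hD8 hE1 hE15) (tTwR tUNm tUCop tUHN)

include hD5 hD7 hD8 hE1 hE15 in
/-- **G3.** -/
theorem aG3 : S_G3 :=
  tG3A (aUBa hD5 hD8) (aUBb hD5 hD8 hE1 hE15) (aTwo hD5 hD7 hD8 hE1 hE15)

end

/-- **G7.** -/
theorem aG7 (hA0 : S_A0) (hA2 : S_A2) (hB2 : S_B2) (hB4 : S_B4) (hB7 : S_B7) (hB10 : S_B10)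
    (hD1 : S_D1) (hD5 : S_D5) (hD8 : S_D8) (hE1 : S_E1) (hE7 : S_E7) (hE8 : S_E8) (hE9 : S_E9)
    (hE11 : S_E11) (hE12 : S_E12) (hE13 : S_E13) (hE15 : S_E15) (hF : S_F) : S_G7 := by
  have hG1 : S_G1 := tG1 hE12 hE13 hF
  have hChi : C_Chi := tChi tUCop tUEps
  have hFou1 : C_Fou1 := tFou1 hA2 hE11 hChi
  have hFou2 : C_Fou2 := tFou2 hA2 hE12 hE13 tUCop hChi hFou1
  have hChiF : C_ChiF := tChiF hE8 hE9 tUHN tUnrG
  have hSNo : C_SNo := tSNo hG1 hA2 hE12 hE13 tUNm tUCop hChi hFou2 tUni hChiF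
  have hBS : C_BS := tBS hB2 tUNm tUCop tUEps tUSum hChi
  have hBN : C_BN := tBN tUNm tUCop tUEps hChi hSNo hBS
  have hBD : C_BD := tBD hA0 hB2 tUNm tUCop tUEps tUEx hChi (tRpS tUSum) (tRpD tUNm tUCop tUHN)
  have hRdz : C_Rdz := tRdz hD1 tUNm tUCop tUEx
  have hGSm : C_GSm := tGSm hA0 hB2 hB4 hB10 tUNm tUEx
  have hThT : C_ThT := tThT hA0 hB7 tUCop hRdz hGSm
  have hUBa : C_UBa := aUBa hD5 hD8
  have hUBb : C_UBb := aUBb hD5 hD8 hE1 hE15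
  have hDU : C_DU := tDU hD8 tUCop tUHN (tTra tUCop) hThT hUBa hUBb
  exact tG7A tUNm tUCop tUEps tUEx tUHN hChi (tSN hE7 tUCop) (tV0 tUNm tUCop) hBN hBD hDU

end Pool.Agent.DI.G
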