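import Pool.Agent.Lib.DI.G.Spec

/-!
# Theorem DI, part G, module BS: the smoothing identity
-/

set_option autoImplicit false

open scoped Pointwise

noncomputable section

namespace Pool.Agent.DI.G

open Pool.Agent.MuZ Pool.Agent.DI

private theorem bs_nm (v u : OO) (m : ℕ) : (m : ℤ) ∣ Nm (v + m * u) - Nm v := by
  have h1 : (v + (m : OO) * u).re = v.re + m * u.re := by
    rw [QuadraticAlgebra.re_add, QuadraticAlgebra.re_mul]
    simp
  have h2 : (v + (m : OO) * u).im = v.im + m * u.im := by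
    rw [QuadraticAlgebra.im_add, QuadraticAlgebra.im_mul]
    simp
  refine ⟨2 * v.re * u.re + m * u.re ^ 2 + v.re * u.im + v.im * u.re + m * u.re * u.im +
    4 * v.im * u.im + 2 * m * u.im ^ 2, ?_⟩
  unfold Nm
  rw [h1, h2]
  ring

private theorem bs_cnd (N m : ℕ) (hm : 2 ^ N ∣ m) (a : ℤ) (v u : OO) :
    Cnd N a (v + m * u) ↔ Cnd N a v := by
  have h0 : (2 : ℤ) ^ N ∣ Nm (v + m * u) - Nm v := by
    have h1 : ((2 ^ N : ℕ) : ℤ) ∣ (m : ℤ) := by exact_mod_cast hm
    have h2 := h1.trans (bs_nm v u m)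
    rwa [Nat.cast_pow, Nat.cast_ofNat] at h2
  unfold Cnd
  have e1 : Nm (v + m * u) - a = (Nm (v + m * u) - Nm v) + (Nm v - a) := by ring
  have e2 : Nm (v + m * u) + a = (Nm (v + m * u) - Nm v) + (Nm v + a) := by ring
  rw [e1, e2, dvd_add_right h0, dvd_add_right h0]

private theorem bs_cnd_mul (hNm : ∀ v u : OO, Nm (v * u) = Nm v * Nm u) (N : ℕ) (a : ℤ) (μ v : OO)
    (hμ : IsCoprime (Nm μ) 2) : Cnd N (a * Nm μ) (μ * v) ↔ Cnd N a v := by
  have hc : IsCoprime ((2 : ℤ) ^ N) (Nm μ) := hμ.symm.pow_left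
  have key : ∀ x : ℤ, (2 : ℤ) ^ N ∣ Nm μ * x ↔ (2 : ℤ) ^ N ∣ x := fun x =>
    ⟨fun h => hc.dvd_of_dvd_mul_left h, fun h => h.mul_left _⟩
  unfold Cnd
  have e1 : Nm (μ * v) - a * Nm μ = Nm μ * (Nm v - a) := by rw [hNm]; ring
  have e2 : Nm (μ * v) + a * Nm μ = Nm μ * (Nm v + a) := by rw [hNm]; ring
  rw [e1, e2, key, key]

private theorem bs_mul (m : ℕ) (F : OO → Om) (c : Om) :
    sumO m (fun v => c * F v) = c * sumO m F := by
  unfold sumO
  rw [Finset.mul_sum]
  refine Finset.sum_congr rfl fun a _ => ?_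
  rw [Finset.mul_sum]

private theorem bs_sub (m : ℕ) (F G : OO → Om) :
    sumO m (fun v => F v - G v) = sumO m F - sumO m G := by
  unfold sumO
  rw [← Finset.sum_sub_distrib]
  refine Finset.sum_congr rfl fun a _ => ?_
  rw [← Finset.sum_sub_distrib]

/-- **BS.** -/
theorem tBS : S_BS := by
  intro hB2 hNm hCop hEps hSum _ f χ μ hf h7 hχ hμ N a
  classical
  set m : ℕ := f * 2 ^ N with hm
  have hf0 : 0 < f := hf.pos
  have hm0 : 0 < m := Nat.mul_pos hf0 (by positivity)
  have hmC : (m : ℂ) ≠ 0 := by exact_mod_cast hm0.ne'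
  have hμ2 : IsCoprime (Nm μ) 2 :=
    IsCoprime.of_isCoprime_of_dvd_right hμ ⟨(f : ℤ), by push_cast; ring⟩
  have hμf : IsCoprime (Nm μ) (f : ℤ) :=
    IsCoprime.of_isCoprime_of_dvd_right hμ ⟨2, by push_cast; ring⟩
  have hμm : Cop μ m := by
    unfold Cop
    rw [hm]
    push_cast
    exact IsCoprime.mul_right hμf (hμ2.pow_right)
  have hμ7 : Cop μ 7 := by
    unfold Cop
    exact IsCoprime.of_isCoprime_of_dvd_right hμf (by exact_mod_cast h7)
  have hcop : IsCoprime μ (m : OO) := (hCop.1 μ m).1 hμm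
  have hne : (eps μ : Om) * χ μ ≠ 0 := by
    refine mul_ne_zero ?_ ?_
    · have h1 := hEps.2.2.2.2.2.2.2.2.1 μ hμ7
      intro h0
      have h2 : eps μ = 0 := by exact_mod_cast h0
      rw [h2] at h1
      norm_num at h1
    · obtain ⟨k, hk, hk'⟩ := hχ.odd
      intro h0
      have h1 := hk' μ hμf
      rw [h0, zero_pow hk.pos.ne'] at h1
      exact zero_ne_one h1
  -- the summand
  let F : OO → Om := fun v =>
    if Cnd N (a * Nm μ) v then (eps v : Om) * χ v * eO (toC v / (m : ℕ)) else 0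
  let G : OO → Om := fun v =>
    if Cnd N a v then (eps v : Om) * χ v * eO (toC μ * (toC v / (m : ℕ))) else 0
  let H : OO → Om := fun v =>
    if Cnd N a v then (eps v : Om) * χ v * eO (toC v / (m : ℕ)) else 0
  have hper : ∀ v u : OO, F (v + m * u) = F v := by
    intro v u
    have e1 := bs_cnd N m ⟨f, by rw [hm]; ring⟩ (a * Nm μ) v u
    have e2 : eps (v + m * u) = eps v := by
      obtain ⟨k, hk⟩ := h7
      have : v + (m : OO) * u = v + 7 * (((k * 2 ^ N : ℕ) : OO) * u) := by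
        rw [hm, hk]
        push_cast
        ring
      rw [this, hEps.2.1]
    have e3 : χ (v + m * u) = χ v := by
      have : v + (m : OO) * u = v + f * (((2 ^ N : ℕ) : OO) * u) := by
        rw [hm]
        push_cast
        ring
      rw [this, hχ.per]
    have e4 : eO (toC (v + m * u) / (m : ℕ)) = eO (toC v / (m : ℕ)) := by
      have : toC (v + m * u) / (m : ℂ) = toC v / m + toC u := by
        rw [map_add, map_mul, map_natCast]
        field_simp
      unfold eO
      rw [this, (hB2.1 _ u).2.2]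
    simp only [F]
    rw [e2, e3, e4]
    exact if_congr e1 rfl rfl
  have hFG : ∀ v : OO, F (μ * v) = ((eps μ : Om) * χ μ) * G v := by
    intro v
    have e1 := bs_cnd_mul hNm.1 N a μ v hμ2
    have e2 : toC (μ * v) / (m : ℂ) = toC μ * (toC v / m) := by
      rw [map_mul]
      ring
    simp only [F, G]
    rw [hEps.1, hχ.mul, e2]
    by_cases h : Cnd N a v
    · rw [if_pos h, if_pos (e1.2 h)]
      push_cast
      ring
    · rw [if_neg h, if_neg (fun h' => h (e1.1 h')), mul_zero]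
  have hphi := (hSum Om m F hm0 hper).2.1 (fun v => μ * v) (by
    intro v u
    rw [← mul_sub]
    exact ⟨fun h => h.mul_left _, fun h => hcop.symm.dvd_of_dvd_mul_left h⟩)
  have hS : SSN f N χ (a * Nm μ) = ((eps μ : Om) * χ μ) * (1 / 2 * sumO m G) := by
    have h1 : SSN f N χ (a * Nm μ) = 1 / 2 * sumO m F := rfl
    rw [h1, ← hphi]
    have h2 : (fun v => F (μ * v)) = fun v => ((eps μ : Om) * χ μ) * G v := funext hFG
    rw [h2, bs_mul]
    ring
  have hH : SSN f N χ a = 1 / 2 * sumO m H := rfl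
  have hB : BBN f N χ μ a = 1 / 2 * sumO m (fun v => toO μ * G v - (Nm μ : Om) * H v) := by
    unfold BBN
    refine congrArg (fun x => 1 / 2 * sumO m x) (funext fun v => ?_)
    simp only [G, H]
    by_cases h : Cnd N a v
    · rw [if_pos h, if_pos h, if_pos h]
      unfold gg
      ring
    · rw [if_neg h, if_neg h, if_neg h]
      ring
  rw [hB, hS, hH, bs_sub, bs_mul, bs_mul, mul_assoc (toO μ), inv_mul_cancel_left₀ hne]
  ring

end Pool.Agent.DI.G
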