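import Pool.Agent.Lib.DI.Util.Spec
import Pool.Agent.Lib.DI.Val

/-!
# Theorem DI, part G (elliptic units and the measure): definitions

Author helper12 (G3 - G7), after note 4052 of helper36.
-/

set_option autoImplicit false

open scoped Pointwise

noncomputable section

namespace Pool.Agent.DI.G

open Pool.Agent.MuZ Pool.Agent.DI

/-- `η_χ(r) + η_χ(-r)`. -/
def etas (χ : OO → Om) (r : ℚ) : Om := etaX χ r + etaX χ (-r)

/-- `ha(r) = etas(r) + χ(π̄) etas(2 r)`. -/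
def haX (χ : OO → Om) (r : ℚ) : Om := etas χ r + χ pbO * etas χ (2 * r)

/-- **Output of G1** (helper97). -/
def S_G1 : Prop :=
  ∀ (f : ℕ) (χ : OO → Om) (P : Ideal ZZ), Odd f → 7 ∣ f → IsChi f χ → AbPi P →
    (∃ v, Cop v f ∧ χ v ≠ 1) → ∃ (c : ℤ) (m : ℕ), ¬ MP P (haX χ (c / 2 ^ m))

/-- The norm of `v` is `± a` modulo `2 ^ N`. -/
def Cnd (N : ℕ) (a : ℤ) (v : OO) : Prop := (2 : ℤ) ^ N ∣ Nm v - a ∨ (2 : ℤ) ^ N ∣ Nm v + a

open Classical in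
/-- `S_N(a) = ∑ ε(v) χ(v) E_1(v/(f 2^N))`, the sum over the `v` modulo `f 2^N` and modulo `± 1` with the norm `± a`
modulo `2 ^ N`. -/
def SSN (f N : ℕ) (χ : OO → Om) (a : ℤ) : Om :=
  1 / 2 * sumO (f * 2 ^ N) fun v =>
    if Cnd N a v then (eps v : Om) * χ v * eO (toC v / (f * 2 ^ N : ℕ)) else 0

/-- `g(z) = μ E_1(μ z) - N(μ) E_1(z)`. -/
def gg (μ : OO) (z : ℂ) : Om := toO μ * eO (toC μ * z) - (Nm μ : Om) * eO z

open Classical in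
/-- `B_N(a)`: the same sum for the function `g`. -/
def BBN (f N : ℕ) (χ : OO → Om) (μ : OO) (a : ℤ) : Om :=
  1 / 2 * sumO (f * 2 ^ N) fun v =>
    if Cnd N a v then (eps v : Om) * χ v * gg μ (toC v / (f * 2 ^ N : ℕ)) else 0

/-- `s = s_n`, `n = N - 2`: it acts on the `f 2^N`-torsion as `± a`, `a = 1` modulo `f` and `π̄^N`, `a = 1 + 2^(N-1)`
modulo `π^N`. -/
structure IsSN (f N : ℕ) (s : Gal(Om/ℚ)) (a : OO) : Prop where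
  gk : s ∈ GK
  psi : Psi s (f * 2 ^ N) a ∨ Psi s (f * 2 ^ N) (-a)
  df : (f : OO) ∣ a - 1
  db : pbO ^ N ∣ a - 1
  dp : pO ^ N ∣ a - 1 - 2 ^ (N - 1)

/-- `D(w) = (s(w)/w - 1)/π`. -/
def Dw (s : Gal(Om/ℚ)) (w : Om) : Om := (s w / w - 1) / wO

/-- A set of representatives modulo `m` and `± 1` for the elements with `H`. -/
structure IsRp (m : ℕ) (H : OO → Prop) (T : Finset OO) : Prop where
  mem : ∀ h ∈ T, H h
  ex : ∀ v : OO, H v → ∃ h ∈ T, (m : OO) ∣ v - h ∨ (m : OO) ∣ v + h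
  uni : ∀ h ∈ T, ∀ h' ∈ T, ((m : OO) ∣ h - h' ∨ (m : OO) ∣ h + h') → h = h'

theorem isRep_iff {f N : ℕ} {T : Finset OO} : IsRep f N T ↔ IsRp (f * 2 ^ N) (HN f N) T :=
  ⟨fun h => ⟨h.mem, h.ex, h.uni⟩, fun h => ⟨h.mem, h.ex, h.uni⟩⟩

/-- `M` is unramified over `ℚ` at `P` (in the valuation ring). -/
def Unr (P : Ideal ZZ) (M : IntermediateField ℚ Om) : Prop := ∀ x ∈ M, MP P x → VP P (x / 2)

/-- **Output of G7**, the input of G8 - G9 (helper21). -/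
def S_G7 : Prop :=
  ∀ (f : ℕ) (χ : OO → Om) (P : Ideal ZZ), Odd f → 7 ∣ f → IsChi f χ → AbPi P →
    (∃ v, Cop v f ∧ χ v ≠ 1) →
    ∃ (μ : OO) (S : Finset ℂ) (N : ℕ) (T : Finset OO) (v0 : OO) (s : Gal(Om/ℚ)) (a : OO),
      Cop μ (2 * f) ∧ IsHalf μ S ∧ 3 ≤ N ∧ IsRep f N T ∧ Cop v0 (2 * f) ∧ IsSN f N s a ∧
      (∀ v : OO, Cop v (2 * f) → VP P (Dw s (uN f N μ S T v))) ∧
      ∀ D : Finset OO, (∀ v ∈ D, Cop v (2 * f) ∧ ((2 ^ N : ℕ) : OO) ∣ v - 1) →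
        (∀ v : OO, Cop v f → ∃ u ∈ D, ∃ h, Hf f h ∧ (f : OO) ∣ v - h * u) →
        (∀ u ∈ D, ∀ u' ∈ D, (∃ h, Hf f h ∧ (f : OO) ∣ u' - h * u) → u = u') →
        ¬ TP P wO (∑ v ∈ D, χ v * Dw s (uN f N μ S T (v * v0)))

end Pool.Agent.DI.G
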