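import Pool.Agent.Lib.DI.G.Defs

/-!
# Theorem DI, part G, G3 - G7: statements

Author helper12, after note 4052 of helper36.  Every `C_X` is a statement; `S_X` is the implication from the other
statements used (outputs of other parts of `DI/Iface.lean`, facts `S_U...` of `DI/Util/Spec.lean`, and other `C_Y`) to `C_X`.  To be
proved, in the module `DI/G/X.lean`: `theorem tX : S_X`.  The docstring of `S_X` contains a complete proof.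

Notation: `m = f * 2 ^ N`, `pO = π`, `pbO = π̄`, `pO * pbO = 2`, `pO + pbO = 1`; `wO`, `wbO` their images in `Om`; `z_v = toC v / m`.
Valuation ring facts: `DI/Val.lean` (`VP`, `MP`, `UP`); `TP P t x` : `x ∈ t V_P`.  At `P` above `π`: `2 = wO * wbO` and `wbO = 1 - wO` is
a unit, so `x ∈ 2 V_P` iff `x ∈ wO V_P`; odd integers are units, and are `= 1` modulo `wO`.
-/

set_option autoImplicit false

open scoped Pointwise

noncomputable section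

namespace Pool.Agent.DI.G

open Pool.Agent.MuZ Pool.Agent.DI

/-! ## 1. Representatives -/

/-- Products over two systems of representatives; multiplication by an invertible element. -/
def C_Rp : Prop :=
  (∀ (m : ℕ) (H : OO → Prop) (T T' : Finset OO) (A : Type) [CommMonoid A] (G : OO → A),
    IsRp m H T → IsRp m H T' → (∀ v u : OO, G (v + m * u) = G v) → (∀ v : OO, G (-v) = G v) →
    ∏ h ∈ T, G h = ∏ h ∈ T', G h) ∧
  (∀ (m : ℕ) (H : OO → Prop) (T : Finset OO) (A : Type) [CommMonoid A] (G : OO → A) (a b : OO),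
    IsRp m H T → (m : OO) ∣ a * b - 1 → (∀ v, H v → H (a * v)) → (∀ v, H v → H (b * v)) →
    (∀ v u : OO, G (v + m * u) = G v) → (∀ v : OO, G (-v) = G v) →
    ∏ h ∈ T, G (a * h) = ∏ h ∈ T, G h)

/-- (120 lines) **Rp**.  Proof.  (1) For `h ∈ T` let `e h ∈ T'` with `m ∣ h - e h` or `m ∣ h + e h` (`ex` for `T'`); `e` is injective on
`T` (`e h = e h'` gives `m ∣ h ∓ h'`, `uni`) and onto `T'` (for `h' ∈ T'` take `h ∈ T` with `m ∣ h' ∓ h`; then `e h = h'` by `uni`),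
and `G (e h) = G h`.  `Finset.prod_bij` / `Finset.prod_nbij`.  (2) `T.image (a * ·)` is again `IsRp m H`: `mem`; `ex`: for `H v` take `h ∈ T`
with `m ∣ b v ∓ h`, then `m ∣ v ∓ a h` as `a b = 1` modulo `m`; `uni`: `m ∣ a h ∓ a h'` gives `m ∣ h ∓ h'`.  `h ↦ a h` is injective on `T`
(same argument).  Apply (1). -/
def S_Rp : Prop := C_Rp

/-- The sum over all residues is twice the sum over the representatives. -/
def C_RpS : Prop :=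
  ∀ (m : ℕ) (H : OO → Prop) (T : Finset OO) (F : OO → Om), 0 < m → IsRp m H T →
    (∀ v u : OO, F (v + m * u) = F v) → (∀ v : OO, F (-v) = F v) → (∀ v : OO, ¬ H v → F v = 0) →
    (∀ v : OO, H v → H (-v)) → (∀ v u : OO, H v → H (v + m * u)) → (∀ v : OO, H v → ¬ (m : OO) ∣ v + v) →
    sumO m F = 2 * ∑ h ∈ T, F h

/-- (120 lines) **RpS**.  Proof.  `S_USum` gives a complete system `R` of residues modulo `m` and `∑_R F = sumO m F`.  Only the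
`r ∈ R` with `H r` contribute.  For such an `r` let `e r ∈ T` with `m ∣ r - e r` or `m ∣ r + e r`; `F r = F (e r)`.  For every `t ∈ T`
exactly two `r ∈ R` with `H r` have `e r = t`: the representatives of `t` and of `-t` (they are different, since `m ∤ t + t`; both
satisfy `H`).  `Finset.sum_fiberwise_of_maps_to`. -/
def S_RpS : Prop := S_USum → C_RpS

/-! ## 2. The element `s` and the translation by `1/π` -/

def C_SN : Prop := ∀ f N : ℕ, Odd f → 7 ∣ f → 2 ≤ N → ∃ (s : Gal(Om/ℚ)) (a : OO), IsSN f N s a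

/-- (60 lines) **SN**.  Proof.  `a = 1 + 2^(N-1) f pbO`.  `2 = pO * pbO`, so `pbO^N ∣ a - 1`; `f ∣ a - 1`;
`a - 1 - 2^(N-1) = 2^(N-1) (f pbO - 1)` and `f pbO - 1 = (f - 1) pbO - pO` is divisible by `pO` (`f - 1` is even).  `Cop a (f 2^N)`:
`a = 1` modulo `f` and modulo `2` (`N ≥ 2`) (`S_UCop`).  `S_E7` gives `τ ∈ GK` with `Psi τ m a` or `Psi τ m (-a)`. -/
def S_SN : Prop := S_E7 → S_UCop → C_SN

def C_Tra : Prop := ∀ f N : ℕ, Odd f → 7 ∣ f → 2 ≤ N → ∀ (s : Gal(Om/ℚ)) (a : OO), IsSN f N s a →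
  ∀ v : OO, Cop v (2 * f) →
    ∃ x : OO, toC (a * v) / (f * 2 ^ N : ℕ) = toC v / (f * 2 ^ N : ℕ) + 1 / wC + toC x

/-- (80 lines) **Tra**.  Proof.  `b = a - 1`.  `f`, `pbO^N`, `pO` are pairwise coprime, `pO^(N-1) ∣ b` (from `dp`: `pO^N ∣ b - 2^(N-1)` and
`2^(N-1) = pO^(N-1) pbO^(N-1)`), so `b = f pbO^N pO^(N-1) c`.  From `dp`: `pO^N ∣ pO^(N-1) pbO^(N-1) (f pbO c - 1)`, so `pO ∣ f pbO c - 1`
and `pO ∤ c`; `pO ∤ v` (`Cop v 2`), so `pO ∤ c v` (`O/pO` has two elements: `pO ∣ x` iff `x.re` is even), hence `c v = 1 + pO x`.  Then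
`toC (b v) / m = toC (c v) / wC = 1 / wC + toC x`, since `m = f pO^N pbO^N` and `toC pO = wC`. -/
def S_Tra : Prop := S_UCop → C_Tra

/-! ## 3. Reduction at `P` -/

def C_Rdz : Prop := ∀ (f N : ℕ) (μ : OO) (P : Ideal ZZ), Odd f → 7 ∣ f → 1 ≤ N → Cop μ (2 * f) →
  AbPi P → ∀ v : OO, Cop v (2 * f) → ∀ z : ℂ, z = toC v / (f * 2 ^ N : ℕ) →
    Tor z ∧ (∀ δ : OO, Cop δ f → ¬ Lat (toC δ * z)) ∧ VP P (xO z) ∧ VP P (yO z) ∧
    ∀ u : ℂ, Lat (toC μ * u) → ¬ Lat u → Tor u ∧ VP P (xO u) ∧ UP P (xO z - xO u)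

/-- (120 lines) **Rdz**.  Proof.  `Lat (toC δ z)`: `f 2^N ∣ δ v` (`S_UEx`), so `f ∣ 1`, but `7 ∣ f`.  NOT PRIMARY: for `x` one of
`z`, `u`, `z + u`, `z - u` not `Qp P x`: `Qp` with `(α, β) = (f pbO^N, pO^N)` for `z`, `(μ, 1)` for `u`, `(μ f pbO^N, pO^N)` for `z ± u`.
`α β x ∈ O`; `¬ MP P (toO α)`: odd integers, `wbO = 1 - wO` and `toO μ = 1 + 2 (..)` (`Cop μ 2`) are not in `M_P`, and `M_P` is prime.
`β x` not in `O`: otherwise (multiply by `f pbO^N`, resp. `μ f pbO^N`) `f ∣ v`, resp. `f ∣ μ v`, resp. `u ∈ O`.  By `S_D1` with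
`(a, b) = (pO, pbO)` (third item) these `x` are not in `I2 P`, so `VP P (xO x)` (definition of `I2`), `VP P (yO z)` (item 6), and by item 5
`xO z - xO u` is not in `M_P`.  `Tor`: `S_UEx`. -/
def S_Rdz : Prop := S_D1 → S_UNm → S_UCop → S_UEx → C_Rdz

def C_GSm : Prop := ∀ (μ : OO) (S : Finset ℂ), IsCoprime μ 2 → IsHalf μ S → ∀ z : ℂ, Tor z →
  ¬ Lat z → ¬ Lat (toC μ * z) → (∀ u ∈ S, xO z ≠ xO u) →
    gg μ z = ∑ u ∈ S, (2 * yO z + xO z) / (xO z - xO u)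

/-- (120 lines) **GSm**.  Proof, in `ℂ` (apply `io`, `S_A0`; the points `u ∈ S`, `μ z` are torsion points, `XC z ≠ XC u`).  `S_B4` for
`(z, u)` and `(z, -u)` (`XC (-u) = XC u`, `YC (-u) = -XC u - YC u`, `EC (-u) = -EC u`: `S_B2`):
`EC (z + u) + EC (z - u) = 2 EC z + l + l' + 1`, `l = (YC z - YC u)/(XC z - XC u)`, `l' = (YC z + XC u + YC u)/(XC z - XC u)`, so
`l + l' + 1 = (2 YC z + XC z)/(XC z - XC u)`.  `R = {0} ∪ S ∪ -S` is `IsSys μ R` and the union is disjoint: if `u + u' ∈ O` then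
`u = u'` (`IsHalf.uni`) and `2 u ∈ O`, `μ u ∈ O`, so `u ∈ O` (`μ` is prime to `2`).  `S_B10`:
`EC z + ∑_S (EC (z + u) + EC (z - u)) = μ EC (μ z)`, and `Nm μ = card R = 1 + 2 card S` (`S_UEx`, last item).  So
`∑_S (EC (z + u) + EC (z - u) - 2 EC z) = μ EC (μ z) - Nm μ EC z`. -/
def S_GSm : Prop := S_A0 → S_B2 → S_B4 → S_B10 → S_UNm → S_UEx → C_GSm

def C_ThT : Prop := ∀ (f N : ℕ) (μ : OO) (S : Finset ℂ) (P : Ideal ZZ), Odd f → 7 ∣ f → 1 ≤ N →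
  Cop μ (2 * f) → IsHalf μ S → AbPi P → ∀ v : OO, Cop v (2 * f) → ∀ z : ℂ,
    z = toC v / (f * 2 ^ N : ℕ) → VP P (gg μ z) ∧ Theta μ S z ≠ 0 ∧
      TP P (wO ^ 2) (Theta μ S (z + 1 / wC) / Theta μ S z - 1 - wO * gg μ z)

/-- (150 lines) **ThT**.  Proof.  Write `X = xO z`, `X' = xO (z + 1/wC)`, `Y = yO z`, `X_u = xO u` for `u ∈ S`.  `S_B7` (`p = wC`; `z`,
`wC z` are not in `O`: Rdz with `δ = 1, pO`) in `Om` (`S_A0`, `io` injective, `io wO = wC`): `X' (wO² X - wbO) = wbO X - wO³`.  Hence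
(`wO wbO = 2`, `wO + wbO = 1`) `(X' - X) (wO² X - wbO) = wO (wbO² X - wO² - wO X²)`.  `wO² X - wbO` is a unit, `= -1` modulo `wO`;
`wbO² = 1` modulo `wO`.  So `X' - X = wO e` with `VP P e` and `e + X ∈ wO V_P`.  Each `X - X_u` is a unit (Rdz), and
`X' - X_u = (X - X_u) + wO e` is a unit.  `Theta(z + 1/wC)/Theta(z) = ∏_S (X - X_u)/(X' - X_u)` (the factors `toO μ` and `toO s7` cancel;
`zO z - zO u = (X - X_u)/toO s7`).  Each factor is `1 - wO e/(X' - X_u) = 1 + wO X/(X - X_u) = 1 + wO (2 Y + X)/(X - X_u)` modulo `wO²`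
(`2 ∈ wO V_P`, `VP P Y`).  A product of `1 + wO g_u + wO² r_u` (`VP` of `g_u`, `r_u`) is `1 + wO ∑ g_u` modulo `wO²` (induction).  GSm:
`∑_S (2 Y + X)/(X - X_u) = gg μ z`, so `VP P (gg μ z)`. -/
def S_ThT : Prop := S_A0 → S_B7 → S_UCop → C_Rdz → C_GSm → C_ThT

/-! ## 4. The units `u_N^(v)` (G3) -/

def C_UBa : Prop := ∀ (f : ℕ) (μ : OO) (S : Finset ℂ) (N : ℕ) (T : Finset OO), Odd f → 7 ∣ f →
  Cop μ (2 * f) → IsHalf μ S → 1 ≤ N → IsRep f N T → ∀ v : OO, Cop v (2 * f) →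
    uN f N μ S T v ≠ 0 ∧ (∀ Q : Ideal ZZ, Npr Q → UP Q (uN f N μ S T v)) ∧
    (∀ v' : OO, ((f * 2 ^ N : ℕ) : OO) ∣ v' - v → uN f N μ S T v' = uN f N μ S T v) ∧
    (∀ h : OO, HN f N h → uN f N μ S T (h * v) = uN f N μ S T v) ∧
    ∀ T' : Finset OO, IsRep f N T' → uN f N μ S T' v = uN f N μ S T v

/-- (150 lines) **UBa**.  Proof.  Let `G t = Theta μ S (toC (t * v) / m)`; `uN f N μ S T v = ∏_T G`.  `G (t + m u) = G t`, `G (-t) = G t`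
(`S_D8`; `toC ((t + m u) v)/m = toC (t v)/m + toC (u v)`).  UNITS: `z = toC (h v)/m`, `u` with `μ u ∈ O`: `z + u` is not `Qp Q` for any `Q`:
if `¬ MP Q wO` use `(α, β) = (pO^N, μ f pbO^N)`: `β (z + u) = μ h v/pO^N + f pbO^N (μ u)` is not in `O` since `pO ∤ μ h v`; if `MP Q wO` then
`¬ MP Q wbO` (`wO + wbO = 1`), use `(pbO^N, μ f pO^N)`.  `S_D5`: `UP Q (Theta μ S z)`, product: `UP.prod`; not zero: `UP.ne_zero` for any
nonzero prime `Q` (or `S_D8`, last item, `μ z ∉ O`).  PERIODIC: `h v' / m = h v / m + h x`.  `HN`: `S_UHN` (closed under multiplication; the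
inverse of `h` modulo `m` exists, `S_UCop`, and is in `HN`), C_Rp (2) with `H = HN f N`.  `T'`: C_Rp (1), `isRep_iff`. -/
def S_UBa : Prop := S_D5 → S_D8 → S_UNm → S_UCop → S_UEx → S_UHN → C_Rp → C_UBa

def C_UBb : Prop := ∀ (f : ℕ) (μ : OO) (S : Finset ℂ) (N : ℕ) (T : Finset OO), Odd f → 7 ∣ f →
  Cop μ (2 * f) → IsHalf μ S → 1 ≤ N → IsRep f N T → ∀ v : OO, Cop v (2 * f) →
    uN f N μ S T v ∈ Ln f N ∧
    ∀ τ ∈ GK, ∀ a : OO, Psi τ (f * 2 ^ N) a → τ (uN f N μ S T v) = uN f N μ S T (a * v)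

/-- (100 lines) **UBb**.  Proof.  Let `Psi τ m a`, `M' = m * (Nm μ).toNat` (`Nm μ > 0`), `Psi τ M' a'` (`S_E1`).  Then `Psi τ m a'`
(`toC v/m = toC (k v)/(m k)` with `k = (Nm μ).toNat`; `Cop a' m` from `Cop a' M'`), so `m ∣ a - a'` (`S_E1`).  `S_E15`:
`τ (Theta μ S (toC x / m)) = Theta μ S (toC (a' x) / m) = Theta μ S (toC (a x)/m)` (`S_D8`, periodicity).  Product over `x = h v`:
`τ (uN v) = uN (a v)` (`h (a v) = a (h v)`).  `Ln f N = FixH m (HN f N)`: for `HN f N a` `uN (a v) = uN v` (C_UBa). -/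
def S_UBb : Prop := S_E1 → S_E15 → S_D8 → S_UNm → S_UCop → C_UBa → C_UBb

def C_TwR : Prop := ∀ (f N : ℕ) (T T' : Finset OO) (a : OO), Odd f → 7 ∣ f → 2 ≤ N → IsRep f N T →
  IsRep f (N + 1) T' → HN f N a → ¬ HN f (N + 1) a → ∀ E : Finset OO, E = {0, 1, pO, 1 + pO} →
    IsRp (f * 2 ^ (N + 1)) (HN f N) (T' ∪ T'.image (fun h => a * h)) ∧
    Disjoint T' (T'.image (fun h => a * h)) ∧ Set.InjOn (fun h => a * h) (T' : Set OO) ∧
    IsRp (f * 2 ^ (N + 1)) (HN f N) ((T ×ˢ E).image (fun p => p.1 + (f * 2 ^ N : ℕ) * p.2)) ∧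
    Set.InjOn (fun p : OO × OO => p.1 + (f * 2 ^ N : ℕ) * p.2) ((T ×ˢ E : Finset (OO × OO)) : Set (OO × OO))

/-- (150 lines) **TwR**.  Proof.  `m' = f 2^(N+1)`.  Norms: an element of `HN f N` has norm `±1` or `±1 + 2^N` modulo `2^(N+1)`; it is in
`HN f (N+1)` in the first case only, and the four classes are different (`N ≥ 2`).  So `Nm a = ±1 + 2^N`.  FIRST SYSTEM: `mem` by
`S_UHN`.  `ex`: `v` with `HN f N v`: in the first case `T'`; otherwise let `b` be an inverse of `a` modulo `m'` (`S_UCop`, `HN f N a` gives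
`Cop a m`, so `Cop a m'`); `Nm (b v) = ±1` modulo `2^(N+1)` and `Hf f (b v)` (`S_UHN`), so `m' ∣ b v ∓ h` with `h ∈ T'`, `m' ∣ v ∓ a h`.
`uni`: inside `T'`; inside `a T'` (multiply by `b`); `h = ± a h'` modulo `m'` is impossible by the norms; this is also the disjointness.
SECOND SYSTEM: `mem`: `HN f N` is invariant modulo `f 2^N`.  `ex`: `v = ± h + f 2^N x`, so `v = ± (h + f 2^N (± x))`, and `± x = e` modulo `2`
with `e ∈ E` (parities of the coordinates).  `uni`: `h + f 2^N e = ± (h' + f 2^N e')` modulo `m'` gives `h = h'` (`uni` for `T`); with the sign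
`+`: `2 ∣ e - e'`, so `e = e'`; with the sign `-`: `f ∣ 2 h`, impossible (`Cop h f`, `7 ∣ f`). -/
def S_TwR : Prop := S_UNm → S_UCop → S_UHN → C_TwR

def C_Two : Prop := ∀ (f : ℕ) (μ : OO) (S : Finset ℂ) (N : ℕ) (T : Finset OO), Odd f → 7 ∣ f →
  Cop μ (2 * f) → IsHalf μ S → 2 ≤ N → IsRep f N T → ∀ v : OO, Cop v (2 * f) →
    ∀ T' : Finset OO, IsRep f (N + 1) T' → ∀ s ∈ GK, ∀ a : OO, Psi s (f * 2 ^ (N + 1)) a →
      HN f N a → ¬ HN f (N + 1) a → ∃ b ∈ Ln f N, b ≠ 0 ∧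
        uN f (N + 1) μ S T' v * s (uN f (N + 1) μ S T' v) = uN f N μ S T v * b ^ 2

/-- (120 lines) **Two**.  Proof.  `m' = f 2^(N+1)`, `G t = Theta μ S (toC (t * v) / m')` (periodic modulo `m'`, even: `S_D8`).  By C_UBb at the
level `N + 1` `s (uN v) = uN (a v)`, so the left side is `∏_(T') G(h) G(a h)`, the product over the first system of C_TwR; by C_Rp (1) it is the
product over the second one, `∏_(h ∈ T) ∏_(e ∈ E) G(h + f 2^N e)`, and `toC ((h + f 2^N e) v)/m' = toC (h v)/m' + toC (e v)/2`.  The points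
`toC (e v)/2`, `e ∈ E`, are `IsSys 2` (`v = 1` modulo `2`: `S_UCop`; they are different).  `S_D7` with `α = 2` (a constant `c`; `μ` prime to `2`;
`2 μ (toC (h v)/m') ∉ O` since `f ∤ 2 μ h v`): the inner product is `c Theta μ S (toC (h v)/(f 2^N))`.  So the left side is
`c^(card T) uN f N μ S T v`, `4 ∣ card T` (`S_UHN`), `b = c^(card T / 2)`; `c ∈ KQ` (`S_E15`, second part) and `KQ ≤ Ln f N` (`GK` fixes `KQ`). -/
def S_Two : Prop := S_D7 → S_D8 → S_E15 → S_UNm → S_UCop → S_UEx → S_UHN → C_Rp → C_UBb → C_TwR → C_Two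

/-- (30 lines) **G3**.  Assembly. -/
def S_G3A : Prop := C_UBa → C_UBb → C_Two → S_G3

/-! ## 5. The homomorphism `D` on the units (G5) -/

def C_DU : Prop := ∀ (f : ℕ) (μ : OO) (S : Finset ℂ) (N : ℕ) (T : Finset OO) (P : Ideal ZZ), Odd f → 7 ∣ f →
  Cop μ (2 * f) → IsHalf μ S → 2 ≤ N → IsRep f N T → AbPi P → ∀ (s : Gal(Om/ℚ)) (a : OO), IsSN f N s a →
    ∀ v : OO, Cop v (2 * f) → VP P (Dw s (uN f N μ S T v)) ∧
      (∀ h ∈ T, VP P (gg μ (toC (h * v) / (f * 2 ^ N : ℕ)))) ∧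
      TP P wO (Dw s (uN f N μ S T v) - ∑ h ∈ T, gg μ (toC (h * v) / (f * 2 ^ N : ℕ)))

/-- (100 lines) **DU**.  Proof.  `s (uN v) = uN (a v)` (C_UBb; if `Psi s m (-a)`: `uN (-a v) = uN (a v)` by C_UBa with `h = -1`).  For
`h ∈ T` (`Cop h m`, so `Cop (h v) (2 f)`) put `z_h = toC (h v)/m`; C_Tra for `h v`: `toC (a h v)/m = z_h + 1/wC + toC x`, so
`Theta(toC (h a v)/m) = Theta(z_h + 1/wC)` (`S_D8`), and by C_ThT the quotient by `Theta(z_h)` is `1 + wO gg μ z_h + wO² r_h`.  The product over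
`T` is `1 + wO ∑ gg μ z_h + wO² r` (induction).  `Dw s u = (s u / u - 1)/wO`. -/
def S_DU : Prop := S_D8 → S_UCop → S_UHN → C_Tra → C_ThT → C_UBa → C_UBb → C_DU

/-! ## 6. The character, Fourier transform (G6) -/

def C_Chi : Prop := ∀ (f : ℕ) (χ : OO → Om), Odd f → 7 ∣ f → IsChi f χ →
  χ 1 = 1 ∧ (∀ v, χ (-v) = χ v) ∧ (∀ v u, (f : OO) ∣ v - u → χ v = χ u) ∧
  (∀ h v, Hf f h → χ (h * v) = χ v) ∧ (∀ v, IsIntegral ℤ (χ v)) ∧
  (∀ (P : Ideal ZZ) (v : OO), Npr P → Cop v f → UP P (χ v)) ∧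
  IsRho f (fun v => (eps v : Om) * χ v)

/-- (80 lines) **Chi**.  Proof.  `(χ v)^k = 1` for `Cop v f`, `k` odd.  `χ 1 ≠ 0`, `χ 1 χ 1 = χ 1`.  `χ (-1)^2 = χ 1 = 1` and
`χ (-1)^k = 1`, so `χ (-1) = 1`.  `Hf f h`: `f ∣ h^(2^j) - 1`, so `(χ h)^(2^j) = 1`, with the odd `k`: `χ h = 1` (orders:
`orderOf` divides `2^j` and `k`).  Roots of unity and `0` are integral, roots of unity are units (`UP.of_pow`).  `eps` is periodic modulo `7`,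
hence modulo `f`, and odd (`S_UEps`). -/
def S_Chi : Prop := S_UCop → S_UEps → C_Chi

def C_Fou1 : Prop := ∀ (f : ℕ) (χ : OO → Om), Odd f → 7 ∣ f → IsChi f χ → ∀ (N : ℕ) (a : ℤ), 2 ≤ N → Odd a →
  (f : Om) * ∑ c ∈ Finset.range (2 ^ N), zet (2 ^ N) ^ (-((c : ℤ) * a)) * etas χ ((c : ℚ) / 2 ^ N) =
    SSN f N χ a

/-- (120 lines) **Fou1**.  Proof.  `ζ = zet (2^N)`, a primitive `2^N`-th root of unity (`S_A2`).  `S_E11` with `ρ = ε χ` (C_Chi), `n = 2^N`,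
`b = c` and `b = -c`: `etas χ (c/2^N) = 1/(2 f 2^N) sumO m (fun v => ρ v (ζ^(c Nv) + ζ^(-c Nv)) eO (toC v/m))`.  Multiply by `ζ^(-ca)` and sum over
`c`: `∑_(c < 2^N) ζ^(c (Nv - a)) = 2^N` if `2^N ∣ Nv - a` and `0` otherwise (geometric sum), and
`∑_c ζ^(-c (Nv + a)) = 2^N` iff `2^N ∣ Nv + a`.  Both conditions together give `2^N ∣ 2 a`, impossible (`a` odd, `N ≥ 2`), so the sum of the two
indicators is the indicator of `Cnd N a v`.  (Exchange the sums: `sumO` is a double `Finset` sum.) -/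
def S_Fou1 : Prop := S_A2 → S_E11 → C_Chi → C_Fou1

def C_Fou2 : Prop := ∀ (f : ℕ) (χ : OO → Om) (P : Ideal ZZ), Odd f → 7 ∣ f → IsChi f χ → AbPi P →
  (∃ v, Cop v f ∧ χ v ≠ 1) → ∀ (N : ℕ) (a : ℤ), 2 ≤ N → Odd a → VP P (SSN f N χ a) ∧
    TP P wO (SSN f N χ a - f * χ pO *
      ∑ c ∈ Finset.range (2 ^ (N - 1)), zet (2 ^ N) ^ (-((c : ℤ) * a)) * haX χ ((c : ℚ) / 2 ^ (N - 1)))

/-- (150 lines) **Fou2**.  Proof.  All `etaX χ (k/2^j)` are in `V_P` (`S_E13`, the denominator divides `2^j` and `f` is odd), so with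
C_Fou1 `VP P (SSN f N χ a)`.  `q = 2^(N-1)`: `ζ^(-(c+q) a) = -ζ^(-c a)` (`ζ^q = -1`, `a` odd), so with `s = c/2^N`
`∑_(c < 2 q) ζ^(-ca) etas(c/2^N) = ∑_(c < q) ζ^(-ca) (etas(s) - etas(s + 1/2))`.  `S_E12` (3) with `r = 2 s` and with `r = -2 s`, and (2)
(`-(s + 1/2) + 1 = -s + 1/2`): `etas(s) + etas(s + 1/2) + χ(2) etas(4 s) = (wbO χ(pO) + wO χ(pbO)) etas(2 s)`.  Modulo `wO V_P`
(`2, wO = 0`, `wbO = 1`, signs irrelevant): `etas(s) - etas(s + 1/2) = χ(pO) etas(2 s) + χ(2) etas(4 s) = χ(pO) haX(2 s)`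
(`χ 2 = χ pO χ pbO`), and `2 s = c/2^(N-1)`. -/
def S_Fou2 : Prop := S_A2 → S_E12 → S_E13 → S_UCop → C_Chi → C_Fou1 → C_Fou2

def C_Uni : Prop := ∀ P : Ideal ZZ, AbPi P → ∀ (M : IntermediateField ℚ Om) (N : ℕ) (ζ : Om), 1 ≤ N →
  IsPrimitiveRoot ζ (2 ^ N) → Unr P M → ∀ A : ℕ → Om, (∀ c, A c ∈ M) → (∀ c, VP P (A c)) →
    TP P wO (∑ c ∈ Finset.range (2 ^ (N - 1)), ζ ^ c * A c) → ∀ c < 2 ^ (N - 1), TP P wO (A c)

/-- (150 lines) **Uni**.  Proof.  `n = 2^(N-1)`, `l = ζ - 1`, integral, `ζ^n = -1` (primitive).  Binomial theorem for `(1 + l)^n = -1`: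
`l^n = -2 (1 + ∑_(0<k<n) (binom(n,k)/2) l^k)` (the binomials are even), so `MP P (l^n)`, `MP P l` (`MP.of_pow`), and `l^n = 2 ε` with a unit
`ε` of `V_P`, `= wO ε'`.  `∑_(c<n) ζ^c A_c = ∑_(k<n) l^k B_k`, `B_k = ∑_(k ≤ c < n) binom(c,k) A_c ∈ M`, `VP P B_k`.  CLAIM: all `B_k ∈ wO V_P`.
Otherwise let `k` be the least index with `B_k ∉ wO V_P`.  `B_k` is a unit: if `MP P B_k` then `VP P (B_k/2)` (`Unr P M`), so
`B_k ∈ 2 V_P = wO V_P`.  Then `∑_(j ≥ k) l^j B_j = l^k (B_k + l (..))` is `l^k` times a unit and is in `wO V_P = l^n V_P`; as `k < n` this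
gives `VP P l⁻¹`, contradiction to `MP P l`.  Finally `A_c = B_c - ∑_(c < c' < n) binom(c',c) A_(c')`: downward induction on `c`. -/
def S_Uni : Prop := C_Uni

/-- The general lemma `unrG` (helper67, `DI/FH/Unr.lean`). -/
def C_UnrG : Prop := ∀ M : IntermediateField ℚ Om, FiniteDimensional ℚ M →
  (∀ τ : Gal(Om/ℚ), ∀ x ∈ M, τ x ∈ M) → ∀ P : Ideal ZZ, Npr P → MP P 2 →
  (∀ τ ∈ P.inertia Gal(Om/ℚ), ∀ x ∈ M, τ x = x) → Unr P M

def C_ChiF : Prop := ∀ (f : ℕ) (χ : OO → Om) (P : Ideal ZZ), Odd f → 7 ∣ f → IsChi f χ → AbPi P →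
  ∃ M : IntermediateField ℚ Om, Unr P M ∧ FiniteDimensional ℚ M ∧ Lf f ≤ M ∧ (∀ v, χ v ∈ M) ∧
    ∀ x : Om, (∀ τ ∈ GK, (∀ y ∈ Lf f, τ y = y) → (∀ v, τ (χ v) = χ v) → τ x = x) → x ∈ M

/-- (120 lines) **ChiF**.  Proof.  `k` odd with `(χ v)^k = 1` for `Cop v f`; `ξ` a primitive `k`-th root of unity in `Om`; `M = Lf f ⊔ ℚ(ξ)`.
`χ v ∈ ℚ(ξ)` (a power of `ξ` or `0`).  Finite: `S_E8` (with `H = Hf f`, `S_UHN`) and `ξ` algebraic.  Normal: `S_E9` (1) and `τ ξ` is a power of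
`ξ`.  Inertia at `P` (`MP P 2`: `2 = wO wbO`): `S_E9` (3) on `Lf f`; `τ ξ = ξ^j` and `ξ^j - ξ ∈ P`; if `ξ^j ≠ ξ` then `1 - ξ^(j-1)` is in `M_P`
and `ω = ξ^(j-1) ≠ 1`, `0 = 1 + ω + .. + ω^(k-1) = k` modulo `M_P`, impossible (`k` odd); see also `Pool/Agent/Lib/MuZ/InT.lean`.  So
`Unr P M` by C_UnrG.  Last part: every `τ ∈ M.fixingSubgroup` is in `GK` (`KQ ≤ Lf f`: `S_E8`), fixes `Lf f` and the `χ v`, so `τ x = x`; by
infinite Galois theory (`InfiniteGalois.fixedField_fixingSubgroup`) `x ∈ M`. -/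
def S_ChiF : Prop := S_E8 → S_E9 → S_UHN → C_UnrG → C_ChiF

def C_SNo : Prop := ∀ (f : ℕ) (χ : OO → Om) (P : Ideal ZZ), Odd f → 7 ∣ f → IsChi f χ → AbPi P →
  (∃ v, Cop v f ∧ χ v ≠ 1) → ∃ N1 : ℕ, ∀ N : ℕ, N1 ≤ N → ∀ a : ℤ, Odd a →
    VP P (SSN f N χ a) ∧ ¬ TP P wO (SSN f N χ a)

/-- (120 lines) **SNo**.  Proof.  `S_G1`: `c0`, `m0` with `¬ MP P (haX χ (c0/2^m0))`.  `N1 = m0 + 2`.  For `N ≥ N1` let
`c' = (c0 2^(N-1-m0)) mod 2^(N-1)`; `haX χ (c'/2^(N-1)) = haX χ (c0/2^m0)` (`etaX χ (r + 1) = etaX χ r`, `S_E12` (2), integer shifts).  Let `M` be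
from C_ChiF and `A c = haX χ (c/2^(N-1))`: `VP P` and `∈ M` by `S_E13` (the denominators are powers of `2`; `χ pbO ∈ M`).  `ζ = zet (2^N)^(-a)` is
primitive (`a` odd).  If `TP P wO (SSN f N χ a)` then by C_Fou2 `TP P wO (f χ(pO) ∑ ζ^c A c)`, `f χ(pO)` is a unit (`f` odd, C_Chi; `Cop pO f`),
so by C_Uni `TP P wO (A c')` and `MP P (A c')`, contradiction. -/
def S_SNo : Prop := S_G1 → S_A2 → S_E12 → S_E13 → S_UNm → S_UCop → C_Chi → C_Fou2 → C_Uni → C_ChiF → C_SNo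

/-! ## 7. Smoothing (G7) -/

def C_BS : Prop := ∀ (f : ℕ) (χ : OO → Om) (μ : OO), Odd f → 7 ∣ f → IsChi f χ → Cop μ (2 * f) →
  ∀ (N : ℕ) (a : ℤ), BBN f N χ μ a =
    toO μ * ((eps μ : Om) * χ μ)⁻¹ * SSN f N χ (a * Nm μ) - (Nm μ : Om) * SSN f N χ a

/-- (100 lines) **BS**.  Proof.  `S_USum` (2) with `φ v = μ v` (`m ∣ v - u ↔ m ∣ μ v - μ u`, `Cop μ m`) applied to the summand of
`SSN f N χ (a Nm μ)`: `Cnd N (a Nm μ) (μ v) ↔ Cnd N a v` (`Nm (μ v) ∓ a Nm μ = Nm μ (Nm v ∓ a)`, `Nm μ` odd), `eps (μ v) χ (μ v) = eps μ χ μ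
eps v χ v`, `toC (μ v)/m = toC μ (toC v/m)`.  `eps μ χ μ ≠ 0`.  The summands are `m`-periodic: `Nm (v + m u) = Nm v` modulo `2^N`, `eO` is
`O`-periodic (`S_B2` and `S_A0`, or `ofC` of equal complex numbers). -/
def S_BS : Prop := S_B2 → S_UNm → S_UCop → S_UEps → S_USum → C_Chi → C_BS

def C_BN : Prop := ∀ (f : ℕ) (χ : OO → Om) (P : Ideal ZZ) (μ : OO), Odd f → 7 ∣ f → IsChi f χ → AbPi P →
  Cop μ (2 * f) → χ μ ≠ 1 → ∃ (N : ℕ) (a0 : ℤ), 3 ≤ N ∧ Odd a0 ∧ ¬ TP P wO (BBN f N χ μ a0)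

/-- (120 lines) **BN**.  Proof.  `N = max N1 3` (C_SNo).  Suppose `BBN f N χ μ a ∈ wO V_P` for all odd `a`.  Modulo `wO`: `toO μ = 1`
(`Cop μ 2`), `eps μ = ±1 = 1`, `Nm μ = 1` (odd): C_BS gives `SSN (a Nm μ) = χ(μ) SSN(a)` modulo `wO V_P` for all odd `a` (`SSN ∈ V_P`).  Iterate:
`SSN (a (Nm μ)^k) = χ(μ)^k SSN(a)`.  `k = 2^N`: `(Nm μ)^k = 1` modulo `2^N` and `SSN` depends on `a` modulo `2^N` only.  So
`(1 - ω) SSN(1) ∈ wO V_P`, `ω = χ(μ)^(2^N)`, `ω ≠ 1` (`χ μ ≠ 1` has odd order), `ω^k' = 1` with `k'` odd; `1 - ω` is a unit: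
`0 = 1 + ω + .. + ω^(k'-1)`, which is `k'` modulo `M_P` if `MP P (1 - ω)`.  So `SSN(1) ∈ wO V_P`, contradiction. -/
def S_BN : Prop := S_UNm → S_UCop → S_UEps → C_Chi → C_SNo → C_BS → C_BN

def C_RpD : Prop := ∀ (f N : ℕ) (T D : Finset OO) (v0 : OO) (a0 : ℤ), Odd f → 7 ∣ f → 2 ≤ N → IsRep f N T →
  Odd a0 → (f : OO) ∣ v0 - 1 → (2 : ℤ) ^ N ∣ Nm v0 - a0 →
  (∀ v ∈ D, Cop v (2 * f) ∧ ((2 ^ N : ℕ) : OO) ∣ v - 1) →
  (∀ v : OO, Cop v f → ∃ u ∈ D, ∃ h, Hf f h ∧ (f : OO) ∣ v - h * u) →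
  (∀ u ∈ D, ∀ u' ∈ D, (∃ h, Hf f h ∧ (f : OO) ∣ u' - h * u) → u = u') →
    IsRp (f * 2 ^ N) (fun v => Cop v (2 * f) ∧ Cnd N a0 v)
      ((D ×ˢ T).image (fun p => p.2 * (p.1 * v0))) ∧
    Set.InjOn (fun p : OO × OO => p.2 * (p.1 * v0)) ((D ×ˢ T : Finset (OO × OO)) : Set (OO × OO))

/-- (150 lines) **RpD**.  Proof.  `mem`: `Nm (h v v0) = Nm h Nm v Nm v0 = (±1) 1 a0` modulo `2^N`; coprimality (`v0 = 1` modulo `f`, `Nm v0`
odd).  `ex`: let `Cop x (2 f)`, `Nm x = ± a0` modulo `2^N`; take `v ∈ D` and `h'` in `H_f` with `f ∣ x - h' v`, and `b` an inverse of `v v0` modulo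
`m` (`S_UCop`); `k = x b`: modulo `f` `k = h' v b = h'` (`v0 = 1`), so `Hf f k`; `Nm k = ± a0/(1 a0) = ±1` modulo `2^N`: `HN f N k`, so `m ∣ k ∓ h` with
`h ∈ T`, and `m ∣ x ∓ h v v0`.  `uni` and injectivity: `h v v0 = ± h1 v1 v0` modulo `m` (`v0` invertible): modulo `f` `v = (± h1 / h) v1` with
`± h1/h` in `H_f` (`S_UHN`: `-1` and inverses), so `v = v1`, then `h = ± h1` modulo `m`, `h = h1` (`uni` for `T`). -/
def S_RpD : Prop := S_UNm → S_UCop → S_UHN → C_RpD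

def C_BD : Prop := ∀ (f N : ℕ) (χ : OO → Om) (μ : OO) (T D : Finset OO) (v0 : OO) (a0 : ℤ), Odd f → 7 ∣ f →
  IsChi f χ → 2 ≤ N → IsRep f N T → Odd a0 → (f : OO) ∣ v0 - 1 → (2 : ℤ) ^ N ∣ Nm v0 - a0 →
  (∀ v ∈ D, Cop v (2 * f) ∧ ((2 ^ N : ℕ) : OO) ∣ v - 1) →
  (∀ v : OO, Cop v f → ∃ u ∈ D, ∃ h, Hf f h ∧ (f : OO) ∣ v - h * u) →
  (∀ u ∈ D, ∀ u' ∈ D, (∃ h, Hf f h ∧ (f : OO) ∣ u' - h * u) → u = u') →
    BBN f N χ μ a0 = ∑ v ∈ D, ∑ h ∈ T, (eps (h * (v * v0)) : Om) * χ v *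
      gg μ (toC (h * (v * v0)) / (f * 2 ^ N : ℕ))

/-- (120 lines) **BD**.  Proof.  C_RpS for `H v = (Cop v (2 f) ∧ Cnd N a0 v)`, the system of C_RpD, and the summand `F` of `BBN`: `F` is
`m`-periodic (`gg` is `O`-periodic) and even (`eps (-v) = -eps v`, `gg μ (-z) = -gg μ z`, from `S_B2`: `EC` is periodic and odd, so
`ofC` of it: `eO (-z) = -eO z`; use `S_A0` at torsion points), `F v = 0` if not `H v` (`Cnd N a0 v` with `a0` odd gives `Nm v` odd; `χ v = 0` if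
not `Cop v f`), `m ∤ v + v` (`f ∤ 2 v`).  So `BBN = (1/2) 2 ∑ F = ∑_(D × T) F (h v v0)`, and `χ (h v v0) = χ v` (C_Chi: `Hf f h`, `f ∣ v0 - 1`). -/
def S_BD : Prop := S_A0 → S_B2 → S_UNm → S_UCop → S_UEps → S_UEx → C_Chi → C_RpS → C_RpD → C_BD

def C_V0 : Prop := ∀ (f N : ℕ) (a0 : ℤ), Odd f → Odd a0 → 1 ≤ N →
  ∃ v0 : OO, (f : OO) ∣ v0 - 1 ∧ (2 : ℤ) ^ N ∣ Nm v0 - a0 ∧ Cop v0 (2 * f)

/-- (80 lines) **V0**.  Proof.  `f pbO^N` and `pO^N` are coprime (`pO + pbO = 1`, `f = 2 k + 1`, `2 = pO pbO`), so there is `t` with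
`pO^N ∣ f pbO^N t - (a0 - 1)`; `v0 = 1 + f pbO^N t`: `v0 = 1` modulo `f` and `pbO^N`, `v0 = a0` modulo `pO^N`.  Conjugate (`cjO pO = pbO`):
`cjO v0 = 1` modulo `pO^N`, `= a0` modulo `pbO^N`.  `Nm v0 = v0 cjO v0 = a0` modulo `pO^N` and `pbO^N`, so modulo `2^N` in `O`, hence in `ℤ`
(compare the real coordinates). -/
def S_V0 : Prop := S_UNm → S_UCop → C_V0

/-- (120 lines) **G7**.  Proof.  Let `Cop v1 f`, `χ v1 ≠ 1`; `μ = v1 + f (1 - v1)`: `μ = v1` modulo `f`, `μ = 1` modulo `2` (`f` odd), so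
`Cop μ (2 f)`, `χ μ = χ v1 ≠ 1`.  `S` from `S_UEx`.  `N`, `a0` from C_BN, `T` from `S_UEx`, `v0` from C_V0, `s`, `a` from C_SN.  `VP P (Dw s (uN v))`:
C_DU.  For `D`: modulo `wO V_P` `∑_D χ v Dw s (uN (v v0)) = ∑_D χ v ∑_T gg μ (toC (h v v0)/m)` (C_DU; `VP P (χ v)`), and this is
`∑_D ∑_T eps(h v v0) χ v gg μ (..) = BBN f N χ μ a0` modulo `wO V_P`, because `eps = ±1` (`Cop (h v v0) 7`) is `1` modulo `2`. -/
def S_G7A : Prop := S_UNm → S_UCop → S_UEps → S_UEx → S_UHN → C_Chi → C_SN → C_V0 → C_BN → C_BD → C_DU → S_G7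

end Pool.Agent.DI.G
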