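import Pool.Agent.Lib.DI.G.Defs
import Pool.Agent.Lib.DI.FH.Spec

/-!
# Theorem DI, part G4, G8, G9 (author helper21): local lemma and conclusion `S_G`

Every `S_..` is an independent statement with a complete proof in its docstring, to be proved in its own module
`DI/G/L/<Name>.lean` (theorem `t<Name>`), other statements of this file are used only as hypotheses (named after
`from`). Basic facts on `VP`, `MP`, `UP`: `DI/Val.lean` (`VP.add`, `VP.mul`, `VP.inv`, `VP.or_inv`, `VP.not_iff`, `VP.of_pow`,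
`MP.of_pow`, `UP.of_pow`, `UP.congr`, `VP.inertia`, `VP.inertia_vp`, ...).  `f` is odd, `7 ∣ f`, `P` is a prime above `2`,
`L = Lf f`, `L_N = Ln f N`.  `ζ` is a primitive `2 ^ N`-th root of unity, `xx ζ = 2 + ζ + ζ⁻¹`; the square of `ζ' + ζ'⁻¹` is `xx ζ` for
`ζ' ^ 2 = ζ`.  All automorphisms are elements of `Gal(Om/ℚ)`; `σ⁻¹ (σ x) = x` is `σ.symm_apply_apply` or
`← AlgEquiv.mul_apply, inv_mul_cancel, AlgEquiv.one_apply`.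
-/

set_option autoImplicit false

open scoped Pointwise

noncomputable section

namespace Pool.Agent.DI.GL

open Pool.Agent.MuZ Pool.Agent.FW Pool.Agent.DI Pool.Agent.DI.G

/-- `τ` fixes the field `M`. -/
def Fx (M : IntermediateField ℚ Om) (τ : Gal(Om/ℚ)) : Prop := ∀ x ∈ M, τ x = x

theorem Fx.mul {M : IntermediateField ℚ Om} {σ τ : Gal(Om/ℚ)} (h : Fx M σ) (h' : Fx M τ) :
    Fx M (σ * τ) := fun x hx => by rw [AlgEquiv.mul_apply, h' x hx, h x hx]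

theorem Fx.inv {M : IntermediateField ℚ Om} {σ : Gal(Om/ℚ)} (h : Fx M σ) : Fx M σ⁻¹ := fun x hx => by
  have h1 : σ⁻¹ (σ x) = x := by rw [← AlgEquiv.mul_apply, inv_mul_cancel, AlgEquiv.one_apply]
  rw [h x hx] at h1
  exact h1

theorem Fx.one {M : IntermediateField ℚ Om} : Fx M 1 := fun _ _ => rfl

/-- An element is in `M` if it is fixed by all automorphisms which fix `M`. -/
theorem mem_of_Fx {M : IntermediateField ℚ Om} {x : Om}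
    (h : ∀ τ : Gal(Om/ℚ), Fx M τ → τ x = x) : x ∈ M := by
  rw [← InfiniteGalois.fixedField_fixingSubgroup M]
  rintro ⟨g, hg⟩
  exact h g ((IntermediateField.mem_fixingSubgroup_iff M g).mp hg)

/-- `d` maps `P` to itself. -/
def StP (P : Ideal ZZ) (d : Gal(Om/ℚ)) : Prop := ∀ x : ZZ, x ∈ P → d • x ∈ P

/-- `2 + ζ + ζ⁻¹`. -/
def xx (ζ : Om) : Om := 2 + ζ + ζ⁻¹

/-- The facts on the fields `L`, `L_N` which are used. -/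
structure Sit (f : ℕ) (P : Ideal ZZ) : Prop where
  odd : Odd f
  seven : 7 ∣ f
  npr : Npr P
  two : MP P 2
  gk : ∀ τ : Gal(Om/ℚ), Fx (Lf f) τ → τ ∈ GK
  nrm : ∀ τ : Gal(Om/ℚ), ∀ x ∈ Lf f, τ x ∈ Lf f
  lnn : ∀ (N : ℕ) (τ : Gal(Om/ℚ)), ∀ x ∈ Ln f N, τ x ∈ Ln f N
  inr : ∀ τ ∈ P.inertia Gal(Om/ℚ), Fx (Lf f) τ
  unr : Unr P (Lf f)
  lnx : ∀ (N : ℕ) (ζ : Om), IsPrimitiveRoot ζ (2 ^ N) → ∀ τ : Gal(Om/ℚ),
    Fx (Ln f N) τ ↔ Fx (Lf f) τ ∧ (τ ζ = ζ ∨ τ ζ = ζ⁻¹)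

theorem Sit.prime {f : ℕ} {P : Ideal ZZ} (h : Sit f P) : P.IsPrime := h.npr.1

/-- `d` is in the group `D_P ∩ Gal(Om/L_∞(i))`. -/
def DD (f : ℕ) (P : Ideal ZZ) (d : Gal(Om/ℚ)) : Prop :=
  StP P d ∧ (∀ n : ℕ, Fx (Ln f n) d) ∧ ∀ i : Om, i ^ 2 = -1 → d i = i

/-- `d` is in `D_P`, fixes `L` and the roots of unity of order `2 ^ m`. -/
def DL (f : ℕ) (P : Ideal ZZ) (m : ℕ) (d : Gal(Om/ℚ)) : Prop :=
  StP P d ∧ Fx (Lf f) d ∧ ∀ z : Om, z ^ 2 ^ m = 1 → d z = z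

/-- (120 lines) **SitE.** PROOF. `gk`: `KQ ≤ Lf f` (E8 for `N = f`, `H = Hf f`: `FixH f (Hf f)` is `Lf f` by definition; the
hypotheses of E8 are in `hU`), `GK = KQ.fixingSubgroup`. `nrm`, `lnn`, `inr`: E9 (1), (2), (3). `unr`: `hR` (by definition `Unr P
(Lf f)` is `∀ x ∈ Lf f, MP P x → VP P (x / 2)`). `lnx`: let `m = f * 2 ^ N` (`> 0`), note `Psi τ m a → Psi τ f a`: for
`z = toC v / f = toC (2 ^ N * v) / m` and `toC (a * (2 ^ N * v)) / m = toC (a * v) / f`; `Cop a m → Cop a f`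
(`IsCoprime.of_mul_right_left`). (→) Let `τ` fix `L_N`. (i) `Lf f ≤ Ln f N`: let `x ∈ Lf f`, `σ ∈ GK`, `Psi σ m a`, `HN f N a`; then
`Psi σ f a` and `Hf f a` (`HN f N a` is a conjunction), so `σ x = x`. So `τ` fixes `Lf f`, `τ ∈ GK`. (ii) `Psi τ m a` for some `a` (E1); E8 (for
`m`, `HN f N`, hypotheses from `hU`) gives `HN f N a`. `Nm a = ± 1` modulo `2 ^ N`. By E6 `τ ζ = ζ ^ (Nm a).toNat`
(`ζ ^ m = 1`); `Nm a ≥ 0` (`4 Nm = (2 re + im)² + 7 im²`), so `((Nm a).toNat : ℤ) = Nm a` and `ζ ^ (Nm a).toNat` is `ζ ^ (± 1)` (as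
`zpow`; `2 ^ N ∣ Nm a ∓ 1`, `ζ ^ 2 ^ N = 1`). (←) Let `τ` fix `Lf f` and `τ ζ = ζ ^ (± 1)`. `τ ∈ GK`, `Psi τ m a` (E1), `Psi τ f a`, `Hf f a`
by E8 for `f`, `Hf f`. `τ ζ = ζ ^ (Nm a).toNat`, so `2 ^ N ∣ Nm a ∓ 1` (`IsPrimitiveRoot.zpow_eq_one_iff_dvd`). So `HN f N a`
and for `x ∈ Ln f N` by definition of `FixH` `τ x = x`. -/
def S_SitE : Prop :=
  S_E1 → S_E6 → S_E8 → S_E9 → S_UHN → ∀ (f : ℕ) (P : Ideal ZZ), Odd f → 7 ∣ f → Npr P → MP P 2 →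
    (∀ x ∈ Lf f, MP P x → VP P (x / 2)) → Sit f P

/-- (80 lines) **SN.** The element `s` of part G fixes `L` and maps `ζ` to `- ζ`.
PROOF. `m = f * 2 ^ N`. (1) `Psi s m a` or `Psi s m (-a)`, hence `Psi s f a` or `Psi s f (-a)` (as in SitE). `Hf f a`: `Cop a f` (part of
`Psi`; for `-a`: `Nm (-a) = Nm a`) and `f ∣ a ^ 2 ^ 0 - 1`. `Hf f (-a)`: `f ∣ (-a) ^ 2 ^ 1 - 1 = (a - 1) (a + 1)`. So `s x = x` for
`x ∈ Lf f` by definition (`s ∈ GK`). (2) `Nm a = 1 + 2 ^ (N - 1)` modulo `2 ^ N`: in `OO`: `Nm a = a * cjO a`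
(coordinates). `pO ^ N ∣ a - 1 - 2 ^ (N-1)`; `cjO` is a ring homomorphism on `OO` with `cjO pbO = pO`, so `pbO ^ N ∣ a - 1` gives
`pO ^ N ∣ cjO a - 1`. So `pO ^ N ∣ Nm a - 1 - 2 ^ (N-1)` (an integer `n`), and applying `cjO`, `pbO ^ N ∣ n`. `pO`, `pbO` are coprime
(`pO + pbO = 1`), so `pO ^ N * pbO ^ N = 2 ^ N ∣ n` in `OO` (`IsCoprime.mul_dvd`, `IsCoprime.pow`; `pO * pbO = 2`), and
in `ℤ` (coordinate `re`). (3) E6 for `Psi s m (± a)` (same norm): `s ζ = ζ ^ (Nm a).toNat`, `Nm a ≥ 0`, so `s ζ = ζ * ζ ^ 2 ^ (N-1) = - ζ`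
(`ζ ^ 2 ^ (N-1)` is a square root of `1` different from `1`; `IsPrimitiveRoot`). -/
def S_SN : Prop :=
  S_E6 → ∀ (f N : ℕ) (s : Gal(Om/ℚ)) (a : OO), Odd f → 7 ∣ f → 3 ≤ N → IsSN f N s a →
    Fx (Lf f) s ∧ ∀ ζ : Om, IsPrimitiveRoot ζ (2 ^ N) → s ζ = -ζ

/-- (80 lines) **Iu.** Inertia elements with given action on the roots of unity of order `2 ^ m`.
PROOF. Let `z0` be a primitive `2 ^ m`-th root of unity in `Om` (`HasEnoughRootsOfUnity.exists_primitiveRoot`), `K = ℚ(z0)`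
(`IntermediateField.adjoin ℚ {z0}`). By `LiftAux.exists_m` (`FW/D/Lift.lean`, public) there is `τ` with `τ z = z ^ u` for `z ^ 2 ^ m = 1`.
Apply `tEIne : S_EIne` (`FW/E/Ine.lean`) to `K`, `P`, `τ`: for `y : ZZ` with `(y : Om) ∈ K` we need `τ • y - y ∈ P`. By `tot_gen`
(`MuZ/Tot.lean`, `p = 2`) `y = f(ζ)`, `f` a polynomial over `ℤ`, `ζ = ⟨z0, _⟩ : ZZ`; `τ • y = f(ζ ^ u)`; `ζ - 1 ∈ P` (`tot_one`; `(2 : ZZ) ∈ P` by
`MP.nat_iff`/`MP.coe_iff`) and `ζ ^ u - 1 ∈ P`, and `f(ζ) - f(1) ∈ P`, `f(ζ ^ u) - f(1) ∈ P`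
(`Polynomial.sub_dvd_eval_sub`, as in `tot_mem`). Every `z` with `z ^ 2 ^ m = 1` is a power of `z0`, so in `K`. -/
def S_Iu : Prop :=
  ∀ P : Ideal ZZ, P.IsPrime → MP P 2 → ∀ (m u : ℕ), Odd u →
    ∃ ι ∈ P.inertia Gal(Om/ℚ), ∀ z : Om, z ^ 2 ^ m = 1 → ι z = z ^ u

/-- (100 lines) **X0.** The elements `xx ζ`.
PROOF. (A) For all `ζ`, `ζ'` with `ζ' ^ 2 = ζ`, `ζ' ≠ 0`: `(ζ' + ζ'⁻¹) ^ 2 = ζ + 2 + ζ⁻¹ = xx ζ` (`field_simp`). (B) Induction on `N ≥ 2` (`Nat.le_induction`): `xx ζ ≠ 0`,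
`MP P (xx ζ)`, `VP P (2 / xx ζ)`. `N = 2`: `ζ ^ 2` is a primitive second root of unity, so `ζ ^ 2 = -1`, `ζ⁻¹ = - ζ`, `xx ζ = 2`. Step: let `ζ'`
have order `2 ^ (N + 1)`, `ζ = ζ' ^ 2` (order `2 ^ N`: `IsPrimitiveRoot.pow`), `x = xx ζ`, `y = ζ' + ζ'⁻¹`: `y ^ 2 = x`,
`xx ζ' = 2 + y`, `VP P y` (integral). `(xx ζ') ^ 2 = 4 + 4 y + x`, so `(xx ζ') ^ 2 / x = 1 + 2 * ((2 / x) * (1 + y))`, a unit because
`MP P 2` (`UP.congr UP.one`). So `xx ζ' ≠ 0`; `MP P ((xx ζ')^2)` as `(xx ζ')^2 = x * unit`, so `MP P (xx ζ')` (`MP.of_pow`);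
`(2 / xx ζ') ^ 2 = 2 * (2 / x) * unit⁻¹`, `VP.of_pow`. (C) The last claim: the same computation. -/
def S_X0 : Prop :=
  ∀ P : Ideal ZZ, P.IsPrime → MP P 2 → ∀ N : ℕ, 2 ≤ N → ∀ ζ : Om, IsPrimitiveRoot ζ (2 ^ N) →
    xx ζ ≠ 0 ∧ MP P (xx ζ) ∧ VP P (2 / xx ζ) ∧ (N = 2 → xx ζ = 2) ∧
      ∀ ζ' : Om, ζ' ^ 2 = ζ → (ζ' + ζ'⁻¹) ^ 2 = xx ζ ∧ UP P (xx ζ' ^ 2 / xx ζ)

/-- (120 lines) **D2** (from Iu, X0). `L_(N+1) = L_N + L_N y`, `y = ζ' + ζ'⁻¹`.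
PROOF. `ζ = ζ' ^ 2` has order `2 ^ N` (`IsPrimitiveRoot.pow`), `y ^ 2 = xx ζ ≠ 0` (X0). Let `s` be from Iu for `m = N + 1`,
`u = 1 + 2 ^ N`: `s ζ' = ζ' * ζ' ^ 2 ^ N = - ζ'` (`ζ' ^ 2 ^ N = -1`), `s y = - y`, `s` fixes `L` (`Sit.inr`). Put `α = (ρ + s ρ) / 2`,
`β = (ρ - s ρ) / (2 y)`: `ρ = α + β y`. To show `α ∈ L_N`, `β ∈ L_N` use `mem_of_Fx`: let `τ` fix `L_N`. By `Sit.lnx`: `τ` fixes `L`,
`(τ ζ') ^ 2 = τ ζ = ζ ^ (± 1) = (ζ' ^ (± 1)) ^ 2`, so `τ ζ'` is `ζ'`, `ζ'⁻¹`, `- ζ'` or `- ζ'⁻¹`. In the first two cases `τ` fixes `L_(N+1)`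
(`Sit.lnx`), so `τ ρ = ρ`, `τ (s ρ) = s ρ` (`s ρ ∈ L_(N+1)`, `Sit.lnn`), `τ y = y`. In the other two cases `τ' = s⁻¹ τ` fixes `L` and
`τ' ζ' = ζ' ^ (± 1)` (`s⁻¹ (- ζ') = ζ'`), so it fixes `L_(N+1)`, as does `s s` (`s (s ζ') = ζ'`): `τ ρ = s (τ' ρ) = s ρ`,
`τ (s ρ) = s (τ' (s ρ)) = s (s ρ) = ρ`, `τ y = s (τ' y) = s y = - y`. So `τ α = α`, `τ β = β`. -/
def S_D2 : Prop :=
  S_Iu → S_X0 → ∀ (f : ℕ) (P : Ideal ZZ), Sit f P → ∀ N : ℕ, 2 ≤ N → ∀ ζ' : Om,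
    IsPrimitiveRoot ζ' (2 ^ (N + 1)) → ∀ ρ ∈ Ln f (N + 1),
    ∃ α ∈ Ln f N, ∃ β ∈ Ln f N, ρ = α + β * (ζ' + ζ'⁻¹)

/-- (120 lines) **Ev** (from X0, D2). The valuation of an element of `L_N` is not half of the valuation of `xx ζ`.
PROOF. Induction on `N ≥ 2`. `N = 2`: `Ln f 2 ≤ Lf f`: `mem_of_Fx`: if `τ` fixes `Lf f` then `τ ζ` has order 4, so it is `ζ` or
`ζ ^ 3 = ζ⁻¹` (its square is `-1 = ζ ^ 2`, so `τ ζ = ± ζ`, `- ζ = ζ⁻¹`), and `τ` fixes `Ln f 2` (`Sit.lnx`). `xx ζ = 2`. Suppose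
`UP P (ρ ^ 2 / 2)`. Then `MP P (ρ ^ 2)`, `MP P ρ`, `VP P (ρ / 2)` (`Sit.unr`), `VP P ((ρ / 2) ^ 2)`, i.e. `VP P ((ρ ^ 2 / 2) / 2)`; times the inverse of the
unit: `VP P (1 / 2)`, times `2`: `MP P 1`, contradiction. Step `N → N + 1`: `ζ'` of order `2 ^ (N+1)`, `ζ = ζ' ^ 2`, `x = xx ζ`, `x' = xx ζ'`,
`y = ζ' + ζ'⁻¹`, `y ^ 2 = x`, `UP P (x' ^ 2 / x)` (X0). Suppose `UP P (ρ ^ 2 / x')`; then `UP P (ρ ^ 4 / x)` (*). By D2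
`ρ = α + β y`. (a) If `α ≠ 0` then not `UP P (α ^ 4 / x)`: IH for `α ^ 2`. (b) If `β ≠ 0` then not `UP P (β ^ 4 * x)`: otherwise
`UP P ((β⁻¹ ^ 2) ^ 2 / x)` (the inverse), IH for `β⁻¹ ^ 2`. (c) If `α, β ≠ 0` and `t = α / (β y)` then not `UP P t`: `t ^ 2 = (α / β) ^ 2 / x`, IH.
Cases: `α = 0`: `ρ ^ 4 / x = β ^ 4 x` (and `β ≠ 0` as `ρ ≠ 0`: `UP` elements are not `0`). `β = 0`: `ρ ^ 4 / x = α ^ 4 / x`.
Both `≠ 0`: by (c) and `VP.or_inv` either `MP P t` or `MP P t⁻¹`. In the first case `ρ = β y (1 + t)`,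
`ρ ^ 4 / x = β ^ 4 x (1 + t) ^ 4` and `1 + t` is a unit: (b). In the second case `ρ = α (1 + t⁻¹)`: (a). -/
def S_Ev : Prop :=
  S_X0 → (∀ (f : ℕ) (P : Ideal ZZ), Sit f P → ∀ N : ℕ, 2 ≤ N → ∀ ζ' : Om,
    IsPrimitiveRoot ζ' (2 ^ (N + 1)) → ∀ ρ ∈ Ln f (N + 1),
    ∃ α ∈ Ln f N, ∃ β ∈ Ln f N, ρ = α + β * (ζ' + ζ'⁻¹)) →
  ∀ (f : ℕ) (P : Ideal ZZ), Sit f P → ∀ N : ℕ, 2 ≤ N → ∀ ζ : Om, IsPrimitiveRoot ζ (2 ^ N) →
    ∀ ρ ∈ Ln f N, ¬ UP P (ρ ^ 2 / xx ζ)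

/-- (90 lines) **G4** (from X0, D2, Ev). `s r - r` is in `2 V_P`.
PROOF. `N = M + 1`, `2 ≤ M`; `ζ'` of order `2 ^ N` (exists), `ζ = ζ' ^ 2`, `x = xx ζ`, `y = ζ' + ζ'⁻¹`, `y ^ 2 = x`, `x ≠ 0`. `r = α + β y`, `α, β ∈ L_M`. `s` fixes
`L_M` (`Sit.lnx`: `s ζ = (s ζ') ^ 2 = ζ`), `s y = - y`, so `s r - r = - 2 β y`; it is enough that `VP P (β y)`. `α = 0`: `β y = r`. `β = 0`: clear.
Otherwise `t = α / (β y)` is not a unit (`t ^ 2 = (α / β) ^ 2 / x`, Ev). If `MP P t`: `β y = r (1 + t)⁻¹`, `1 + t` a unit. If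
`MP P t⁻¹`: `α = r (1 + t⁻¹)⁻¹` is in `V_P`, `β y = α t⁻¹`. (`VP.or_inv`, `UP.inv`, `UP.congr`.) -/
def S_G4 : Prop :=
  S_X0 → (∀ (f : ℕ) (P : Ideal ZZ), Sit f P → ∀ N : ℕ, 2 ≤ N → ∀ ζ' : Om,
    IsPrimitiveRoot ζ' (2 ^ (N + 1)) → ∀ ρ ∈ Ln f (N + 1),
    ∃ α ∈ Ln f N, ∃ β ∈ Ln f N, ρ = α + β * (ζ' + ζ'⁻¹)) →
  (∀ (f : ℕ) (P : Ideal ZZ), Sit f P → ∀ N : ℕ, 2 ≤ N → ∀ ζ : Om, IsPrimitiveRoot ζ (2 ^ N) →
    ∀ ρ ∈ Ln f N, ¬ UP P (ρ ^ 2 / xx ζ)) →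
  ∀ (f : ℕ) (P : Ideal ZZ), Sit f P → ∀ N : ℕ, 3 ≤ N → ∀ s : Gal(Om/ℚ), Fx (Lf f) s →
    (∀ ζ : Om, IsPrimitiveRoot ζ (2 ^ N) → s ζ = -ζ) → ∀ r ∈ Ln f N, VP P r → TP P 2 (s r - r)

/-- (80 lines) **Stb.** `P` is maximal; `StP` is the stabiliser of `P`, a closed condition.
PROOF. `P` is maximal: `ZZ` is integral over `ℤ` and `P.comap (algebraMap ℤ ZZ)` is a prime of `ℤ` which contains `2`
(`MP.nat_iff` or `MP.coe_iff`), so maximal: `Ideal.isMaximal_of_isIntegral_of_isMaximal_comap`. `StP P d` says `d • P ≤ P`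
(`Ideal.mem_smul_pointwise_iff..`: `x ∈ d • P ↔ d⁻¹ • x ∈ P`); `d • P` is prime and contains `2` (`d • 2 = 2`), so it is maximal as well, and
`d • P = P` (`Ideal.IsMaximal.eq_of_le`). Inertia: `d • x = (d • x - x) + x`. Closed: the set is the intersection over `x ∈ P` of the sets
`{d | d • x ∈ P}`, each is closed, even clopen: it is a union of cosets of the open stabiliser of `x` (`tot_stab` in
`MuZ/Tot.lean`); or `{d | d • x ∈ P}` is the preimage of a subset of the discrete space under the continuous map `d ↦ d • x`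
(`ContinuousSMul` as in `tot_trans`). -/
def S_Stb : Prop :=
  ∀ P : Ideal ZZ, P.IsPrime → MP P 2 → P.IsMaximal ∧
    (∀ d : Gal(Om/ℚ), StP P d ↔ d ∈ MulAction.stabilizer Gal(Om/ℚ) P) ∧
    (∀ d ∈ P.inertia Gal(Om/ℚ), StP P d) ∧ IsClosed {d : Gal(Om/ℚ) | StP P d}

/-- (200 lines) **Arch.** The valuation of `V_P` has rank one.
PROOF. (1) `n x` is integral for some `n > 0` (`exists_integral_multiple`), `n = 2 ^ k * m`, `m` odd, so `(m : ZZ) ∉ P` (otherwise `1 ∈ P`),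
`2 ^ k x = (n x) / m`. (2) `y = a / b`, `a ∈ P`, `b ∉ P`; it is enough to find `K > 0` with `TP P (2 ^ M) (a ^ K)` (then also for `n ≥ K`: multiply by
elements of `V_P`), and by taking the `M`-th power `M = 1` is enough. If `a = 0` clear. Suppose that `TP P 2 (a ^ K)` is false
for all `K`, i.e. not `VP P (a ^ K / 2)`, so `VP P (2 / a ^ K)` for all `K` (`VP.not_iff`). Let `J` be the set of the `x : ZZ` with
`VP P (x / a ^ K)` for all `K`: an ideal. It is prime: `1 ∉ J` (otherwise `VP P (1 / a)`, `MP P 1`); if `x, x' ∉ J` then `MP P (a ^ K / x)`,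
`MP P (a ^ K' / x')` for some `K`, `K'` (`VP.not_iff`), so `MP P (a ^ (K + K') / (x x'))` and `x x' ∉ J`. `2 ∈ J`, so `J` is
maximal (as `P` in Stb: `Ideal.isMaximal_of_isIntegral_of_isMaximal_comap`). `J ≤ P`: `x = a * (x / a)`. So `J = P`, `a ∈ J`, and
`VP P (a / a ^ 2)`, `MP P 1`: contradiction. (Another proof: valuations of the number field `ℚ(a)`.) (3) `t` a unit. There is
`j > 0` with `MP P (t ^ j - 1)`: write `t = a / b`, `a, b ∈ ZZ`, both `∉ P`; it is enough to treat `a` (and `b`). There is a Frobenius element `φ` with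
`φ • x - x ^ 2 ∈ P` for all `x : ZZ` (`S_FrK` in `DI/FH/Spec.lean`, see `DI/FH/FrK.lean`, or the proof of `MuZ/Frob.lean`), and
`(φ ^ k) • a = a` for some `k > 0` (the orbit of `a` is finite: the roots of its minimal polynomial, or the stabiliser is open so of finite index), so
`a - a ^ 2 ^ k ∈ P`, `a * (1 - a ^ (2 ^ k - 1)) ∈ P`. (Or: the field `ZZ / P` is algebraic over the finite field `ZMod 2`.) Now
`t ^ j = 1 + y`, `MP P y`. Let `c ∈ {y, 2}` with `y, 2 ∈ c V_P` (`VP.or_inv`), `MP P c`. By induction on `k`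
`TP P (c ^ (k + 1)) ((1 + y) ^ 2 ^ k - 1)`: `(1 + z) ^ 2 - 1 = z (z + 2)`. By (2) `TP P (2 ^ M) (c ^ (k + 1))` for large `k`; the number is `j 2 ^ k`. -/
def S_Arch : Prop :=
  ∀ P : Ideal ZZ, P.IsPrime → MP P 2 → (∀ x : Om, ∃ k : ℕ, VP P (2 ^ k * x)) ∧
    (∀ y : Om, MP P y → ∀ M : ℕ, ∃ K : ℕ, ∀ n : ℕ, K ≤ n → TP P (2 ^ M) (y ^ n)) ∧
    ∀ t : Om, UP P t → ∀ M : ℕ, ∃ j : ℕ, 0 < j ∧ TP P (2 ^ M) (t ^ j - 1)

/-- (100 lines) **Cpt** (from Stb). Compactness.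
PROOF. Suppose not. Then for every `m0` there is `m ≥ m0` and `d` with `DL f P m d` and `d r ≠ r`; then also `DL f P m0 d` (`z ^ 2 ^ m0 = 1` gives
`z ^ 2 ^ m = 1`). So the sets `C m = {d | DL f P m d ∧ d r ≠ r}` are not empty; they decrease with `m` and are closed: `StP` by Stb, `Fx` and
`d z = z` are conditions `d x = x` (closed, even clopen: `QZ.eq_closed'` in `MuZ/QZ.lean`), and `{d | d r = r}` is the stabiliser of `r`, open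
(`stabilizer_isOpen_of_isIntegral`). The group is compact, so there is `d` in all `C m` (`IsCompact.nonempty_iInter_of_directed_nonempty_isCompact_isClosed`
or `IsCompact.nonempty_iInter_of_sequence_nonempty_isCompact_isClosed`). `d` fixes `L` and all roots of unity of order a power of 2, so it fixes
all `L_n` (`Sit.lnx`) and every `i` with `i ^ 2 = -1` (`i ^ 2 ^ 2 = 1`): `DD f P d`, so `d r = r`: contradiction. -/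
def S_Cpt : Prop :=
  S_Stb → ∀ (f : ℕ) (P : Ideal ZZ), Sit f P → ∀ r : Om, (∀ d : Gal(Om/ℚ), DD f P d → d r = r) →
    ∃ m0 : ℕ, ∀ m : ℕ, m0 ≤ m → ∀ d : Gal(Om/ℚ), DL f P m d → d r = r

/-- (100 lines) **Kap.** The Kummer character.
PROOF. `kap w d = 0` iff `d (sqr w) = sqr w` (definition); if `d w = w` then `(d (sqr w)) ^ 2 = (sqr w) ^ 2` (`sqr_sq`), so
`d (sqr w) = ± sqr w`, and `kap w d = 1` iff `d (sqr w) = - sqr w` (`w ≠ 0`, characteristic 0). (1) `r = ± sqr w`. (2) By (1) one may use the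
square root `sqr w * sqr w'` of `w w'`; four cases. (3) `(d d') (sqr w) = d (d' (sqr w))`; four cases. (4) Induction on the
finset and on the exponent from (2); `kap 1 d = 0`; `u ^ c ≠ 0`, `d (u ^ c) = u ^ c`; `∏ = ` insert. -/
def S_Kap : Prop :=
  (∀ (w r : Om) (d : Gal(Om/ℚ)), r ^ 2 = w → (kap w d = 0 ↔ d r = r)) ∧
  (∀ (w w' : Om) (d : Gal(Om/ℚ)), w ≠ 0 → w' ≠ 0 → d w = w → d w' = w' →
    kap (w * w') d = kap w d + kap w' d) ∧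
  (∀ (w : Om) (d d' : Gal(Om/ℚ)), w ≠ 0 → d w = w → d' w = w → kap w (d * d') = kap w d + kap w d') ∧
  ∀ (s : Finset OO) (u : OO → Om) (c : OO → ℕ) (d : Gal(Om/ℚ)),
    (∀ v ∈ s, u v ≠ 0 ∧ d (u v) = u v) →
    kap (∏ v ∈ s, u v ^ c v) d = ∑ v ∈ s, (c v : ZMod 2) * kap (u v) d

/-- (150 lines) **App** (from Stb, Arch). Approximation of a square root which is fixed by the decomposition group.
PROOF. If `r ∈ F` take `r' = r`. Otherwise there is `g`, `Fx F g`, `g r ≠ r` (`mem_of_Fx`), so `g r = - r` (`(g r) ^ 2 = r ^ 2`). Let `H` be the subgroup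
of the `h` with `Fx F h`, `h r = r`; it is closed (`QZ.eq_closed'`, intersections). STEP 1. There is `t : ZZ`, fixed by `H`, `t ∉ P`, `g • t ∈ P`. Proof: if
`x ∈ P ↔ x ∈ g⁻¹ • P` for all `x` fixed by `H` then `tot_trans` (`MuZ/Tot.lean`) gives `h ∈ H` with `g⁻¹ • P = h • P`, so
`g h` stabilises `P` and fixes `F`: `(g h) r = r` by hypothesis (Stb), but `(g h) r = g r = - r ≠ r` (`r ≠ 0`), contradiction. So there is `x`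
fixed by `H` with (a) `x ∉ P`, `x ∈ g⁻¹ • P` (i.e. `g • x ∈ P`): `t = x`; or (b) `x ∈ P`, `g • x ∉ P`: `t = g • x`. It is fixed by `H`: for `h ∈ H`
`g⁻¹ h g` fixes `F` and `r`, so `h g x = g (g⁻¹ h g) x = g x`; and `g • t = (g g) • x = x ∈ P` because `g g ∈ H`. STEP 2. `K` with
`VP P (2 ^ K * r)` (Arch 1), `M' = M + K`. Arch 3 for `t` (unit: `t ∈ ZZ`, `t ∉ P`) and `M'`: `j > 0` with `TP P (2 ^ M') (t ^ j - 1)`; Arch 2 for `g t` and `M'`: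
`n0` with `TP P (2 ^ M') ((g t) ^ n)` for `n ≥ n0`. Put `e = t ^ (j * (n0 + 1))`: `TP P (2 ^ M') (e - 1)` (`a - 1 ∣ a ^ n - 1`) and `TP P (2 ^ M') (g e)`.
STEP 3. `r' = e r + g (e r) = e r - (g e) r`. It is in `F`: let `τ` fix `F`. If `τ r = r` then `τ ∈ H`, `τ e = e`, and
`τ (g e) = g ((g⁻¹ τ g) e) = g e`. If `τ r = - r` then `g⁻¹ τ ∈ H` and `τ g ∈ H` (they fix `F` and `r`), so `τ e = g e`, `τ (g e) = e`,
`τ r' = (g e) (- r) + e r = r'`. And `r - r' = r * (- (e - 1) + g e)` is in `2 ^ M' r V_P ⊆ 2 ^ M V_P`. -/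
def S_App : Prop :=
  S_Stb → S_Arch → ∀ (F : IntermediateField ℚ Om) (P : Ideal ZZ), P.IsPrime → MP P 2 →
    ∀ r : Om, r ^ 2 ∈ F → (∀ d : Gal(Om/ℚ), StP P d → Fx F d → d r = r) →
    ∀ M : ℕ, ∃ r' ∈ F, TP P (2 ^ M) (r - r')

/-- (50 lines) **Pw.** The numbers `1` modulo `2 ^ N` are powers of `1 + 2 ^ N` modulo `2 ^ m`.
PROOF. For `m ≤ N` take `t = 0`. Induction on `m ≥ N`: let `c ≡ (1 + 2 ^ N) ^ t` modulo `2 ^ m`; then either it holds modulo `2 ^ (m + 1)`, or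
`c ≡ (1 + 2 ^ N) ^ t + 2 ^ m` modulo `2 ^ (m + 1)`. In the second case use `t + 2 ^ (m - N)`:
`(1 + 2 ^ N) ^ 2 ^ k = 1 + 2 ^ (N + k) (1 + 2 b)` for some `b` (induction on `k`, `N ≥ 2`: `(1 + 2 ^ n (1 + 2 b)) ^ 2 =
1 + 2 ^ (n + 1) (1 + 2 b) + 2 ^ (2 n) (..) ^ 2`, `2 n ≥ n + 2`), and `(1 + 2 ^ N) ^ t * 2 ^ m ≡ 2 ^ m` modulo `2 ^ (m + 1)` (odd times `2 ^ m`). -/
def S_Pw : Prop :=
  ∀ N : ℕ, 2 ≤ N → ∀ m c : ℕ, c ≡ 1 [MOD 2 ^ N] → ∃ t : ℕ, c ≡ (1 + 2 ^ N) ^ t [MOD 2 ^ m]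

/-- (200 lines) **G8a** (from Iu, X0, Stb, Kap, Pw). The Kummer character of `w` on `D_P ∩ Gal(Om/L_N)` is that of `± 1` or `± xx ζ`.
PROOF. One may enlarge `m` (`DL f P m' d → DL f P m d` for `m ≤ m'`), so let `m ≥ N + 1`, and `z0` a primitive `2 ^ m`-th root of unity with
`z0 ^ 2 ^ (m - N) = ζ` (take any `z1`; `ζ` is a power `(z1 ^ 2 ^ (m - N)) ^ i`, `i` odd, put `z0 = z1 ^ i`). Iu: `d1` with `u = 2 ^ m - 1` (so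
`d1 z = z⁻¹` if `z ^ 2 ^ m = 1`), `d2` with `u = 1 + 2 ^ N`. Both are in the inertia group, so `StP` (Stb), `Fx (Lf f)` (`Sit.inr`), and
they fix `L_N` (`Sit.lnx`: `d1 ζ = ζ⁻¹`, `d2 ζ = ζ`). Let `x = xx ζ`, `ζ1 = z0 ^ 2 ^ (m - N - 1)`: `ζ1 ^ 2 = ζ`, `y = ζ1 + ζ1⁻¹`, `y ^ 2 = x` (X0),
`d1 y = y`, `d2 y = - y` (`ζ1 ^ 2 ^ N = -1`); `i = z0 ^ 2 ^ (m - 2)`, `i ^ 2 = -1`, `d1 i = - i`, `d2 i = i`. So (Kap 1) `kap (-1) d1 = 1`, `kap (-1) d2 = 0`,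
`kap x d1 = 0`, `kap x d2 = 1` (values in `ZMod 2`; not `0` means `1`). Put `e = 1` if `kap w d1 = 0`, `e = -1` otherwise; `b = 0` if `kap w d2 = 0`, `b = 1`
otherwise, `w' = w * (e * x ^ b)`; all factors are fixed by the elements which fix `L_N` (`x ∈ L_N` by `mem_of_Fx`, `Sit.lnx`), so by Kap 2 `kap w' d1 = 0`, `kap w' d2 = 0`.
If `DL f P m d` then `kap w' d = 0`: `kap w d = 0` by hypothesis, `d i = i`, `d y = y`. Let `StP P d`, `Fx (Ln f N) d`. `d z0 = z0 ^ c`, `c` odd (`d z0` is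
a primitive root), and `d ζ = ζ ^ (± 1)` gives `c ≡ 1` or `c ≡ -1` modulo `2 ^ N`. If `c ≡ 1`: Pw: `t` with `c ≡ (1 + 2 ^ N) ^ t` modulo
`2 ^ m`; `d2 ^ t z0 = z0 ^ ((1 + 2 ^ N) ^ t) = d z0`, so `(d2 ^ t)⁻¹ * d` satisfies `DL f P m` (all `z` with `z ^ 2 ^ m = 1` are powers of
`z0`; `StP` is the stabiliser, a subgroup, by Stb), and `kap w' d = t * kap w' d2 + kap w' ((d2 ^ t)⁻¹ * d) = 0` (Kap 3; `kap w' (d2 ^ t) = 0` by induction). If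
`c ≡ -1`: apply this to `d1 * d` (`(d1 * d) z0 = z0 ^ ((2 ^ m - 1) * c)`): `0 = kap w' (d1 * d) = kap w' d1 + kap w' d = kap w' d`. Conclude by Kap 1. -/
def S_G8a : Prop :=
  S_Iu → S_X0 → S_Stb → S_Kap → S_Pw → ∀ (f : ℕ) (P : Ideal ZZ), Sit f P → ∀ N : ℕ, 2 ≤ N →
    ∀ ζ : Om, IsPrimitiveRoot ζ (2 ^ N) → ∀ w ∈ Ln f N, w ≠ 0 → ∀ m : ℕ,
    (∀ d : Gal(Om/ℚ), DL f P m d → kap w d = 0) →
    ∃ (e : Om) (b : ℕ), (e = 1 ∨ e = -1) ∧ (b = 0 ∨ b = 1) ∧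
      ∀ r : Om, r ^ 2 = w * (e * xx ζ ^ b) → ∀ d : Gal(Om/ℚ), StP P d → Fx (Ln f N) d → d r = r

/-- (150 lines) **G8b** (from Iu, X0, App, Ev, G4). `Ap`, `Evn`, `G4s` are the conclusions of App, Ev, G4.
PROOF. `x = xx ζ ∈ L_N` (`mem_of_Fx`, `Sit.lnx`: `τ ζ = ζ ^ (± 1)`), so `r ^ 2 ∈ L_N`. App with `F = Ln f N`, `M = 2`: `r' ∈ L_N`, `r - r' = 4 y`, `VP P y`.
`VP P r` as `r ^ 2 = w e x ^ b` is in `V_P` (`VP.of_pow`; `VP P x`). So `VP P r'`. CASE `b = 1`: `r' ^ 2 / x = w e - 4 (2 / x) (r y) + 8 (2 / x) y ^ 2`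
(from `r' = r - 4 y`; `x ≠ 0`, `VP P (2 / x)` by X0): a unit (`w e` is a unit, the rest is in `M_P`), against Ev for `ρ = r'`. CASE `b = 0`: `r ^ 2 = w e`. Iu
with `m = N`, `u = 1 + 2 ^ (N-1)`: `ι` in the inertia group, `ι ζ = - ζ = s ζ` (`ζ ^ 2 ^ (N-1) = -1`), `ι` and `s` fix `L`, so
`s⁻¹ ι` fixes `L` and `ζ`, hence `L_N` (`Sit.lnx`): `ι = s` on `L_N`. By G4 `TP P 2 (s r' - r')`, i.e. `TP P 2 (ι r' - r')`, and `ι r = ι r' + 4 ι y`, `VP P (ι y)`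
(`VP.inertia_vp`), so `ι r - r = (ι r' - r') + 4 (ι y - y)` is in `2 V_P`, and `ι r + r = (ι r - r) + 2 r` too. The product is
`ι (r ^ 2) - r ^ 2 = e (s w - w)` (`ι w = s w`, `ι e = e`), in `4 V_P`; divide by `e = ± 1`. -/
def S_G8b : Prop :=
  S_Iu → S_X0 → (∀ (F : IntermediateField ℚ Om) (P : Ideal ZZ), P.IsPrime → MP P 2 →
    ∀ r : Om, r ^ 2 ∈ F → (∀ d : Gal(Om/ℚ), StP P d → Fx F d → d r = r) →
    ∀ M : ℕ, ∃ r' ∈ F, TP P (2 ^ M) (r - r')) →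
  (∀ (f : ℕ) (P : Ideal ZZ), Sit f P → ∀ N : ℕ, 2 ≤ N → ∀ ζ : Om, IsPrimitiveRoot ζ (2 ^ N) →
    ∀ ρ ∈ Ln f N, ¬ UP P (ρ ^ 2 / xx ζ)) →
  (∀ (f : ℕ) (P : Ideal ZZ), Sit f P → ∀ N : ℕ, 3 ≤ N → ∀ s : Gal(Om/ℚ), Fx (Lf f) s →
    (∀ ζ : Om, IsPrimitiveRoot ζ (2 ^ N) → s ζ = -ζ) → ∀ r ∈ Ln f N, VP P r → TP P 2 (s r - r)) →
  ∀ (f : ℕ) (P : Ideal ZZ), Sit f P → ∀ N : ℕ, 3 ≤ N → ∀ s : Gal(Om/ℚ), Fx (Lf f) s →
    (∀ ζ : Om, IsPrimitiveRoot ζ (2 ^ N) → s ζ = -ζ) → ∀ ζ : Om, IsPrimitiveRoot ζ (2 ^ N) →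
    ∀ w ∈ Ln f N, UP P w → ∀ (e : Om) (b : ℕ), (e = 1 ∨ e = -1) → (b = 0 ∨ b = 1) →
    ∀ r : Om, r ^ 2 = w * (e * xx ζ ^ b) → (∀ d : Gal(Om/ℚ), StP P d → Fx (Ln f N) d → d r = r) →
    TP P 4 (s w - w)

/-- (60 lines) **G8.** The local lemma. PROOF (from Cpt, Kap, and the conclusions of G8a, G8b). `r0 = sqr w`, `r0 ^ 2 = w` (`sqr_sq`). For `DD f P d`:
`kap w d = 0`, so `d r0 = r0` (Kap 1). Cpt: `m0`; for `DL f P m0 d`: `d r0 = r0`, `kap w d = 0`. A primitive `2 ^ N`-th root of unity `ζ`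
(`HasEnoughRootsOfUnity.exists_primitiveRoot`). G8a with `m = m0` (`w ≠ 0`): `e`, `b`. Let `r` be a square root of `w * (e * xx ζ ^ b)`
(`IsAlgClosed.exists_pow_nat_eq`, or `sqr`). G8b. -/
def S_G8 : Prop :=
  (∀ (f : ℕ) (P : Ideal ZZ), Sit f P → ∀ r : Om, (∀ d : Gal(Om/ℚ), DD f P d → d r = r) →
    ∃ m0 : ℕ, ∀ m : ℕ, m0 ≤ m → ∀ d : Gal(Om/ℚ), DL f P m d → d r = r) → S_Kap →
  (∀ (f : ℕ) (P : Ideal ZZ), Sit f P → ∀ N : ℕ, 2 ≤ N →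
    ∀ ζ : Om, IsPrimitiveRoot ζ (2 ^ N) → ∀ w ∈ Ln f N, w ≠ 0 → ∀ m : ℕ,
    (∀ d : Gal(Om/ℚ), DL f P m d → kap w d = 0) →
    ∃ (e : Om) (b : ℕ), (e = 1 ∨ e = -1) ∧ (b = 0 ∨ b = 1) ∧
      ∀ r : Om, r ^ 2 = w * (e * xx ζ ^ b) → ∀ d : Gal(Om/ℚ), StP P d → Fx (Ln f N) d → d r = r) →
  (∀ (f : ℕ) (P : Ideal ZZ), Sit f P → ∀ N : ℕ, 3 ≤ N → ∀ s : Gal(Om/ℚ), Fx (Lf f) s →
    (∀ ζ : Om, IsPrimitiveRoot ζ (2 ^ N) → s ζ = -ζ) → ∀ ζ : Om, IsPrimitiveRoot ζ (2 ^ N) →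
    ∀ w ∈ Ln f N, UP P w → ∀ (e : Om) (b : ℕ), (e = 1 ∨ e = -1) → (b = 0 ∨ b = 1) →
    ∀ r : Om, r ^ 2 = w * (e * xx ζ ^ b) → (∀ d : Gal(Om/ℚ), StP P d → Fx (Ln f N) d → d r = r) →
    TP P 4 (s w - w)) →
  ∀ (f : ℕ) (P : Ideal ZZ), Sit f P → ∀ N : ℕ, 3 ≤ N → ∀ s : Gal(Om/ℚ), Fx (Lf f) s →
    (∀ ζ : Om, IsPrimitiveRoot ζ (2 ^ N) → s ζ = -ζ) → ∀ w ∈ Ln f N, UP P w →
    (∀ d : Gal(Om/ℚ), DD f P d → kap w d = 0) → TP P 4 (s w - w)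

/-- (100 lines) **RR** (from the second part of Arch). The ring generated by roots of unity of odd order is unramified at `2`.
PROOF. Let `R = Algebra.adjoin ℤ (Set.range χ)` and `q = 2 ^ φ(m)` (`Nat.ModEq.pow_totient`; for `m = 1`, `φ(m) = 1`), so `m ∣ q - 1`, `q ≥ 2`, and `z ^ q = z`
for every generator. Claim: for all `x ∈ R` there is `y ∈ R` with `x ^ q = x + 2 y`. `Algebra.adjoin_induction`: generators `y = 0`; integers: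
`n ^ q ≡ n` modulo 2; sums: `(x + x') ^ q = x ^ q + x' ^ q` modulo `2 R` (by induction from squares: `(x + x') ^ 2 = x ^ 2 + x' ^ 2 + 2 x x'`, and if `a = b + 2 c` then
`a ^ 2 = b ^ 2 + 2 (2 b c + 2 c ^ 2)`; `q` is a power of two); products clear. By induction on `k`: `x ^ q ^ k = x + 2 y`, `y ∈ R` (if `a = b + 2 c` then `a ^ q = b ^ q + 2 (..)`,
because `a - b ∣ a ^ q - b ^ q` in `R`). All elements of `R` are integral, so in `V_P`. By Arch 2 (`M = 1`) `TP P 2 (x ^ q ^ k)` for large `k` (`q ^ k ≥ k`), so `TP P 2 x`. -/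
def S_RR : Prop :=
  (∀ P : Ideal ZZ, P.IsPrime → MP P 2 → ∀ y : Om, MP P y → ∀ M : ℕ, ∃ K : ℕ, ∀ n : ℕ, K ≤ n →
    TP P (2 ^ M) (y ^ n)) →
  ∀ (χ : OO → Om) (m : ℕ), Odd m → (∀ v, χ v = 0 ∨ χ v ^ m = 1) → ∀ P : Ideal ZZ, P.IsPrime →
    MP P 2 → ∀ x ∈ Algebra.adjoin ℤ (Set.range χ), MP P x → TP P 2 x

/-- (90 lines) **Lin.** A basis of the residues of the `χ v`, over the field with two elements.
PROOF. Induction on `D` (`Finset.induction_on`), the claim for all `D`. `D = ∅`: `n = 0`. `D = insert v D'`: let `n, b, c` be for `D'`. If there are `c0 : Fin n → ℕ` with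
`MP P (χ v - ∑ i, c0 i * χ (b i))` keep `n, b` and put `c i v := c0 i` (`Function.update`). Otherwise `b' = Fin.snoc b v` (or use
`Option`/`Fin.cons`), `c'` for the new index `1` at `v` and `0` elsewhere, for the old indices `0` at `v`. Independence: let `MP P (∑ i, e i χ(b i) + e0 χ v)`. If `e0` is even, `e0 χ v` is in
`M_P` and the rest is the hypothesis for `D'`. If `e0` is odd then `MP P (χ v + ∑ i, e i χ (b i))`, so `MP P (χ v - ∑ i, e i χ (b i))`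
(`MP P 2`), excluded. -/
def S_Lin : Prop :=
  ∀ P : Ideal ZZ, P.IsPrime → MP P 2 → ∀ χ : OO → Om, (∀ v, VP P (χ v)) → ∀ D : Finset OO,
    ∃ (n : ℕ) (b : Fin n → OO) (c : Fin n → OO → ℕ),
      (∀ e : Fin n → ℕ, MP P (∑ i, (e i : Om) * χ (b i)) → ∀ i, 2 ∣ e i) ∧
      ∀ v ∈ D, MP P (χ v - ∑ i, (c i v : Om) * χ (b i))

/-- (80 lines) **Dad.** `w ↦ s w / w - 1` is additive modulo `4`.
PROOF. Write `C w = s w / w - 1`. `C (w w') = C w + C w' + C w * C w'` (`w, w' ≠ 0`). So if `C w, C w' ∈ 2 V_P` then `C (w w') = C w + C w'` modulo `4 V_P`, and it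
is in `2 V_P`. `C 1 = 0`. Powers by induction, then induction on the finset; carry along that `C` of the product is in `2 V_P`
(`4 V_P ⊆ 2 V_P`). -/
def S_Dad : Prop :=
  ∀ P : Ideal ZZ, P.IsPrime → MP P 2 → ∀ (s : Gal(Om/ℚ)) (D : Finset OO) (u : OO → Om) (c : OO → ℕ),
    (∀ v ∈ D, u v ≠ 0 ∧ TP P 2 (s (u v) / u v - 1)) →
    TP P 4 ((s (∏ v ∈ D, u v ^ c v) / (∏ v ∈ D, u v ^ c v) - 1) -
      ∑ v ∈ D, (c v : Om) * (s (u v) / u v - 1))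

/-- (150 lines) **G9** (from RR, Lin, Dad, Kap and the conclusions of G4, G8). Passage from `kap` to `D`.
PROOF. `VP P (χ v)` (roots of unity, `VP.integral`). Lin: `n, b, c`. For `v ∈ D` the element `ρ v = χ v - ∑ i, c i v * χ (b i)` is in
`Algebra.adjoin ℤ (Set.range χ)` and in `M_P`, so `TP P 2 (ρ v)` (RR). Let `w i = ∏ v ∈ D, u v ^ c i v`: in `L_N`, a unit. For `DD f P d` (then `Fx (Ln f N) d`, `d (u v) = u v`):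
`∑ v, χ v * (kap (u v) d).val = ∑ v, ρ v * (..) + ∑ i, (∑ v ∈ D, c i v * (kap (u v) d).val : ℕ) * χ (b i)`, so the last sum is in `M_P` and by Lin
`2 ∣ ∑ v ∈ D, c i v * (kap (u v) d).val` for all `i`; in `ZMod 2` this is `kap (w i) d = 0` (Kap 4, `ZMod.natCast_zmod_val`). G8: `TP P 4 (s (w i) - w i)`, so
`TP P 4 (s (w i) / w i - 1)` (`w i` is a unit). G4: `TP P 2 (s (u v) - u v)`, `TP P 2 (s (u v) / u v - 1)`. Dad: `TP P 4 (∑ v ∈ D, c i v * C (u v))`, `C w = s w / w - 1`. Finally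
`∑ v, χ v * C (u v) = ∑ v, ρ v * C (u v) + ∑ i, χ (b i) * ∑ v, c i v * C (u v)`: the first sum is in `2 V_P * 2 V_P`, the second in `4 V_P`. -/
def S_G9 : Prop :=
  S_Kap → (∀ (χ : OO → Om) (m : ℕ), Odd m → (∀ v, χ v = 0 ∨ χ v ^ m = 1) → ∀ P : Ideal ZZ, P.IsPrime →
    MP P 2 → ∀ x ∈ Algebra.adjoin ℤ (Set.range χ), MP P x → TP P 2 x) → S_Lin → S_Dad →
  (∀ (f : ℕ) (P : Ideal ZZ), Sit f P → ∀ N : ℕ, 3 ≤ N → ∀ s : Gal(Om/ℚ), Fx (Lf f) s →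
    (∀ ζ : Om, IsPrimitiveRoot ζ (2 ^ N) → s ζ = -ζ) → ∀ r ∈ Ln f N, VP P r → TP P 2 (s r - r)) →
  (∀ (f : ℕ) (P : Ideal ZZ), Sit f P → ∀ N : ℕ, 3 ≤ N → ∀ s : Gal(Om/ℚ), Fx (Lf f) s →
    (∀ ζ : Om, IsPrimitiveRoot ζ (2 ^ N) → s ζ = -ζ) → ∀ w ∈ Ln f N, UP P w →
    (∀ d : Gal(Om/ℚ), DD f P d → kap w d = 0) → TP P 4 (s w - w)) →
  ∀ (f : ℕ) (P : Ideal ZZ), Sit f P → ∀ N : ℕ, 3 ≤ N → ∀ s : Gal(Om/ℚ), Fx (Lf f) s →
    (∀ ζ : Om, IsPrimitiveRoot ζ (2 ^ N) → s ζ = -ζ) → ∀ (D : Finset OO) (u : OO → Om),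
    (∀ v ∈ D, u v ∈ Ln f N ∧ UP P (u v)) → ∀ (χ : OO → Om) (m : ℕ), Odd m →
    (∀ v, χ v = 0 ∨ χ v ^ m = 1) →
    (∀ d : Gal(Om/ℚ), DD f P d → MP P (∑ v ∈ D, χ v * ((kap (u v) d).val : Om))) →
    TP P 4 (∑ v ∈ D, χ v * (s (u v) / u v - 1))

/-- A system of representatives of `Δ = (O/f)^* / H_f`, `= 1` modulo `2 ^ N` (as in `S_G`). -/
structure IsSy (f N : ℕ) (D : Finset OO) : Prop where
  mem : ∀ v ∈ D, Cop v (2 * f) ∧ ((2 ^ N : ℕ) : OO) ∣ v - 1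
  ex : ∀ v : OO, Cop v f → ∃ u ∈ D, ∃ h, Hf f h ∧ (f : OO) ∣ v - h * u
  uni : ∀ u ∈ D, ∀ u' ∈ D, (∃ h, Hf f h ∧ (f : OO) ∣ u' - h * u) → u = u'

/-- (120 lines) **Sys** (from `S_UHN`). Existence of a system.
PROOF. Let `A` be the finite set of the `⟨a, b⟩ : OO`, `0 ≤ a, b < f`, with `Cop v f`; every `v` is congruent modulo `f` to an element of this form. For `v ∈ A` let
`v* = v + f t` with `v* = 1` modulo `2 ^ N` (`f` is odd: `f f' = 1` modulo `2 ^ N`, `t = f' (1 - v)`); `Cop v* f`, `Cop v* 2` for `N ≥ 1`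
(`Nm v*` is odd, as `Nm v* = 1` modulo `2 ^ N`), so `Cop v* (2 f)`. The relation `v ~ u` iff `∃ h, Hf f h ∧ f ∣ v - h u` is an equivalence relation
on the elements prime to `f` (`S_UHN`: `1`, products, inverses `v u = 1` modulo `f`; an inverse of `h` modulo `f` exists because `h ^ 2 ^ k = 1`: take `h ^ (2 ^ k - 1)`; or
`cjO h` times an inverse of the norm). Take for `D` the image of `A` under `v ↦` a chosen representative of the class (`Quotient.out` or a choice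
function `g : OO → OO` with `g v ~ v` and `g v = g u` for `v ~ u`), and then apply `*`. -/
def S_Sys : Prop :=
  S_UHN → ∀ f N : ℕ, Odd f → 7 ∣ f → 1 ≤ N → ∃ D : Finset OO, IsSy f N D

/-- (80 lines) **Sin.** Sums over two systems agree.
PROOF. `Finset.sum_bij'`-like: for `v ∈ D` there is a unique `u ∈ D'` with `∃ h, Hf f h ∧ f ∣ v - h u` (`IsSy.ex`; unique because the relation is
symmetric and transitive, `S_UHN`), this map `D → D'` is injective (`IsSy.uni`, symmetric and transitive) and surjective, and `F v = F u` by hypothesis. (`Finset.sum_nbij`, `Finset.sum_bij`.) For the symmetry: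
if `f ∣ v - h u`, `Hf f h`, `h ^ 2 ^ k = 1` modulo `f`, put `h' = h ^ (2 ^ k - 1)`: `Hf f h'` and `f ∣ u - h' v`. -/
def S_Sin : Prop :=
  S_UHN → ∀ f N : ℕ, Odd f → 7 ∣ f → ∀ D D' : Finset OO, IsSy f N D → IsSy f N D' →
    ∀ F : OO → Om, (∀ v u h : OO, Cop v (2 * f) → Cop u (2 * f) → ((2 ^ N : ℕ) : OO) ∣ v - 1 →
      ((2 ^ N : ℕ) : OO) ∣ u - 1 → Hf f h → (f : OO) ∣ v - h * u → F v = F u) →
    ∑ v ∈ D, F v = ∑ v ∈ D', F v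

/-- (90 lines) **Inv** (from `S_UHN`, `S_G3`). The summands depend only on the class.
PROOF. `χ h = 1` for `Hf f h`: `χ 1 = 1` (`χ 1 = χ 1 ^ 2`, `χ 1 ^ m = 1`), `f ∣ h ^ 2 ^ k - 1`, so `χ (h ^ 2 ^ k) = χ 1 = 1` (`IsChi.per`), `χ h ^ 2 ^ k = 1`
(`IsChi.mul`, induction) and `χ h ^ m = 1` with `m` odd, so `χ h = 1` (the orders are coprime). `χ v = χ (h u) = χ u`. For the unit: `S_UHN` gives `h'` with `HN f N h'`,
`2 ^ N ∣ h' - 1`, `f ∣ h' - h`. Then `f ∣ v v0 - h' (u v0)` and `2 ^ N ∣ v v0 - h' (u v0)` (all three are `1` times `v0`), so `f 2 ^ N` divides it (`f` odd: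
coprime, `IsCoprime.mul_dvd`). `S_G3` (fourth and fifth claim, `Cop (u v0) (2 f)`): `uN (v v0) = uN (h' (u v0)) = uN (u v0)`. -/
def S_Inv : Prop :=
  S_UHN → S_G3 → ∀ (f : ℕ) (μ : OO) (S : Finset ℂ) (N : ℕ) (T : Finset OO), Odd f → 7 ∣ f →
    Cop μ (2 * f) → IsHalf μ S → 3 ≤ N → IsRep f N T → ∀ χ : OO → Om, IsChi f χ →
    ∀ v u h v0 : OO, Cop v (2 * f) → Cop u (2 * f) → Cop v0 (2 * f) →
      ((2 ^ N : ℕ) : OO) ∣ v - 1 → ((2 ^ N : ℕ) : OO) ∣ u - 1 → Hf f h → (f : OO) ∣ v - h * u →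
      χ v = χ u ∧ uN f N μ S T (v * v0) = uN f N μ S T (u * v0)

/-- (120 lines) **GAs.** Assembly. `hS`, `hSN`, `hSys`, `hSin`, `hInv`, `h9` are the conclusions of SitE, SN, Sys, Sin, Inv, G9.
PROOF. `AbPi P` gives `Npr P` and `MP P wO`, `MP P 2` (`2 = wO * wbO`, `wbO = 1 - wO`, `VP P wbO`); `wbO` is a unit (`1 - wO`, `MP P wO`). `Sit f P`. `S_G7`: `μ, S, N, T, v0, s, a`. `hSN`: `Fx (Lf f) s`, `s ζ = - ζ`. Let
`u v = uN f N μ S T (v * v0)`; for `Cop v (2 f)`: `Cop (v v0) (2 f)`, `u v ∈ Ln f N`, `UP P (u v)` (`S_G3`). `m` odd from `IsChi.odd`; `χ v = 0` or `χ v ^ m = 1` (`IsChi.zero`). Let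
`D0` be a system (`hSys`). Claim: there is `d` with `DD f P d` and `¬ MP P (∑ v ∈ D0, χ v * (kap (u v) d).val)`. Otherwise `h9` gives
`TP P 4 (∑ v ∈ D0, χ v * (s (u v) / u v - 1))`; `Dw s w = (s w / w - 1) / wO`, the sum is `wO * ∑ χ v * Dw s (u v)`, and `4 = wO ^ 2 * wbO ^ 2`, so
`∑ χ v * Dw s (u v) = wO * (wbO ^ 2 * y)`: `TP P wO`, against `S_G7` for `D0`. For an arbitrary system `D` the sum over `D` is the sum over `D0` (`hSin` for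
`F v = χ v * (kap (u v) d).val`, `hInv`). The three hypotheses on `D` in `S_G` are `IsSy f N D`; `DD` is the conjunction of the three conditions on `d`. -/
def S_GAs : Prop :=
  (∀ (f : ℕ) (P : Ideal ZZ), Odd f → 7 ∣ f → Npr P → MP P 2 → Sit f P) →
  (∀ (f N : ℕ) (s : Gal(Om/ℚ)) (a : OO), Odd f → 7 ∣ f → 3 ≤ N → IsSN f N s a →
    Fx (Lf f) s ∧ ∀ ζ : Om, IsPrimitiveRoot ζ (2 ^ N) → s ζ = -ζ) →
  (∀ f N : ℕ, Odd f → 7 ∣ f → 1 ≤ N → ∃ D : Finset OO, IsSy f N D) →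
  (∀ f N : ℕ, Odd f → 7 ∣ f → ∀ D D' : Finset OO, IsSy f N D → IsSy f N D' →
    ∀ F : OO → Om, (∀ v u h : OO, Cop v (2 * f) → Cop u (2 * f) → ((2 ^ N : ℕ) : OO) ∣ v - 1 →
      ((2 ^ N : ℕ) : OO) ∣ u - 1 → Hf f h → (f : OO) ∣ v - h * u → F v = F u) →
    ∑ v ∈ D, F v = ∑ v ∈ D', F v) →
  (∀ (f : ℕ) (μ : OO) (S : Finset ℂ) (N : ℕ) (T : Finset OO), Odd f → 7 ∣ f →
    Cop μ (2 * f) → IsHalf μ S → 3 ≤ N → IsRep f N T → ∀ χ : OO → Om, IsChi f χ →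
    ∀ v u h v0 : OO, Cop v (2 * f) → Cop u (2 * f) → Cop v0 (2 * f) →
      ((2 ^ N : ℕ) : OO) ∣ v - 1 → ((2 ^ N : ℕ) : OO) ∣ u - 1 → Hf f h → (f : OO) ∣ v - h * u →
      χ v = χ u ∧ uN f N μ S T (v * v0) = uN f N μ S T (u * v0)) →
  (∀ (f : ℕ) (P : Ideal ZZ), Sit f P → ∀ N : ℕ, 3 ≤ N → ∀ s : Gal(Om/ℚ), Fx (Lf f) s →
    (∀ ζ : Om, IsPrimitiveRoot ζ (2 ^ N) → s ζ = -ζ) → ∀ (D : Finset OO) (u : OO → Om),
    (∀ v ∈ D, u v ∈ Ln f N ∧ UP P (u v)) → ∀ (χ : OO → Om) (m : ℕ), Odd m →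
    (∀ v, χ v = 0 ∨ χ v ^ m = 1) →
    (∀ d : Gal(Om/ℚ), DD f P d → MP P (∑ v ∈ D, χ v * ((kap (u v) d).val : Om))) →
    TP P 4 (∑ v ∈ D, χ v * (s (u v) / u v - 1))) →
  S_G3 → S_G7 → S_G

end Pool.Agent.DI.GL
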