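import Pool.Agent.Lib.DI.G.Spec

/-!
# Theorem DI, part G: `Θ(z + 1/π)/Θ(z)` modulo `π²`
-/

set_option autoImplicit false

open scoped Pointwise

noncomputable section

namespace Pool.Agent.DI.G

open Pool.Agent.MuZ Pool.Agent.DI

private theorem tht_wbO : wO * (1 - wO) = 2 := by
  linear_combination -wO_sq

private theorem tht_wC : wC * (1 - wC) = 2 := by
  linear_combination -wC_sq

private theorem tht_wC_ne : wC ≠ 0 := by
  intro h
  have h1 := tht_wC
  rw [h, zero_mul] at h1
  norm_num at h1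

private theorem tht_one_div : 1 / wC = (1 - wC) / 2 := by
  rw [div_eq_div_iff tht_wC_ne two_ne_zero]
  linear_combination -tht_wC

private theorem tht_toC_pO : toC pO = wC := by
  rw [toC_apply]
  simp [pO]

private theorem tht_toC_pbO : toC pbO = 1 - wC := by
  rw [toC_apply]
  simp [pbO]
  ring

private theorem tht_toC_one (z : ℂ) : toC 1 * z = z := by
  rw [map_one, one_mul]

private theorem tht_toO_vp {P : Ideal ZZ} [hP : P.IsPrime] (h : MP P wO) (v : OO) :
    VP P (toO v) := by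
  have e : toO v = (v.re : Om) + v.im * wO := rfl
  rw [e]
  exact (VP.int _).add ((VP.int _).mul h.vp)

private theorem tht_two {P : Ideal ZZ} [hP : P.IsPrime] (h : MP P wO) : MP P 2 := by
  rw [← tht_wbO]
  exact MP.mul_right h (VP.one.sub h.vp)

private theorem tht_prod {P : Ideal ZZ} [hP : P.IsPrime] (hw : VP P wO) (S : Finset ℂ)
    (q g r : ℂ → Om) (hq : ∀ u ∈ S, q u = 1 + wO * g u + wO ^ 2 * r u)
    (hg : ∀ u ∈ S, VP P (g u)) (hr : ∀ u ∈ S, VP P (r u)) :
    ∃ R : Om, VP P R ∧ ∏ u ∈ S, q u = 1 + wO * (∑ u ∈ S, g u) + wO ^ 2 * R := by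
  classical
  induction S using Finset.induction_on with
  | empty => exact ⟨0, VP.zero, by simp⟩
  | insert a s ha ih =>
    obtain ⟨R, hR, h1⟩ := ih (fun u hu => hq u (Finset.mem_insert_of_mem hu))
      (fun u hu => hg u (Finset.mem_insert_of_mem hu))
      (fun u hu => hr u (Finset.mem_insert_of_mem hu))
    have hga := hg a (Finset.mem_insert_self a s)
    have hra := hr a (Finset.mem_insert_self a s)
    have hqa := hq a (Finset.mem_insert_self a s)
    have hA : VP P (∑ u ∈ s, g u) := VP.sum s g fun u hu => hg u (Finset.mem_insert_of_mem hu)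
    refine ⟨R + r a + g a * (∑ u ∈ s, g u) + wO * (r a * (∑ u ∈ s, g u) + g a * R) +
      wO ^ 2 * (r a * R), ?_, ?_⟩
    · exact (((hR.add hra).add (hga.mul hA)).add (hw.mul ((hra.mul hA).add (hga.mul hR)))).add
        ((hw.pow 2).mul (hra.mul hR))
    · rw [Finset.prod_insert ha, Finset.sum_insert ha, h1, hqa]
      ring

theorem tThT : S_ThT := by
  intro hA0 hB7 hUC hRdz hGSm f N μ S P hf h7 hN hμ hS hP v hv z hz
  have hPp : P.IsPrime := hP.1
  have hw : MP P wO := hP.2.2
  obtain ⟨hTor, hnl, hVX, hVY, hu⟩ := hRdz f N μ P hf h7 hN hμ hP v hv z hz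
  obtain ⟨-, -, -, hc4, hc5, -, hc7, -⟩ := hUC
  have hμ2 : Cop μ 2 := ((hc4 μ 2 f).1 hμ).1
  have hμf : Cop μ f := ((hc4 μ 2 f).1 hμ).2
  -- the points are not in the lattice
  have hz0 : ¬ Lat z := by
    have h := hnl 1 (by
      unfold Cop
      have : Nm 1 = 1 := by
        unfold Nm
        rw [QuadraticAlgebra.re_one, QuadraticAlgebra.im_one]
        norm_num
      rw [this]
      exact isCoprime_one_left)
    rwa [tht_toC_one] at h
  have hz1 : ¬ Lat (wC * z) := by
    have h := hnl pO (by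
      unfold Cop
      have : Nm pO = 2 := by
        unfold Nm pO
        norm_num
      rw [this]
      have h2 : Nat.Coprime 2 f := (Nat.coprime_two_left).2 hf
      exact_mod_cast Nat.isCoprime_iff_coprime.2 h2)
    rwa [tht_toC_pO] at h
  have hz2 : ¬ Lat (toC μ * z) := hnl μ hμf
  have hfN : 0 < f * 2 ^ N := Nat.mul_pos hf.pos (by positivity)
  have hTor' : Tor (z + 1 / wC) := by
    refine ⟨2 * v + (f * 2 ^ N : ℕ) * pbO, 2 * (f * 2 ^ N), by omega, ?_⟩
    have h1 : (f : ℂ) ≠ 0 := by exact_mod_cast hf.pos.ne'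
    rw [hz, tht_one_div, map_add, map_mul, map_mul, tht_toC_pbO, map_natCast, map_ofNat]
    push_cast
    field_simp
  -- the translation formula
  set X := xO z with hX
  set X' := xO (z + 1 / wC) with hX'
  set Y := yO z with hY
  have key : X' * (wO ^ 2 * X - (1 - wO)) = (1 - wO) * X - wO ^ 3 := by
    apply io_inj
    have h1 := (hB7.2 wC wbC (Or.inl ⟨rfl, rfl⟩)).2 z hz0 hz1
    rw [map_mul, map_sub, map_mul, map_pow, map_sub, map_sub, map_mul, map_pow, map_sub, map_one,
      io_wO, hX, hX', (hA0 z hTor).1, (hA0 _ hTor').1]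
    exact h1
  have hwb : VP P (1 - wO) := VP.one.sub hw.vp
  have hD : UP P (wO ^ 2 * X - (1 - wO)) := by
    refine UP.congr (UP.neg UP.one) ?_
    have e : wO ^ 2 * X - (1 - wO) - -1 = wO * (wO * X + 1) := by ring
    rw [e]
    exact MP.mul_right hw ((hw.vp.mul hVX).add VP.one)
  set D := wO ^ 2 * X - (1 - wO) with hDdef
  have hD0 : D ≠ 0 := hD.ne_zero
  obtain ⟨e, he, heX⟩ : ∃ e : Om, VP P e ∧ e * D = (1 - wO) ^ 2 * X - wO ^ 2 - wO * X ^ 2 := by
    refine ⟨((1 - wO) ^ 2 * X - wO ^ 2 - wO * X ^ 2) * D⁻¹, ?_, ?_⟩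
    · exact ((((hwb.pow 2).mul hVX).sub (hw.vp.pow 2)).sub (hw.vp.mul (hVX.pow 2))).mul hD.inv.1
    · rw [mul_assoc, inv_mul_cancel₀ hD0, mul_one]
  have hX'e : X' = X + wO * e := by
    apply mul_right_cancel₀ hD0
    rw [add_mul, mul_assoc wO e D, heX, key]
    rw [hDdef]
    linear_combination (-(1 - wO) * X) * tht_wbO
  obtain ⟨g, hg, hge⟩ : ∃ g : Om, VP P g ∧ e + X = wO * g := by
    refine ⟨(-(1 - wO) * X - wO - X ^ 2 + wO * X ^ 2) * D⁻¹, ?_, ?_⟩
    · exact ((((hwb.neg.mul hVX).sub hw.vp).sub (hVX.pow 2)).add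
        (hw.vp.mul (hVX.pow 2))).mul hD.inv.1
    · apply mul_right_cancel₀ hD0
      rw [add_mul, heX, mul_assoc wO _ D, mul_assoc _ D⁻¹ D, inv_mul_cancel₀ hD0, mul_one, hDdef]
      ring
  -- the differences
  have hdu : ∀ u ∈ S, UP P (X - xO u) := fun u hu' => (hu u (hS.mem u hu').1 (hS.mem u hu').2).2.2
  have hdu' : ∀ u ∈ S, UP P (X' - xO u) := by
    intro u hu'
    refine UP.congr (hdu u hu') ?_
    have e1 : X' - xO u - (X - xO u) = wO * e := by rw [hX'e]; ring
    rw [e1]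
    exact MP.mul_right hw he
  have hG := hGSm μ S ((hc7 μ).2 hμ2) hS z hTor hz0 hz2 (fun u hu' h => (hdu u hu').ne_zero
    (sub_eq_zero.2 h))
  have hs7 : toO s7 ≠ 0 := by
    have h1 : UP P (toO s7) := by
      refine UP.congr (UP.neg UP.one) ?_
      have e1 : toO s7 = ((-1 : ℤ) : Om) + ((2 : ℤ) : Om) * wO := rfl
      have e2 : toO s7 - -1 = 2 * wO := by
        rw [e1]
        push_cast
        ring
      rw [e2]
      exact MP.mul_left (tht_two hw).vp hw
    exact h1.ne_zero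
  have hμ0 : toO μ ≠ 0 := by
    obtain ⟨w, hw'⟩ := (hc5 μ).1 hμ2
    have h1 : UP P (toO μ) := by
      refine UP.congr UP.one ?_
      have e1 : toO μ - 1 = 2 * toO w := by
        rw [← map_one toO, ← map_sub, hw', map_mul, map_ofNat]
      rw [e1]
      exact MP.mul_right (tht_two hw) (tht_toO_vp hw w)
    exact h1.ne_zero
  have hz4 : ∀ a b : ℂ, zO a - zO b = (xO a - xO b) / toO s7 := by
    intro a b
    unfold zO
    rw [← sub_div]
    congr 1
    ring
  have hTh0 : Theta μ S z ≠ 0 := by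
    unfold Theta
    refine mul_ne_zero (inv_ne_zero hμ0) (Finset.prod_ne_zero_iff.2 fun u hu' => ?_)
    rw [hz4]
    exact inv_ne_zero (div_ne_zero (hdu u hu').ne_zero hs7)
  have hgu : ∀ u ∈ S, VP P ((2 * Y + X) / (X - xO u)) := by
    intro u hu'
    rw [div_eq_mul_inv]
    exact (((tht_two hw).vp.mul hVY).add hVX).mul (hdu u hu').inv.1
  have hratio : Theta μ S (z + 1 / wC) / Theta μ S z = ∏ u ∈ S, (X - xO u) / (X' - xO u) := by
    unfold Theta
    rw [mul_div_mul_left _ _ (inv_ne_zero hμ0), ← Finset.prod_div_distrib]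
    refine Finset.prod_congr rfl fun u hu' => ?_
    rw [hz4, hz4]
    have h1 := (hdu u hu').ne_zero
    have h2 := (hdu' u hu').ne_zero
    change ((X' - xO u) / toO s7)⁻¹ / ((X - xO u) / toO s7)⁻¹ = _
    field_simp
  have hVP : VP P (gg μ z) := by
    rw [hG]
    exact VP.sum S _ hgu
  refine ⟨hVP, hTh0, ?_⟩
  obtain ⟨R, hR, hRp⟩ := tht_prod (P := P) hw.vp S (fun u => (X - xO u) / (X' - xO u))
    (fun u => (2 * Y + X) / (X - xO u))
    (fun u => -((g * (X - xO u) + X * e) * ((X' - xO u)⁻¹ * (X - xO u)⁻¹)) -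
      (1 - wO) * Y * (X - xO u)⁻¹) (by
      intro u hu'
      have h1 := (hdu u hu').ne_zero
      have h2 := (hdu' u hu').ne_zero
      have h3 : X' - xO u = (X - xO u) + wO * e := by rw [hX'e]; ring
      have h4 : e = wO * g - X := by rw [← hge]; ring
      have h5 := tht_wbO
      field_simp
      rw [h3]
      generalize X - xO u = d
      linear_combination (-d * wO) * hge + (wO * Y * (d + wO * e)) * h5) hgu (by
      intro u hu'
      exact ((((hg.mul (hdu u hu').1).add (hVX.mul he)).mul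
        ((hdu' u hu').inv.1.mul (hdu u hu').inv.1)).neg).sub
        ((hwb.mul hVY).mul (hdu u hu').inv.1))
  refine ⟨R, hR, ?_⟩
  rw [hratio, hRp, hG]
  ring

end Pool.Agent.DI.G
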